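import Pool.Agent.H433.AC.Int
import Mathlib.Algebra.BigOperators.Fin
import Mathlib.Order.Interval.Finset.Fin

/-!
Upper and lower bounds for the `L²` norm of the differentials.
-/

set_option autoImplicit false
set_option linter.unusedSectionVars false

open MeasureTheory Finset
open scoped ENNReal

namespace Pool.Agent.H433.AC

section basic

variable {m n : ℕ} [NeZero m] (k : Fin n → ZMod m)

theorem mu_nonneg (i : Fin n) : 0 ≤ ((k i).val / m : ℝ) := by positivity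

theorem mu_lt (i : Fin n) : ((k i).val / m : ℝ) < 1 := by
  have h1 : (0 : ℝ) < m := by exact_mod_cast Nat.pos_of_ne_zero (NeZero.ne m)
  rw [div_lt_one h1]
  exact_mod_cast ZMod.val_lt (k i)

theorem sum_mu : ∑ i, ((k i).val / m : ℝ) = wt k / m := by
  unfold wt
  rw [← Finset.sum_div]
  push_cast
  rfl

theorem dm_lt (h : dm k ≠ 0) : (dm k : ℝ) < wt k / m := by
  have h1 : 0 < m := Nat.pos_of_ne_zero (NeZero.ne m)
  have h2 : (0 : ℝ) < m := by exact_mod_cast h1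
  rw [lt_div_iff₀ h2]
  have h3 : dm k * m ≤ wt k - 1 := by
    unfold dm
    exact Nat.div_mul_le_self _ _
  have h4 : 1 ≤ dm k * m := Nat.one_le_iff_ne_zero.2 (mul_ne_zero h h1.ne')
  have h5 : dm k * m < wt k := by omega
  exact_mod_cast h5

end basic

/-- the number of pairs -/
theorem sum_Ioi (d : ℕ) : 2 * ∑ i : Fin d, (Ioi i).card = d * (d - 1) := by
  have h1 : ∑ i : Fin d, (Ioi i).card = ∑ i ∈ range d, (d - 1 - i) := by
    rw [Finset.sum_range]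
    refine sum_congr rfl fun i _ => ?_
    rw [Fin.card_Ioi]
  rw [h1, Finset.sum_range_reflect (fun i => i), mul_comm, Finset.sum_range_id_mul_two]

/-- an upper bound for the Vandermonde determinant -/
theorem vdm_le {d : ℕ} (x : Fin d → ℂ) {R : ℝ} (hR : 0 < R) :
    ‖(Matrix.vandermonde x).det‖ ^ 2 ≤
      ((d.factorial : ℝ) ^ 2 * R ^ (d * (d - 1))) * ∏ s, (max 1 (‖x s‖ / R)) ^ (2 * (d - 1)) := by
  set y : Fin d → ℂ := fun s => x s / R with hy
  have hRc : (R : ℂ) ≠ 0 := by exact_mod_cast hR.ne'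
  have h1 : (Matrix.vandermonde x).det = (∏ j : Fin d, (R : ℂ) ^ (j : ℕ)) *
      (Matrix.vandermonde y).det := by
    rw [← Matrix.det_mul_row]
    congr 1
    ext i j
    rw [Matrix.of_apply, Matrix.vandermonde_apply, Matrix.vandermonde_apply, ← mul_pow, hy]
    congr 1
    show x i = R * (x i / R)
    rw [mul_div_cancel₀ _ hRc]
  have h2 : ‖(Matrix.vandermonde y).det‖ ≤
      (d.factorial : ℝ) * ∏ s, (max 1 (‖x s‖ / R)) ^ (d - 1) := by
    rw [Matrix.det_apply]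
    refine (norm_sum_le _ _).trans ?_
    have e1 : ∀ σ ∈ (univ : Finset (Equiv.Perm (Fin d))),
        ‖Equiv.Perm.sign σ • ∏ i, Matrix.vandermonde y (σ i) i‖ ≤
          ∏ s, (max 1 (‖x s‖ / R)) ^ (d - 1) := by
      intro σ _
      have e2 : ‖Equiv.Perm.sign σ • ∏ i, Matrix.vandermonde y (σ i) i‖ =
          ∏ i, ‖y (σ i)‖ ^ (i : ℕ) := by
        rw [show (Equiv.Perm.sign σ • ∏ i, Matrix.vandermonde y (σ i) i) =
          ((Equiv.Perm.sign σ : ℤ) : ℂ) * ∏ i, Matrix.vandermonde y (σ i) i by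
            rw [Units.smul_def, zsmul_eq_mul]]
        rw [norm_mul, norm_prod, Complex.norm_intCast]
        have e3 : |(((Equiv.Perm.sign σ : ℤˣ) : ℤ) : ℝ)| = 1 := by
          rcases Int.units_eq_one_or (Equiv.Perm.sign σ) with h | h <;> rw [h] <;> simp
        rw [e3, one_mul]
        refine prod_congr rfl fun i _ => ?_
        rw [Matrix.vandermonde_apply, norm_pow]
      rw [e2, ← Equiv.prod_comp σ (fun s => (max 1 (‖x s‖ / R)) ^ (d - 1))]
      refine prod_le_prod (fun _ _ => by positivity) fun i _ => ?_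
      have e4 : ‖y (σ i)‖ = ‖x (σ i)‖ / R := by
        rw [hy]
        simp only
        rw [norm_div, Complex.norm_real, Real.norm_of_nonneg hR.le]
      rw [e4]
      have e5 : ‖x (σ i)‖ / R ≤ max 1 (‖x (σ i)‖ / R) := le_max_right _ _
      refine (pow_le_pow_left₀ (by positivity) e5 _).trans ?_
      refine pow_le_pow_right₀ (le_max_left _ _) ?_
      have := i.2
      omega
    refine (sum_le_card_nsmul _ _ _ e1).trans (le_of_eq ?_)
    rw [card_univ, Fintype.card_perm, Fintype.card_fin, nsmul_eq_mul]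
  have h3 : ‖∏ j : Fin d, (R : ℂ) ^ (j : ℕ)‖ ^ 2 = R ^ (d * (d - 1)) := by
    rw [prod_pow_eq_pow_sum, norm_pow, Complex.norm_real, Real.norm_of_nonneg hR.le, ← pow_mul]
    congr 1
    rw [← Finset.sum_range (fun i => i), Finset.sum_range_id_mul_two]
  rw [h1, norm_mul, mul_pow, h3]
  have h4 : ‖(Matrix.vandermonde y).det‖ ^ 2 ≤
      ((d.factorial : ℝ) * ∏ s, (max 1 (‖x s‖ / R)) ^ (d - 1)) ^ 2 :=
    pow_le_pow_left₀ (norm_nonneg _) h2 2
  refine (mul_le_mul_of_nonneg_left h4 (by positivity)).trans (le_of_eq ?_)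
  rw [mul_pow, ← prod_pow]
  simp only [← pow_mul]
  rw [mul_comm (d - 1) 2]
  ring

/-- a lower bound for the Vandermonde determinant -/
theorem le_vdm {d : ℕ} (x : Fin d → ℂ) {r : ℝ} (hr : 0 ≤ r)
    (h : ∀ i j : Fin d, i ≠ j → r ≤ ‖x i - x j‖) :
    r ^ (d * (d - 1)) ≤ ‖(Matrix.vandermonde x).det‖ ^ 2 := by
  rw [Matrix.det_vandermonde, norm_prod, ← sum_Ioi, mul_comm 2, pow_mul]
  refine pow_le_pow_left₀ (by positivity) ?_ 2
  rw [← prod_pow_eq_pow_sum]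
  refine prod_le_prod (fun _ _ => by positivity) fun i _ => ?_
  rw [norm_prod, ← prod_const]
  refine prod_le_prod (fun _ _ => hr) fun j hj => ?_
  exact h j i (Finset.mem_Ioi.1 hj).ne'

section weight

variable {n : ℕ} (μ : Fin n → ℝ)

/-- the weight -/
noncomputable def wgt (z : Fin n → ℂ) (x : ℂ) : ℝ≥0∞ := ∏ i, ‖x - z i‖ₑ ^ (-(2 * μ i))

theorem wgt_measurable (z : Fin n → ℂ) : Measurable (wgt μ z) := by
  unfold wgt
  exact Finset.measurable_fun_prod _ fun i _ => by fun_prop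

theorem prod_ofReal_rpow {c : ℝ} (hc : 0 < c) :
    ∏ i, (ENNReal.ofReal c) ^ (-(2 * μ i)) = ENNReal.ofReal (c ^ (-(2 * ∑ i, μ i))) := by
  have h1 : ∀ i ∈ (univ : Finset (Fin n)), (ENNReal.ofReal c) ^ (-(2 * μ i)) =
      ENNReal.ofReal (c ^ (-(2 * μ i))) := fun i _ => ENNReal.ofReal_rpow_of_pos hc
  rw [prod_congr rfl h1, ← ENNReal.ofReal_prod_of_nonneg fun i _ => by positivity,
    ← Real.rpow_sum_of_pos hc]
  congr 2
  rw [sum_neg_distrib, mul_sum]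

theorem rpow_anti {x y : ℝ≥0∞} {t : ℝ} (ht : 0 ≤ t) (h : x ≤ y) : y ^ (-t) ≤ x ^ (-t) := by
  rw [ENNReal.rpow_neg, ENNReal.rpow_neg]
  exact ENNReal.inv_le_inv.2 (ENNReal.rpow_le_rpow h ht)

theorem le_wgt (hμ : ∀ i, 0 ≤ μ i) {z : Fin n → ℂ} {R : ℝ} (hR : 0 < R) (hz : ∀ i, ‖z i‖ ≤ R)
    {x : ℂ} (hx : ‖x‖ ≤ R) : ENNReal.ofReal ((2 * R) ^ (-(2 * ∑ i, μ i))) ≤ wgt μ z x := by
  rw [← prod_ofReal_rpow μ (by positivity : 0 < 2 * R)]
  unfold wgt
  refine prod_le_prod' fun i _ => rpow_anti (by linarith [hμ i]) ?_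
  rw [← ofReal_norm]
  refine ENNReal.ofReal_le_ofReal ((norm_sub_le _ _).trans ?_)
  linarith [hz i]

theorem wgt_scale {z : Fin n → ℂ} {R : ℝ} (hR : 0 < R) (y : ℂ) :
    wgt μ z (R • y) = ENNReal.ofReal (R ^ (-(2 * ∑ i, μ i))) * wgt μ (fun i => z i / R) y := by
  rw [← prod_ofReal_rpow μ hR]
  unfold wgt
  rw [← prod_mul_distrib]
  refine prod_congr rfl fun i _ => ?_
  have hRc : (R : ℂ) ≠ 0 := by exact_mod_cast hR.ne'
  have h1 : R • y - z i = (R : ℂ) * (y - z i / R) := by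
    rw [mul_sub, mul_div_cancel₀ _ hRc, Complex.real_smul]
  rw [h1, enorm_mul]
  have h2 : ‖(R : ℂ)‖ₑ = ENNReal.ofReal R := by
    rw [← ofReal_norm, Complex.norm_real, Real.norm_of_nonneg hR.le]
  rw [h2, ENNReal.mul_rpow_of_ne_top ENNReal.ofReal_ne_top enorm_ne_top]

/-- near the points -/
theorem wgt_near (hμ : ∀ i, 0 ≤ μ i) (i₀ : Fin n) {b : Fin n → ℂ} {δ : ℝ} (hδ : 0 < δ)
    (hδ1 : δ ≤ 1)
    (hb : ∀ i j, i ≠ j → δ ≤ ‖b i - b j‖) (y : ℂ) :
    wgt μ b y ≤ ENNReal.ofReal ((δ / 2) ^ (-(2 * ∑ i, μ i))) * ∑ i, ‖y - b i‖ₑ ^ (-(2 * μ i)) := by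
  obtain ⟨i, -, hi⟩ := Finset.exists_min_image (univ : Finset (Fin n)) (fun i => ‖y - b i‖)
    ⟨i₀, mem_univ _⟩
  have h1 : ∀ j, j ≠ i → δ / 2 ≤ ‖y - b j‖ := by
    intro j hj
    have h2 := hb i j hj.symm
    have h3 := hi j (mem_univ _)
    have h4 : ‖b i - b j‖ ≤ ‖y - b i‖ + ‖y - b j‖ := by
      have : b i - b j = (y - b j) - (y - b i) := by ring
      rw [this]
      refine (norm_sub_le _ _).trans ?_
      linarith
    linarith
  have hδ2 : 0 < δ / 2 := by positivity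
  have h5 : wgt μ b y ≤ ‖y - b i‖ₑ ^ (-(2 * μ i)) *
      ∏ j, (ENNReal.ofReal (δ / 2)) ^ (-(2 * μ j)) := by
    unfold wgt
    rw [← mul_prod_erase univ _ (mem_univ i)]
    refine mul_le_mul_right ?_ _
    rw [← mul_prod_erase univ (fun j => (ENNReal.ofReal (δ / 2)) ^ (-(2 * μ j))) (mem_univ i)]
    have h6 : 1 ≤ (ENNReal.ofReal (δ / 2)) ^ (-(2 * μ i)) := by
      rw [ENNReal.ofReal_rpow_of_pos hδ2, ← ENNReal.ofReal_one]
      refine ENNReal.ofReal_le_ofReal ?_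
      exact Real.one_le_rpow_of_pos_of_le_one_of_nonpos hδ2 (by linarith) (by linarith [hμ i])
    refine le_trans ?_ (le_mul_of_one_le_left' h6)
    refine prod_le_prod' fun j hj => rpow_anti (by linarith [hμ j]) ?_
    rw [← ofReal_norm]
    exact ENNReal.ofReal_le_ofReal (h1 j (Finset.ne_of_mem_erase hj))
  rw [prod_ofReal_rpow μ hδ2] at h5
  refine h5.trans ?_
  rw [mul_comm]
  refine mul_le_mul_right ?_ _
  exact single_le_sum (f := fun i => ‖y - b i‖ₑ ^ (-(2 * μ i))) (fun _ _ => zero_le) (mem_univ i)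

/-- far from the points -/
theorem wgt_far (hμ : ∀ i, 0 ≤ μ i) {b : Fin n → ℂ} (hb : ∀ i, ‖b i‖ ≤ 1) {y : ℂ}
    (hy : 2 ≤ ‖y‖) :
    wgt μ b y ≤ ENNReal.ofReal (2 ^ (2 * ∑ i, μ i)) * ‖y‖ₑ ^ (-(2 * ∑ i, μ i)) := by
  have hy0 : 0 < ‖y‖ := by linarith
  have h1 : wgt μ b y ≤ ∏ j, (ENNReal.ofReal (‖y‖ / 2)) ^ (-(2 * μ j)) := by
    unfold wgt
    refine prod_le_prod' fun j _ => rpow_anti (by linarith [hμ j]) ?_
    rw [← ofReal_norm]
    refine ENNReal.ofReal_le_ofReal ?_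
    have := norm_sub_norm_le y (b j)
    linarith [hb j]
  refine h1.trans (le_of_eq ?_)
  rw [prod_ofReal_rpow μ (by positivity : 0 < ‖y‖ / 2), ← ofReal_norm,
    ENNReal.ofReal_rpow_of_pos hy0, ← ENNReal.ofReal_mul (by positivity)]
  congr 1
  rw [Real.div_rpow hy0.le (by norm_num), Real.rpow_neg (by norm_num : (0 : ℝ) ≤ 2), div_inv_eq_mul,
    mul_comm]

/-- the integral in one variable -/
theorem int_one (hμ : ∀ i, 0 ≤ μ i) (hμ1 : ∀ i, μ i < 1) (d : ℕ) (hd : 1 ≤ d)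
    (hs : (d : ℝ) < ∑ i, μ i) : ∃ C : ℝ, 1 ≤ C ∧ ∀ (b : Fin n → ℂ) (δ : ℝ), 0 < δ → δ ≤ 1 →
      (∀ i, ‖b i‖ ≤ 1) → (∀ i j, i ≠ j → δ ≤ ‖b i - b j‖) →
      ∫⁻ y, ENNReal.ofReal ((max 1 ‖y‖) ^ (2 * (d - 1))) * wgt μ b y ≤
        ENNReal.ofReal (C * δ ^ (-(2 * ∑ i, μ i))) := by
  set s := ∑ i, μ i with hsd
  have hd1 : (1 : ℝ) ≤ d := by exact_mod_cast hd
  have hs0 : 0 < s := by linarith
  have hn : ∃ i₀ : Fin n, True := by
    by_contra h
    push Not at h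
    have : s = 0 := by
      rw [hsd]
      exact sum_eq_zero fun i _ => (h i).elim
    linarith
  obtain ⟨i₀, -⟩ := hn
  have hball : ∀ i, ∃ C : ℝ, 0 < C ∧
      ∫⁻ x : ℂ in Metric.ball 0 (2 + 1), ‖x‖ₑ ^ (-(2 * μ i)) ≤ ENNReal.ofReal C := fun i =>
    exists_ball (by linarith [hμ1 i]) _
  choose c hc0 hc using hball
  obtain ⟨c', hc'0, hc'⟩ := exists_tail (β := 2 * (s - d + 1)) (by linarith)
  have hcs : 0 ≤ ∑ i, c i := sum_nonneg fun i _ => (hc0 i).le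
  refine ⟨1 + 4 ^ d * ((2 : ℝ) ^ (2 * s)) * ∑ i, c i + 2 ^ (2 * s) * c', ?_, ?_⟩
  · have e1 : 0 ≤ 4 ^ d * ((2 : ℝ) ^ (2 * s)) * ∑ i, c i := by positivity
    have e2 : 0 ≤ (2 : ℝ) ^ (2 * s) * c' := by positivity
    linarith
  intro b δ hδ hδ1 hb hbδ
  have hmeas : Measurable fun y : ℂ => ENNReal.ofReal ((max 1 ‖y‖) ^ (2 * (d - 1))) * wgt μ b y := by
    refine Measurable.mul ?_ (wgt_measurable μ b)
    fun_prop
  have hδs : 1 ≤ δ ^ (-(2 * s)) :=
    Real.one_le_rpow_of_pos_of_le_one_of_nonpos hδ hδ1 (by linarith)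
  rw [← lintegral_add_compl _ (show MeasurableSet (Metric.ball (0 : ℂ) 2) from
    Metric.isOpen_ball.measurableSet)]
  have part1 : ∫⁻ y in Metric.ball (0 : ℂ) 2,
      ENNReal.ofReal ((max 1 ‖y‖) ^ (2 * (d - 1))) * wgt μ b y ≤
        ENNReal.ofReal (4 ^ d * ((2 : ℝ) ^ (2 * s)) * (∑ i, c i) * δ ^ (-(2 * s))) := by
    have e1 : ∫⁻ y in Metric.ball (0 : ℂ) 2,
        ENNReal.ofReal ((max 1 ‖y‖) ^ (2 * (d - 1))) * wgt μ b y ≤
        ∫⁻ y in Metric.ball (0 : ℂ) 2, ENNReal.ofReal (4 ^ d * (δ / 2) ^ (-(2 * s))) *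
          ∑ i, ‖y - b i‖ₑ ^ (-(2 * μ i)) := by
      refine setLIntegral_mono' Metric.isOpen_ball.measurableSet fun y hy => ?_
      rw [mem_ball_zero_iff] at hy
      rw [ENNReal.ofReal_mul (by positivity), mul_assoc]
      refine mul_le_mul' (ENNReal.ofReal_le_ofReal ?_) (wgt_near μ hμ i₀ hδ hδ1 hbδ y)
      have e2 : max 1 ‖y‖ ≤ 2 := max_le (by norm_num) hy.le
      refine (pow_le_pow_left₀ (by positivity) e2 _).trans ?_
      rw [pow_mul]
      norm_num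
      exact pow_le_pow_right₀ (by norm_num) (by omega)
    refine e1.trans ?_
    rw [lintegral_const_mul _ (by fun_prop), lintegral_finsetSum _ fun i _ => by fun_prop]
    have e3 : ∑ i, ∫⁻ y in Metric.ball (0 : ℂ) 2, ‖y - b i‖ₑ ^ (-(2 * μ i)) ≤
        ENNReal.ofReal (∑ i, c i) := by
      rw [ENNReal.ofReal_sum_of_nonneg fun i _ => (hc0 i).le]
      exact sum_le_sum fun i _ => lint_ball_shift (hc i) (hb i)
    refine (mul_le_mul_right e3 _).trans (le_of_eq ?_)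
    rw [← ENNReal.ofReal_mul (by positivity)]
    congr 1
    have e4 : (δ / 2) ^ (-(2 * s)) = 2 ^ (2 * s) * δ ^ (-(2 * s)) := by
      rw [Real.div_rpow hδ.le (by norm_num), Real.rpow_neg (by norm_num : (0 : ℝ) ≤ 2),
        div_inv_eq_mul, mul_comm]
    rw [e4]
    ring
  have part2 : ∫⁻ y in (Metric.ball (0 : ℂ) 2)ᶜ,
      ENNReal.ofReal ((max 1 ‖y‖) ^ (2 * (d - 1))) * wgt μ b y ≤
        ENNReal.ofReal (2 ^ (2 * s) * c') := by
    have e1 : ∫⁻ y in (Metric.ball (0 : ℂ) 2)ᶜ,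
        ENNReal.ofReal ((max 1 ‖y‖) ^ (2 * (d - 1))) * wgt μ b y ≤
        ∫⁻ y in (Metric.ball (0 : ℂ) 2)ᶜ, ENNReal.ofReal (2 ^ (2 * s)) *
          ‖y‖ₑ ^ (-(2 * (s - d + 1))) := by
      refine setLIntegral_mono' Metric.isOpen_ball.measurableSet.compl fun y hy => ?_
      have hy2 : 2 ≤ ‖y‖ := by
        rw [Set.mem_compl_iff, mem_ball_zero_iff, not_lt] at hy
        exact hy
      have hy0 : 0 < ‖y‖ := by linarith
      refine (mul_le_mul_right (wgt_far μ hμ hb hy2) _).trans (le_of_eq ?_)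
      have e2 : max 1 ‖y‖ = ‖y‖ := max_eq_right (by linarith)
      rw [e2, mul_left_comm, ← hsd]
      congr 1
      rw [← ofReal_norm, ENNReal.ofReal_rpow_of_pos hy0, ENNReal.ofReal_rpow_of_pos hy0,
        ← ENNReal.ofReal_mul (by positivity)]
      congr 1
      rw [← Real.rpow_natCast, ← Real.rpow_add hy0]
      congr 1
      rw [Nat.cast_mul, Nat.cast_sub hd]
      push_cast
      ring
    refine e1.trans ?_
    rw [lintegral_const_mul _ (by fun_prop), ENNReal.ofReal_mul (by positivity)]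
    refine mul_le_mul_right (le_trans (lintegral_mono_set ?_) hc') _
    intro y hy
    rw [Set.mem_compl_iff, mem_ball_zero_iff, not_lt] at hy
    show 1 ≤ ‖y‖
    linarith
  refine (add_le_add part1 part2).trans ?_
  rw [← ENNReal.ofReal_add (by positivity) (by positivity)]
  refine ENNReal.ofReal_le_ofReal ?_
  have e1 : 2 ^ (2 * s) * c' * 1 ≤ 2 ^ (2 * s) * c' * δ ^ (-(2 * s)) :=
    mul_le_mul_of_nonneg_left hδs (by positivity)
  nlinarith

end weight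

end Pool.Agent.H433.AC
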