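import Pool.Agent.H433.AC.Def
import Mathlib.NumberTheory.NumberField.Ideal.Asymptotics

/-!
Elements of ideals in boxes, and sums over ideals.
-/

set_option autoImplicit false

open NumberField IsDedekindDomain Finset

namespace Pool.Agent.H433.AC

variable {K : Type} [Field K] [NumberField K]

theorem mem_box {H : ℕ} {x : 𝓞 K} :
    x ∈ box K H ↔ ∀ i, |(RingOfIntegers.basis K).repr x i| ≤ H := by
  unfold box
  rw [mem_map]
  constructor
  · rintro ⟨a, ha, rfl⟩ i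
    rw [Fintype.mem_piFinset] at ha
    have h1 := ha i
    rw [mem_Icc] at h1
    have h2 : (RingOfIntegers.basis K).repr
        ((RingOfIntegers.basis K).equivFun.symm.toEquiv.toEmbedding a) i = a i := by
      have h3 := (RingOfIntegers.basis K).equivFun.apply_symm_apply a
      have h4 := congrFun h3 i
      rw [Module.Basis.equivFun_apply] at h4
      exact h4
    rw [h2]
    exact abs_le.2 h1
  · intro h
    refine ⟨(RingOfIntegers.basis K).equivFun x, ?_, ?_⟩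
    · rw [Fintype.mem_piFinset]
      intro i
      rw [mem_Icc, Module.Basis.equivFun_apply]
      exact abs_le.1 (h i)
    · exact (RingOfIntegers.basis K).equivFun.symm_apply_apply x

theorem card_box (K : Type) [Field K] [NumberField K] (H : ℕ) :
    (box K H).card = (2 * H + 1) ^ Module.finrank ℚ K := by
  unfold box
  rw [card_map, Fintype.card_piFinset]
  simp only [Int.card_Icc, prod_const, card_univ]
  rw [← Module.finrank_eq_card_chooseBasisIndex, RingOfIntegers.rank]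
  congr 1
  omega

theorem box_size (K : Type) [Field K] [NumberField K] : ∃ C₀ : ℝ, 1 ≤ C₀ ∧ ∀ H : ℕ,
    ∀ x ∈ box K H, ∀ σ : K →+* ℂ, ‖σ (x : K)‖ ≤ C₀ * H := by
  set b := RingOfIntegers.basis K with hb
  refine ⟨1 + ∑ σ : K →+* ℂ, ∑ i, ‖σ ((b i : 𝓞 K) : K)‖, ?_, ?_⟩
  · have : 0 ≤ ∑ σ : K →+* ℂ, ∑ i, ‖σ ((b i : 𝓞 K) : K)‖ := by positivity
    linarith
  · intro H x hx σ
    rw [mem_box] at hx
    have h1 : σ (x : K) = ∑ i, ((b.repr x i : ℤ) : ℂ) * σ ((b i : 𝓞 K) : K) := by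
      have h2 : σ (x : K) = σ ((∑ i, b.repr x i • b i : 𝓞 K) : K) := by rw [b.sum_repr]
      rw [h2]
      simp only [map_sum, zsmul_eq_mul, map_mul, map_intCast]
    rw [h1]
    refine (norm_sum_le _ _).trans ?_
    have h4 : ∑ i, ‖((b.repr x i : ℤ) : ℂ) * σ ((b i : 𝓞 K) : K)‖ ≤
        ∑ i, ‖σ ((b i : 𝓞 K) : K)‖ * H := by
      refine sum_le_sum fun i _ => ?_
      rw [norm_mul, Complex.norm_intCast, mul_comm]
      refine mul_le_mul_of_nonneg_left ?_ (norm_nonneg _)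
      exact_mod_cast hx i
    refine h4.trans ?_
    rw [← sum_mul]
    refine mul_le_mul_of_nonneg_right ?_ (Nat.cast_nonneg _)
    have h5 : ∑ i, ‖σ ((b i : 𝓞 K) : K)‖ ≤ ∑ σ : K →+* ℂ, ∑ i, ‖σ ((b i : 𝓞 K) : K)‖ :=
      single_le_sum (f := fun σ : K →+* ℂ => ∑ i, ‖σ ((b i : 𝓞 K) : K)‖)
        (fun _ _ => by positivity) (mem_univ σ)
    linarith

theorem sub_mem_box {H : ℕ} {x y : 𝓞 K} (hx : x ∈ box K H) (hy : y ∈ box K H) :
    x - y ∈ box K (2 * H) := by
  rw [mem_box] at *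
  intro i
  have h1 := hx i
  have h2 := hy i
  rw [map_sub, Finsupp.sub_apply]
  have h3 := abs_sub (((RingOfIntegers.basis K).repr x) i) (((RingOfIntegers.basis K).repr y) i)
  push_cast
  linarith

/-- the norm of an integer -/
noncomputable def Nm (x : 𝓞 K) : ℕ := Ideal.absNorm (Ideal.span {x})

theorem Nm_ne {x : 𝓞 K} (hx : x ≠ 0) : Nm x ≠ 0 := by
  unfold Nm
  rw [Ne, Ideal.absNorm_eq_zero_iff, Ideal.span_singleton_eq_bot]
  exact hx

theorem Nm_mul (x y : 𝓞 K) : Nm (x * y) = Nm x * Nm y := by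
  unfold Nm
  rw [← Ideal.span_singleton_mul_span_singleton, map_mul]

theorem Nm_emb (x : 𝓞 K) : (Nm x : ℝ) = ∏ σ : K →+* ℂ, ‖σ (x : K)‖ := by
  unfold Nm
  rw [Ideal.absNorm_span_singleton]
  have h1 : ((Algebra.norm ℤ x).natAbs : ℝ) = ‖((Algebra.norm ℚ (x : K) : ℚ) : ℂ)‖ := by
    rw [← Algebra.coe_norm_int, Rat.cast_intCast, Complex.norm_intCast, Nat.cast_natAbs,
      Int.cast_abs]
  rw [h1]
  have h2 := Algebra.norm_eq_prod_embeddings ℚ ℂ (x : K)
  rw [← norm_prod]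
  have h3 : ((Algebra.norm ℚ (x : K) : ℚ) : ℂ) = algebraMap ℚ ℂ (Algebra.norm ℚ (x : K)) := rfl
  rw [h3, h2]
  congr 1
  refine Fintype.prod_equiv (RingHom.equivRatAlgHom (R := K) (S := ℂ)).symm _ _ fun σ => ?_
  rfl

theorem Nm_box (K : Type) [Field K] [NumberField K] : ∃ C₀ : ℝ, 1 ≤ C₀ ∧
    (∀ H : ℕ, ∀ x ∈ box K H, ∀ σ : K →+* ℂ, ‖σ (x : K)‖ ≤ C₀ * H) ∧
    ∀ H : ℕ, ∀ x ∈ box K H, (Nm x : ℝ) ≤ (C₀ * H) ^ Module.finrank ℚ K := by
  obtain ⟨C₀, h0, h⟩ := box_size K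
  refine ⟨C₀, h0, h, fun H x hx => ?_⟩
  rw [Nm_emb, ← Embeddings.card K ℂ, ← card_univ, ← prod_const]
  exact prod_le_prod (fun _ _ => norm_nonneg _) fun σ _ => h H x hx σ

/-- the number of the elements of an ideal in a box -/
theorem card_ideal (K : Type) [Field K] [NumberField K] : ∃ C : ℝ, 1 ≤ C ∧ ∀ H : ℕ, 1 ≤ H →
    ∀ I : Ideal (𝓞 K), I ≠ ⊥ → ∀ S : Finset (𝓞 K), (∀ x ∈ S, x ∈ box K H ∧ x ≠ 0 ∧ x ∈ I) →
      (S.card : ℝ) ≤ C * (H : ℝ) ^ Module.finrank ℚ K / Ideal.absNorm I := by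
  classical
  obtain ⟨C₀, h0, hs, hn⟩ := Nm_box K
  set d := Module.finrank ℚ K with hd
  have hd0 : d ≠ 0 := Module.finrank_pos.ne'
  refine ⟨(3 * C₀) ^ d, one_le_pow₀ (by linarith), fun H hH I hI S hS => ?_⟩
  have hHR : (1 : ℝ) ≤ H := by exact_mod_cast hH
  set N : ℝ := ((Ideal.absNorm I : ℕ) : ℝ) with hN
  have hN1 : 0 < Ideal.absNorm I := Nat.pos_of_ne_zero fun h => hI (Ideal.absNorm_eq_zero_iff.1 h)
  have hN0 : 0 < N := by
    rw [hN]
    exact_mod_cast hN1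
  rcases S.eq_empty_or_nonempty with rfl | ⟨x₀, hx₀⟩
  · simp only [card_empty, CharP.cast_eq_zero]
    positivity
  have hle : ∀ x : 𝓞 K, x ∈ I → x ≠ 0 → N ≤ Nm x := by
    intro x hx hx0
    have h1 : Ideal.absNorm I ∣ Nm x := by
      unfold Nm
      exact Ideal.absNorm_dvd_absNorm_of_le ((Ideal.span_singleton_le_iff_mem _).2 hx)
    rw [hN]
    exact_mod_cast Nat.le_of_dvd (Nat.pos_of_ne_zero (Nm_ne hx0)) h1
  set ρ : ℝ := N ^ ((d : ℝ)⁻¹) / C₀ with hρ
  have hρ0 : 0 < ρ := by positivity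
  have hρd : (C₀ * ρ) ^ d = N := by
    rw [hρ, mul_div_cancel₀ _ (by linarith : C₀ ≠ 0), ← Real.rpow_natCast, ← Real.rpow_mul hN0.le,
      inv_mul_cancel₀ (by exact_mod_cast hd0), Real.rpow_one]
  set q : ℕ := ⌈ρ⌉₊ with hq
  have hq1 : 1 ≤ q := Nat.one_le_iff_ne_zero.2 (Nat.ceil_pos.2 hρ0).ne'
  have hqρ : ρ ≤ q := Nat.le_ceil _
  have hqH : q ≤ H := by
    rw [hq, Nat.ceil_le]
    obtain ⟨h1, h2, h3⟩ := hS x₀ hx₀
    have h4 := (hle x₀ h3 h2).trans (hn H x₀ h1)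
    rw [← hρd] at h4
    have h5 := (pow_le_pow_iff_left₀ (by positivity) (by positivity) hd0).1 h4
    exact le_of_mul_le_mul_left h5 (by linarith)
  -- cells
  set f : 𝓞 K → (Module.Free.ChooseBasisIndex ℤ (𝓞 K) → ℕ) := fun x i =>
    ((RingOfIntegers.basis K).repr x i + H).toNat / q with hf
  set T := Fintype.piFinset fun _ : Module.Free.ChooseBasisIndex ℤ (𝓞 K) =>
    Finset.range (2 * H / q + 1) with hT
  have hmaps : ∀ x ∈ S, f x ∈ T := by
    intro x hx
    rw [hT, Fintype.mem_piFinset]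
    intro i
    rw [mem_range, hf, Nat.lt_succ_iff]
    apply Nat.div_le_div_right
    have h1 := (mem_box.1 (hS x hx).1) i
    rw [abs_le] at h1
    omega
  have cell : ∀ u w : ℤ, |u| ≤ H → |w| ≤ H → (u + H).toNat / q = (w + H).toNat / q →
      |u - w| ≤ ((q - 1 : ℕ) : ℤ) := by
    intro u w hu hw e3
    rw [abs_le] at hu hw ⊢
    have e4 := Nat.div_add_mod (u + H).toNat q
    have e5 := Nat.div_add_mod (w + H).toNat q
    have e6 := Nat.mod_lt (u + H).toNat hq1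
    have e7 := Nat.mod_lt (w + H).toNat hq1
    rw [e3] at e4
    have e8 : ((u + H).toNat : ℤ) = u + H := Int.toNat_of_nonneg (by linarith)
    have e9 : ((w + H).toNat : ℤ) = w + H := Int.toNat_of_nonneg (by linarith)
    generalize (u + H).toNat % q = r1 at *
    generalize (w + H).toNat % q = r2 at *
    generalize q * ((w + H).toNat / q) = r3 at *
    constructor <;> omega
  have hinj : Set.InjOn f S := by
    intro x hx y hy hxy
    by_contra hne
    have hx' := hS x hx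
    have hy' := hS y hy
    have h1 : x - y ∈ box K (q - 1) := by
      rw [mem_box]
      intro i
      rw [map_sub, Finsupp.sub_apply]
      exact cell _ _ ((mem_box.1 hx'.1) i) ((mem_box.1 hy'.1) i) (congrFun hxy i)
    have h2 : x - y ∈ I := I.sub_mem hx'.2.2 hy'.2.2
    have h3 := (hle _ h2 (sub_ne_zero.2 hne)).trans (hn (q - 1) _ h1)
    rw [← hρd] at h3
    have h5 := (pow_le_pow_iff_left₀ (by positivity) (by positivity) hd0).1 h3
    have h6 := le_of_mul_le_mul_left h5 (by linarith)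
    have h7 : ((q - 1 : ℕ) : ℝ) < ρ := by
      have := Nat.ceil_lt_add_one hρ0.le
      rw [Nat.cast_sub hq1]
      push_cast
      rw [← hq] at this
      linarith
    linarith
  have h1 := card_le_card_of_injOn f hmaps hinj
  have h2 : T.card = (2 * H / q + 1) ^ d := by
    rw [hT, Fintype.card_piFinset]
    simp only [card_range, prod_const, card_univ]
    rw [← Module.finrank_eq_card_chooseBasisIndex, RingOfIntegers.rank]
  rw [h2] at h1
  have hq0 : (0 : ℝ) < q := by exact_mod_cast hq1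
  have h3 : ((2 * H / q + 1 : ℕ) : ℝ) ≤ 3 * H / q := by
    push_cast
    have h4 : ((2 * H / q : ℕ) : ℝ) ≤ 2 * H / q := by
      have := @Nat.cast_div_le ℝ _ _ _ (2 * H) q
      push_cast at this
      exact this
    have h5 : (1 : ℝ) ≤ H / q := by
      rw [le_div_iff₀ hq0, one_mul]
      exact_mod_cast hqH
    have h6 : (3 : ℝ) * H / q = 2 * H / q + H / q := by ring
    rw [h6]
    linarith
  have h4 : (S.card : ℝ) ≤ (3 * H / q) ^ d := by
    have : (S.card : ℝ) ≤ ((2 * H / q + 1 : ℕ) : ℝ) ^ d := by exact_mod_cast h1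
    exact this.trans (pow_le_pow_left₀ (Nat.cast_nonneg _) h3 _)
  refine h4.trans ?_
  rw [← hρd]
  have h5 : (3 * (H : ℝ) / q) ^ d ≤ (3 * H / ρ) ^ d :=
    pow_le_pow_left₀ (by positivity) (div_le_div_of_nonneg_left (by positivity) hρ0 hqρ) _
  refine h5.trans (le_of_eq ?_)
  rw [← mul_pow, ← div_pow]
  congr 1
  field_simp

/-- the number of ideals -/
theorem card_ideals (K : Type) [Field K] [NumberField K] : ∃ C : ℝ, 1 ≤ C ∧ ∀ s : ℝ, 1 ≤ s →
    ∀ S : Finset (Ideal (𝓞 K)), (∀ I ∈ S, (Ideal.absNorm I : ℝ) ≤ s) → (S.card : ℝ) ≤ C * s := by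
  classical
  have h := Ideal.tendsto_norm_le_div_atTop K
  set L := ((2 ^ InfinitePlace.nrRealPlaces K * (2 * Real.pi) ^ InfinitePlace.nrComplexPlaces K *
    Units.regulator K * classNumber K) /
      (Units.torsionOrder K * Real.sqrt |discr K|)) with hL
  have h1 := h.eventually (gt_mem_nhds (show L < L + 1 by linarith))
  rw [Filter.eventually_atTop] at h1
  obtain ⟨s₀, hs₀⟩ := h1
  set s₁ := max s₀ 1 with hs₁
  have fin : ∀ s : ℝ, 0 ≤ s → Finite {I : Ideal (𝓞 K) // (Ideal.absNorm I : ℝ) ≤ s} := by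
    intro s hs
    have : {I : Ideal (𝓞 K) | Ideal.absNorm I ≤ ⌊s⌋₊}.Finite :=
      Ideal.finite_setOfPred_absNorm_le _
    refine (this.subset fun I hI => ?_).to_subtype
    exact Nat.le_floor hI
  have key : ∀ s : ℝ, 0 ≤ s → ∀ S : Finset (Ideal (𝓞 K)), (∀ I ∈ S, (Ideal.absNorm I : ℝ) ≤ s) →
      (S.card : ℝ) ≤ Nat.card {I : Ideal (𝓞 K) // (Ideal.absNorm I : ℝ) ≤ s} := by
    intro s hs S hS
    have := fin s hs
    have h2 : Nat.card S ≤ Nat.card {I : Ideal (𝓞 K) // (Ideal.absNorm I : ℝ) ≤ s} :=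
      Nat.card_le_card_of_injective
        (fun I : S => (⟨I.1, hS I.1 I.2⟩ : {I : Ideal (𝓞 K) // (Ideal.absNorm I : ℝ) ≤ s}))
        (fun I J hIJ => Subtype.ext (by simpa using congrArg Subtype.val hIJ))
    rw [Nat.card_eq_fintype_card, Fintype.card_coe] at h2
    exact_mod_cast h2
  set N₁ : ℝ := ((Nat.card {I : Ideal (𝓞 K) // (Ideal.absNorm I : ℝ) ≤ s₁} : ℕ) : ℝ) with hN₁
  have hs1 : 1 ≤ s₁ := le_max_right _ _
  have hN₁0 : 0 ≤ N₁ := Nat.cast_nonneg _
  refine ⟨1 + N₁ + max (L + 1) 0, ?_, fun s hs S hS => ?_⟩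
  · have := le_max_right (L + 1) 0
    linarith
  · have hm := le_max_right (L + 1) 0
    have hm' := le_max_left (L + 1) 0
    rcases le_total s s₁ with hle | hle
    · have h2 := key s₁ (by linarith) S fun I hI => (hS I hI).trans hle
      have h3 : N₁ * 1 ≤ N₁ * s := mul_le_mul_of_nonneg_left hs hN₁0
      have h4 : 0 ≤ max (L + 1) 0 * s := mul_nonneg hm (by linarith)
      nlinarith
    · have h2 := key s (by linarith) S hS
      have h3 := hs₀ s ((le_max_left _ _).trans hle)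
      rw [div_lt_iff₀ (by linarith)] at h3
      have h4 : (L + 1) * s ≤ max (L + 1) 0 * s := mul_le_mul_of_nonneg_right hm' (by linarith)
      have h5 : 0 ≤ N₁ * s := mul_nonneg hN₁0 (by linarith)
      nlinarith

/-- a sum over ideals -/
theorem sum_ideals (K : Type) [Field K] [NumberField K] : ∃ C : ℝ, 1 ≤ C ∧ ∀ Y : ℝ, 1 ≤ Y →
    ∀ S : Finset (Ideal (𝓞 K)), (∀ I ∈ S, Y ≤ Ideal.absNorm I) →
      ∑ I ∈ S, ((Ideal.absNorm I : ℝ) ^ 2)⁻¹ ≤ C / Y := by
  classical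
  obtain ⟨C, hC, h⟩ := card_ideals K
  refine ⟨4 * C, by linarith, fun Y hY S hS => ?_⟩
  have hY0 : 0 < Y := by linarith
  have ind : ∀ j : ℕ, ∑ I ∈ S.filter fun I => (Ideal.absNorm I : ℝ) < 2 ^ j * Y,
      ((Ideal.absNorm I : ℝ) ^ 2)⁻¹ ≤ 4 * C / Y * (1 - (2 ^ j)⁻¹) := by
    intro j
    induction j with
    | zero =>
      have : S.filter (fun I => (Ideal.absNorm I : ℝ) < 2 ^ 0 * Y) = ∅ := by
        rw [filter_eq_empty_iff]
        intro I hI
        have := hS I hI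
        push Not
        linarith
      rw [this, sum_empty]
      simp
    | succ j ih =>
      have h1 : S.filter (fun I => (Ideal.absNorm I : ℝ) < 2 ^ (j + 1) * Y) =
          (S.filter fun I => (Ideal.absNorm I : ℝ) < 2 ^ j * Y) ∪
          (S.filter fun I => 2 ^ j * Y ≤ (Ideal.absNorm I : ℝ) ∧
            (Ideal.absNorm I : ℝ) < 2 ^ (j + 1) * Y) := by
        ext I
        simp only [mem_filter, mem_union]
        constructor
        · rintro ⟨h1, h2⟩
          by_cases h3 : (Ideal.absNorm I : ℝ) < 2 ^ j * Y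
          · exact Or.inl ⟨h1, h3⟩
          · exact Or.inr ⟨h1, not_lt.1 h3, h2⟩
        · rintro (⟨h1, h2⟩ | ⟨h1, -, h2⟩)
          · refine ⟨h1, h2.trans_le ?_⟩
            rw [pow_succ]
            nlinarith [pow_pos (show (0 : ℝ) < 2 by norm_num) j]
          · exact ⟨h1, h2⟩
      have h2 : Disjoint (S.filter fun I => (Ideal.absNorm I : ℝ) < 2 ^ j * Y)
          (S.filter fun I => 2 ^ j * Y ≤ (Ideal.absNorm I : ℝ) ∧
            (Ideal.absNorm I : ℝ) < 2 ^ (j + 1) * Y) := by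
        rw [disjoint_filter]
        intro I _ h1 h2
        linarith [h2.1]
      rw [h1, sum_union h2]
      have hp : (0 : ℝ) < 2 ^ j := by positivity
      have hp1 : (1 : ℝ) ≤ 2 ^ j := one_le_pow₀ (by norm_num)
      have h3 : ∑ I ∈ S.filter fun I => 2 ^ j * Y ≤ (Ideal.absNorm I : ℝ) ∧
            (Ideal.absNorm I : ℝ) < 2 ^ (j + 1) * Y, ((Ideal.absNorm I : ℝ) ^ 2)⁻¹ ≤
          (C * (2 ^ (j + 1) * Y)) * ((2 ^ j * Y) ^ 2)⁻¹ := by
        have e1 : ∀ I ∈ S.filter fun I => 2 ^ j * Y ≤ (Ideal.absNorm I : ℝ) ∧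
            (Ideal.absNorm I : ℝ) < 2 ^ (j + 1) * Y,
            ((Ideal.absNorm I : ℝ) ^ 2)⁻¹ ≤ ((2 ^ j * Y) ^ 2)⁻¹ := by
          intro I hI
          rw [mem_filter] at hI
          have : 0 < 2 ^ j * Y := by positivity
          exact inv_anti₀ (by positivity) (pow_le_pow_left₀ this.le hI.2.1 2)
        refine (sum_le_card_nsmul _ _ _ e1).trans ?_
        rw [nsmul_eq_mul]
        refine mul_le_mul_of_nonneg_right ?_ (by positivity)
        refine h _ ?_ _ fun I hI => ?_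
        · rw [pow_succ]
          nlinarith
        · rw [mem_filter] at hI
          exact hI.2.2.le
      have h4 : (C * (2 ^ (j + 1) * Y)) * ((2 ^ j * Y) ^ 2)⁻¹ = 4 * C / Y * (2 ^ (j + 1))⁻¹ := by
        rw [pow_succ]
        field_simp
        ring
      have h5 : ((2 : ℝ) ^ j)⁻¹ = 2 * (2 ^ (j + 1))⁻¹ := by
        rw [pow_succ]
        field_simp
      rw [h4] at h3
      rw [h5] at ih
      linarith
  obtain ⟨j, hj⟩ : ∃ j : ℕ, ∀ I ∈ S, (Ideal.absNorm I : ℝ) < 2 ^ j * Y := by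
    obtain ⟨j, hj⟩ := pow_unbounded_of_one_lt (∑ I ∈ S, (Ideal.absNorm I : ℝ))
      (show (1 : ℝ) < 2 by norm_num)
    refine ⟨j, fun I hI => ?_⟩
    have h1 : (Ideal.absNorm I : ℝ) ≤ ∑ I ∈ S, (Ideal.absNorm I : ℝ) :=
      single_le_sum (f := fun I : Ideal (𝓞 K) => (Ideal.absNorm I : ℝ))
        (fun _ _ => Nat.cast_nonneg _) hI
    have h2 : (2 : ℝ) ^ j * 1 ≤ 2 ^ j * Y := mul_le_mul_of_nonneg_left hY (by positivity)
    linarith
  have h1 := ind j
  rw [filter_true_of_mem hj] at h1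
  refine h1.trans ?_
  have h2 : 0 ≤ 4 * C / Y := by positivity
  have h3 : (0 : ℝ) ≤ (2 ^ j)⁻¹ := by positivity
  nlinarith

end Pool.Agent.H433.AC
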