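import Pool.Agent.H433.AC.Box

/-!
Counting vectors with special differences.
-/

set_option autoImplicit false

open NumberField IsDedekindDomain Finset

namespace Pool.Agent.H433.AC

variable {K : Type} [Field K] [NumberField K]

theorem box_shift (K : Type) [Field K] [NumberField K] : ∃ A : ℕ, 1 ≤ A ∧ ∀ H : ℕ,
    ∀ x ∈ box K H, ∀ t ∈ Icc (-(H : ℤ)) H, x - (t : 𝓞 K) ∈ box K (A * H) := by
  set b := RingOfIntegers.basis K with hb
  refine ⟨1 + ∑ i, (b.repr 1 i).natAbs, by omega, ?_⟩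
  intro H x hx t ht
  rw [mem_box] at hx ⊢
  intro i
  have h1 : (t : 𝓞 K) = t • (1 : 𝓞 K) := by rw [zsmul_eq_mul, mul_one]
  have h2 : (RingOfIntegers.basis K).repr (x - (t : 𝓞 K)) i =
      (RingOfIntegers.basis K).repr x i - t * (RingOfIntegers.basis K).repr 1 i := by
    rw [map_sub, h1, map_smul]
    simp
  rw [h2]
  rw [mem_Icc] at ht
  have h3 : |t| ≤ H := abs_le.2 ht
  have h4 : |(RingOfIntegers.basis K).repr (1 : 𝓞 K) i| ≤ ∑ i, ((b.repr 1 i).natAbs : ℤ) := by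
    have h5 : ((b.repr 1 i).natAbs : ℤ) ≤ ∑ i, ((b.repr 1 i).natAbs : ℤ) :=
      single_le_sum (f := fun i => ((b.repr 1 i).natAbs : ℤ)) (fun _ _ => by positivity)
        (mem_univ i)
    rw [Int.natCast_natAbs] at h5
    exact h5
  refine (abs_sub _ _).trans ?_
  rw [abs_mul]
  have h6 := mul_le_mul h3 h4 (abs_nonneg _) (Nat.cast_nonneg H)
  have h7 := hx i
  have h8 : (((1 + ∑ i, (b.repr 1 i).natAbs) * H : ℕ) : ℤ) =
      H + H * ∑ i, ((b.repr 1 i).natAbs : ℤ) := by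
    rw [Nat.cast_mul, Nat.cast_add, Nat.cast_sum]
    push_cast
    ring
  rw [h8]
  exact add_le_add h7 h6

/-- few translates have a small conjugate -/
theorem small_conj (a : 𝓞 K) (R : ℝ)
    (Z : Finset ℤ) (hZ : ∀ t ∈ Z, ∃ σ : K →+* ℂ, ‖σ ((a + (t : 𝓞 K) : 𝓞 K) : K)‖ ≤ R)
    (hR : 0 ≤ R) : (Z.card : ℝ) ≤ Module.finrank ℚ K * (2 * R + 1) := by
  classical
  have h1 : Z ⊆ (univ : Finset (K →+* ℂ)).biUnion fun σ =>
      Z.filter fun t : ℤ => ‖σ ((a + (t : 𝓞 K) : 𝓞 K) : K)‖ ≤ R := by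
    intro t ht
    obtain ⟨σ, hσ⟩ := hZ t ht
    rw [mem_biUnion]
    exact ⟨σ, mem_univ _, mem_filter.2 ⟨ht, hσ⟩⟩
  have h2 : ∀ σ ∈ (univ : Finset (K →+* ℂ)),
      ((Z.filter fun t : ℤ => ‖σ ((a + (t : 𝓞 K) : 𝓞 K) : K)‖ ≤ R).card : ℝ) ≤ 2 * R + 1 := by
    intro σ _
    set x : ℝ := (σ (a : K)).re with hx
    have h3 : (Z.filter fun t : ℤ => ‖σ ((a + (t : 𝓞 K) : 𝓞 K) : K)‖ ≤ R) ⊆
        Icc ⌈-x - R⌉ ⌊-x + R⌋ := by
      intro t ht
      rw [mem_filter] at ht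
      have h4 : |x + t| ≤ R := by
        refine le_trans ?_ ht.2
        have h5 : x + t = (σ ((a + (t : 𝓞 K) : 𝓞 K) : K)).re := by
          simp [hx]
        rw [h5]
        exact Complex.abs_re_le_norm _
      rw [abs_le] at h4
      rw [mem_Icc, Int.ceil_le, Int.le_floor]
      constructor <;> linarith [h4.1, h4.2]
    have h4 : ((Z.filter fun t : ℤ => ‖σ ((a + (t : 𝓞 K) : 𝓞 K) : K)‖ ≤ R).card : ℝ) ≤
        ((Icc ⌈-x - R⌉ ⌊-x + R⌋).card : ℝ) := by exact_mod_cast card_le_card h3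
    refine h4.trans ?_
    rw [Int.card_Icc]
    have h5 := Int.floor_le (-x + R)
    have h6 := Int.le_ceil (-x - R)
    rcases le_or_gt 0 (⌊-x + R⌋ + 1 - ⌈-x - R⌉) with h7 | h7
    · have h8 : ((⌊-x + R⌋ + 1 - ⌈-x - R⌉).toNat : ℝ) = ((⌊-x + R⌋ + 1 - ⌈-x - R⌉ : ℤ) : ℝ) := by
        have := Int.toNat_of_nonneg h7
        exact_mod_cast congrArg (Int.cast : ℤ → ℝ) this
      rw [h8]
      push_cast
      linarith
    · rw [Int.toNat_of_nonpos h7.le]
      push_cast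
      linarith
  have h3 : (Z.card : ℝ) ≤ ∑ σ : K →+* ℂ,
      ((Z.filter fun t : ℤ => ‖σ ((a + (t : 𝓞 K) : 𝓞 K) : K)‖ ≤ R).card : ℝ) := by
    exact_mod_cast (card_le_card h1).trans card_biUnion_le
  refine h3.trans ((sum_le_card_nsmul _ _ _ h2).trans ?_)
  rw [card_univ, Embeddings.card, nsmul_eq_mul]

/-- few elements of a box have a small conjugate -/
theorem small_count (K : Type) [Field K] [NumberField K] : ∃ C : ℝ, 1 ≤ C ∧ ∀ H : ℕ, 1 ≤ H →
    ∀ R : ℝ, 1 ≤ R → ∀ S : Finset (𝓞 K), (∀ x ∈ S, x ∈ box K H ∧ ∃ σ : K →+* ℂ, ‖σ (x : K)‖ ≤ R) →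
      (S.card : ℝ) ≤ C * (H : ℝ) ^ Module.finrank ℚ K * (R / H) := by
  classical
  obtain ⟨A, hA1, hA⟩ := box_shift K
  set d := Module.finrank ℚ K with hd
  have hd1 : 1 ≤ d := Module.finrank_pos
  have hdR : (1 : ℝ) ≤ d := by exact_mod_cast hd1
  have hAR : (1 : ℝ) ≤ A := by exact_mod_cast hA1
  have h3A : (1 : ℝ) ≤ (3 * A) ^ d := one_le_pow₀ (by linarith)
  refine ⟨(3 * A) ^ d * (d * 3), by nlinarith, fun H hH R hR S hS => ?_⟩
  have hHR : (1 : ℝ) ≤ H := by exact_mod_cast hH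
  set T := Icc (-(H : ℤ)) H with hT
  -- pairs `(x - t, t)`
  set G := (S ×ˢ T).image fun y => (y.1 - (y.2 : 𝓞 K), y.2) with hG
  have hGc : G.card = S.card * T.card := by
    rw [hG, card_image_of_injective, card_product]
    rintro ⟨x, t⟩ ⟨y, u⟩ h
    simp only [Prod.mk.injEq] at h
    obtain ⟨h1, h2⟩ := h
    subst h2
    rw [Prod.mk.injEq]
    exact ⟨sub_left_injective h1, rfl⟩
  have hGs : G ⊆ (box K (A * H)).biUnion fun y => (T.filter fun t : ℤ =>
      ∃ σ : K →+* ℂ, ‖σ ((y + (t : 𝓞 K) : 𝓞 K) : K)‖ ≤ R).image fun t => (y, t) := by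
    intro y hy
    rw [hG, mem_image] at hy
    obtain ⟨⟨x, t⟩, hxt, rfl⟩ := hy
    rw [mem_product] at hxt
    obtain ⟨h1, h2⟩ := hS x hxt.1
    rw [mem_biUnion]
    refine ⟨x - (t : 𝓞 K), hA H x h1 t hxt.2, ?_⟩
    rw [mem_image]
    refine ⟨t, ?_, rfl⟩
    rw [mem_filter]
    refine ⟨hxt.2, ?_⟩
    rw [sub_add_cancel]
    exact h2
  have h1 : (G.card : ℝ) ≤ (box K (A * H)).card * (d * (2 * R + 1)) := by
    have h2 : G.card ≤ ∑ y ∈ box K (A * H), (T.filter fun t : ℤ =>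
      ∃ σ : K →+* ℂ, ‖σ ((y + (t : 𝓞 K) : 𝓞 K) : K)‖ ≤ R).card :=
      (card_le_card hGs).trans (card_biUnion_le.trans (sum_le_sum fun y _ => card_image_le))
    have h3 : (G.card : ℝ) ≤ ∑ y ∈ box K (A * H), ((T.filter fun t : ℤ =>
      ∃ σ : K →+* ℂ, ‖σ ((y + (t : 𝓞 K) : 𝓞 K) : K)‖ ≤ R).card : ℝ) := by exact_mod_cast h2
    refine h3.trans ((sum_le_card_nsmul _ _ _ fun y _ => small_conj y R _ (fun t ht => ?_)
      (by linarith)).trans (le_of_eq ?_))
    · rw [mem_filter] at ht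
      exact ht.2
    · rw [nsmul_eq_mul]
  rw [hGc, card_box, hT, Int.card_Icc] at h1
  have h2 : ((((H : ℤ) + 1 - -(H : ℤ)).toNat : ℕ) : ℝ) = 2 * H + 1 := by
    have : ((H : ℤ) + 1 - -(H : ℤ)).toNat = 2 * H + 1 := by omega
    rw [this]
    push_cast
    ring
  push_cast at h1
  rw [show ((((H : ℤ) + 1 - -(H : ℤ)).toNat : ℕ) : ℝ) = 2 * H + 1 from h2] at h1
  have h3 : (2 * ((A : ℝ) * H) + 1) ^ d ≤ (3 * A) ^ d * (H : ℝ) ^ d := by
    rw [← mul_pow]
    refine pow_le_pow_left₀ (by positivity) ?_ _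
    nlinarith
  have h4 : (d : ℝ) * (2 * R + 1) ≤ d * 3 * R := by nlinarith
  have h5 : (S.card : ℝ) * (2 * H + 1) ≤ (3 * A) ^ d * (H : ℝ) ^ d * (d * 3 * R) :=
    h1.trans (mul_le_mul h3 h4 (by positivity) (by positivity))
  have h6 : (S.card : ℝ) * H ≤ (3 * A) ^ d * (H : ℝ) ^ d * (d * 3 * R) := by
    refine le_trans ?_ h5
    refine mul_le_mul_of_nonneg_left ?_ (Nat.cast_nonneg _)
    linarith
  have hH0 : (0 : ℝ) < H := by linarith
  rw [← le_div_iff₀ hH0] at h6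
  refine h6.trans (le_of_eq ?_)
  ring

/-- few elements of a box are divisible by a large square -/
theorem sq_count (K : Type) [Field K] [NumberField K] : ∃ C : ℝ, 1 ≤ C ∧ ∀ H : ℕ, 1 ≤ H →
    ∀ Y : ℝ, 1 ≤ Y → ∀ S : Finset (𝓞 K), (∀ x ∈ S, x ∈ box K H ∧ x ≠ 0 ∧
      ∃ I : Ideal (𝓞 K), Y ≤ Ideal.absNorm I ∧ x ∈ I ^ 2) →
      (S.card : ℝ) ≤ C * (H : ℝ) ^ Module.finrank ℚ K / Y := by
  classical
  obtain ⟨C₁, hC₁, h1⟩ := card_ideal K
  obtain ⟨C₂, hC₂, h2⟩ := sum_ideals K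
  refine ⟨C₁ * C₂, by nlinarith, fun H hH Y hY S hS => ?_⟩
  have hH0 : (0 : ℝ) < H := by exact_mod_cast hH
  have hY0 : 0 < Y := by linarith
  have hS' : ∀ x : 𝓞 K, ∃ I : Ideal (𝓞 K), x ∈ S → Y ≤ Ideal.absNorm I ∧ x ∈ I ^ 2 := by
    intro x
    by_cases hx : x ∈ S
    · obtain ⟨-, -, I, hI⟩ := hS x hx
      exact ⟨I, fun _ => hI⟩
    · exact ⟨⊥, fun h => absurd h hx⟩
  choose c hc using hS'
  have h3 : S ⊆ (S.image c).biUnion fun I => S.filter fun x => c x = I := by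
    intro x hx
    rw [mem_biUnion]
    exact ⟨c x, mem_image_of_mem _ hx, mem_filter.2 ⟨hx, rfl⟩⟩
  have hI : ∀ I ∈ S.image c, Y ≤ Ideal.absNorm I := by
    intro I hI
    rw [mem_image] at hI
    obtain ⟨x, hx, rfl⟩ := hI
    exact (hc x hx).1
  have h4 : (S.card : ℝ) ≤ ∑ I ∈ S.image c, ((S.filter fun x => c x = I).card : ℝ) := by
    exact_mod_cast (card_le_card h3).trans card_biUnion_le
  refine h4.trans ?_
  have h5 : ∀ I ∈ S.image c, ((S.filter fun x => c x = I).card : ℝ) ≤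
      C₁ * (H : ℝ) ^ Module.finrank ℚ K * ((Ideal.absNorm I : ℝ) ^ 2)⁻¹ := by
    intro I hI'
    have hI1 := hI I hI'
    have hI0 : I ≠ ⊥ := by
      rintro rfl
      rw [Ideal.absNorm_bot] at hI1
      push_cast at hI1
      linarith
    refine (h1 H hH (I ^ 2) (pow_ne_zero 2 hI0) _ fun x hx => ?_).trans (le_of_eq ?_)
    · rw [mem_filter] at hx
      obtain ⟨h6, h7, -⟩ := hS x hx.1
      have h8 := (hc x hx.1).2
      rw [hx.2] at h8
      exact ⟨h6, h7, h8⟩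
    · rw [map_pow]
      push_cast
      rw [div_eq_mul_inv]
  refine (sum_le_sum h5).trans ?_
  rw [← mul_sum]
  refine (mul_le_mul_of_nonneg_left (h2 Y hY _ hI) (by positivity)).trans (le_of_eq ?_)
  ring

/-- few pairs of elements of a box have a large common divisor -/
theorem gcd_count (K : Type) [Field K] [NumberField K] : ∃ C : ℝ, 1 ≤ C ∧ ∀ H : ℕ, 1 ≤ H →
    ∀ Y : ℝ, 1 ≤ Y → ∀ S : Finset (𝓞 K × 𝓞 K), (∀ x ∈ S, (x.1 ∈ box K H ∧ x.1 ≠ 0) ∧
      (x.2 ∈ box K H ∧ x.2 ≠ 0) ∧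
      ∃ I : Ideal (𝓞 K), Y ≤ Ideal.absNorm I ∧ x.1 ∈ I ∧ x.2 ∈ I) →
      (S.card : ℝ) ≤ C * ((H : ℝ) ^ Module.finrank ℚ K) ^ 2 / Y := by
  classical
  obtain ⟨C₁, hC₁, h1⟩ := card_ideal K
  obtain ⟨C₂, hC₂, h2⟩ := sum_ideals K
  refine ⟨C₁ ^ 2 * C₂, by nlinarith [sq_nonneg (C₁ - 1)], fun H hH Y hY S hS => ?_⟩
  have hH0 : (0 : ℝ) < H := by exact_mod_cast hH
  have hY0 : 0 < Y := by linarith
  have hS' : ∀ x : 𝓞 K × 𝓞 K, ∃ I : Ideal (𝓞 K), x ∈ S →
      Y ≤ Ideal.absNorm I ∧ x.1 ∈ I ∧ x.2 ∈ I := by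
    intro x
    by_cases hx : x ∈ S
    · obtain ⟨-, -, I, hI⟩ := hS x hx
      exact ⟨I, fun _ => hI⟩
    · exact ⟨⊥, fun h => absurd h hx⟩
  choose c hc using hS'
  have h3 : S ⊆ (S.image c).biUnion fun I =>
      ((S.filter fun x => c x = I).image Prod.fst) ×ˢ ((S.filter fun x => c x = I).image Prod.snd)
      := by
    intro x hx
    rw [mem_biUnion]
    refine ⟨c x, mem_image_of_mem _ hx, ?_⟩
    rw [mem_product]
    exact ⟨mem_image_of_mem _ (mem_filter.2 ⟨hx, rfl⟩), mem_image_of_mem _ (mem_filter.2 ⟨hx, rfl⟩)⟩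
  have hI : ∀ I ∈ S.image c, Y ≤ Ideal.absNorm I := by
    intro I hI
    rw [mem_image] at hI
    obtain ⟨x, hx, rfl⟩ := hI
    exact (hc x hx).1
  have h4 : (S.card : ℝ) ≤ ∑ I ∈ S.image c,
      ((((S.filter fun x => c x = I).image Prod.fst).card : ℝ) *
        (((S.filter fun x => c x = I).image Prod.snd).card : ℝ)) := by
    have := (card_le_card h3).trans card_biUnion_le
    simp only [card_product] at this
    exact_mod_cast this
  refine h4.trans ?_
  have h5 : ∀ I ∈ S.image c, ((((S.filter fun x => c x = I).image Prod.fst).card : ℝ) *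
        (((S.filter fun x => c x = I).image Prod.snd).card : ℝ)) ≤
      C₁ ^ 2 * ((H : ℝ) ^ Module.finrank ℚ K) ^ 2 * ((Ideal.absNorm I : ℝ) ^ 2)⁻¹ := by
    intro I hI'
    have hI1 := hI I hI'
    have hI0 : I ≠ ⊥ := by
      rintro rfl
      rw [Ideal.absNorm_bot] at hI1
      push_cast at hI1
      linarith
    have e1 := h1 H hH I hI0 ((S.filter fun x => c x = I).image Prod.fst) fun x hx => by
      rw [mem_image] at hx
      obtain ⟨y, hy, rfl⟩ := hx
      rw [mem_filter] at hy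
      obtain ⟨h6, -, -⟩ := hS y hy.1
      have h8 := (hc y hy.1).2.1
      rw [hy.2] at h8
      exact ⟨h6.1, h6.2, h8⟩
    have e2 := h1 H hH I hI0 ((S.filter fun x => c x = I).image Prod.snd) fun x hx => by
      rw [mem_image] at hx
      obtain ⟨y, hy, rfl⟩ := hx
      rw [mem_filter] at hy
      obtain ⟨-, h6, -⟩ := hS y hy.1
      have h8 := (hc y hy.1).2.2
      rw [hy.2] at h8
      exact ⟨h6.1, h6.2, h8⟩
    refine (mul_le_mul e1 e2 (Nat.cast_nonneg _) (by positivity)).trans (le_of_eq ?_)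
    ring
  refine (sum_le_sum h5).trans ?_
  rw [← mul_sum]
  refine (mul_le_mul_of_nonneg_left (h2 Y hY _ hI) (by positivity)).trans (le_of_eq ?_)
  ring

section tuples

variable {n : ℕ}

/-- vectors with a given property of one difference -/
theorem tuple1 (B : Finset (𝓞 K)) (T : Finset (𝓞 K)) {i j : Fin n} (hij : i ≠ j)
    (S : Finset (Fin n → 𝓞 K)) (hS : ∀ a ∈ S, (∀ l, a l ∈ B) ∧ a i - a j ∈ T) :
    S.card ≤ B.card ^ (n - 1) * T.card := by
  classical
  set f : (Fin n → 𝓞 K) → (Fin n → 𝓞 K) × 𝓞 K := fun a =>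
    (fun l => if l = i then 0 else a l, a i - a j) with hf
  set P := (Fintype.piFinset fun l : Fin n => if l = i then ({0} : Finset (𝓞 K)) else B) ×ˢ T
    with hP
  have h1 : ∀ a ∈ S, f a ∈ P := by
    intro a ha
    obtain ⟨h1, h2⟩ := hS a ha
    rw [hP, mem_product, Fintype.mem_piFinset]
    refine ⟨fun l => ?_, h2⟩
    show (if l = i then 0 else a l) ∈ (if l = i then ({0} : Finset (𝓞 K)) else B)
    split_ifs
    · exact mem_singleton_self _
    · exact h1 l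
  have h2 : Set.InjOn f S := by
    intro a _ b _ hab
    rw [hf] at hab
    simp only [Prod.mk.injEq] at hab
    obtain ⟨h3, h4⟩ := hab
    have h5 : ∀ l, l ≠ i → a l = b l := by
      intro l hl
      have := congrFun h3 l
      rw [if_neg hl, if_neg hl] at this
      exact this
    funext l
    by_cases hl : l = i
    · rw [hl]
      rw [h5 j hij.symm] at h4
      exact sub_left_injective h4
    · exact h5 l hl
  have h3 := card_le_card_of_injOn f h1 h2
  refine h3.trans (le_of_eq ?_)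
  rw [hP, card_product, Fintype.card_piFinset]
  congr 1
  have h4 : ∀ l : Fin n, (if l = i then ({0} : Finset (𝓞 K)) else B).card =
      if l = i then 1 else B.card := by
    intro l
    split_ifs
    · exact card_singleton _
    · rfl
  simp only [h4]
  rw [prod_ite, prod_const_one, one_mul, prod_const]
  congr 1
  rw [filter_ne', card_erase_of_mem (mem_univ _), card_univ, Fintype.card_fin]

/-- vectors with a given property of two differences -/
theorem tuple2 (B : Finset (𝓞 K)) (T : Finset (𝓞 K × 𝓞 K)) {s s' t t' : Fin n} (h1 : s ≠ s')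
    (h2 : t ≠ t') (h3 : s ≠ t) (h4 : s ≠ t') (h5 : t ≠ s')
    (S : Finset (Fin n → 𝓞 K)) (hS : ∀ a ∈ S, (∀ l, a l ∈ B) ∧ (a s - a s', a t - a t') ∈ T) :
    S.card ≤ B.card ^ (n - 2) * T.card := by
  classical
  set f : (Fin n → 𝓞 K) → (Fin n → 𝓞 K) × (𝓞 K × 𝓞 K) := fun a =>
    (fun l => if l = s ∨ l = t then 0 else a l, (a s - a s', a t - a t')) with hf
  set P := (Fintype.piFinset fun l : Fin n => if l = s ∨ l = t then ({0} : Finset (𝓞 K)) else B)
    ×ˢ T with hP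
  have e1 : ∀ a ∈ S, f a ∈ P := by
    intro a ha
    obtain ⟨g1, g2⟩ := hS a ha
    rw [hP, mem_product, Fintype.mem_piFinset]
    refine ⟨fun l => ?_, g2⟩
    show (if l = s ∨ l = t then 0 else a l) ∈ (if l = s ∨ l = t then ({0} : Finset (𝓞 K)) else B)
    split_ifs
    · exact mem_singleton_self _
    · exact g1 l
  have e2 : Set.InjOn f S := by
    intro a _ b _ hab
    rw [hf] at hab
    simp only [Prod.mk.injEq] at hab
    obtain ⟨g3, g4, g6⟩ := hab
    have g5 : ∀ l, ¬ (l = s ∨ l = t) → a l = b l := by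
      intro l hl
      have := congrFun g3 l
      rw [if_neg hl, if_neg hl] at this
      exact this
    funext l
    by_cases hl : l = s
    · rw [hl]
      rw [g5 s' (by
        rintro (h | h)
        · exact h1 h.symm
        · exact h5 h.symm)] at g4
      exact sub_left_injective g4
    · by_cases hl' : l = t
      · rw [hl']
        rw [g5 t' (by
          rintro (h | h)
          · exact h4 h.symm
          · exact h2 h.symm)] at g6
        exact sub_left_injective g6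
      · exact g5 l (by
          rintro (h | h)
          · exact hl h
          · exact hl' h)
  have e3 := card_le_card_of_injOn f e1 e2
  refine e3.trans (le_of_eq ?_)
  rw [hP, card_product, Fintype.card_piFinset]
  congr 1
  have e4 : ∀ l : Fin n, (if l = s ∨ l = t then ({0} : Finset (𝓞 K)) else B).card =
      if l = s ∨ l = t then 1 else B.card := by
    intro l
    split_ifs
    · exact card_singleton _
    · rfl
  simp only [e4]
  rw [prod_ite, prod_const_one, one_mul, prod_const]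
  congr 1
  have e5 : (univ.filter fun l : Fin n => ¬ (l = s ∨ l = t)) = (univ.erase s).erase t := by
    ext l
    simp only [mem_filter, mem_univ, true_and, mem_erase, not_or, and_true]
    tauto
  rw [e5, card_erase_of_mem (mem_erase.2 ⟨h3.symm, mem_univ _⟩), card_erase_of_mem (mem_univ _),
    card_univ, Fintype.card_fin]
  omega

/-- the exceptional vectors -/
def Exceptional (Y R : ℝ) (a : Fin n → 𝓞 K) : Prop :=
  (∃ p ∈ prs n, ∃ σ : K →+* ℂ, ‖σ ((a p.1 - a p.2 : 𝓞 K) : K)‖ ≤ R) ∨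
  (∃ p ∈ prs n, ∃ I : Ideal (𝓞 K), Y ≤ Ideal.absNorm I ∧ a p.1 - a p.2 ∈ I ^ 2) ∨
  ∃ p ∈ prs n, ∃ q ∈ prs n, p ≠ q ∧
    ∃ I : Ideal (𝓞 K), Y ≤ Ideal.absNorm I ∧ a p.1 - a p.2 ∈ I ∧ a q.1 - a q.2 ∈ I

theorem exceptional_ne {Y R : ℝ} (hR : 0 ≤ R) {a : Fin n → 𝓞 K} (h : ¬ Exceptional Y R a)
    {p : Fin n × Fin n} (hp : p ∈ prs n) : a p.1 - a p.2 ≠ 0 := by
  intro h0
  apply h
  refine Or.inl ⟨p, hp, Classical.arbitrary _, ?_⟩
  rw [h0]
  simpa using hR

end tuples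

end Pool.Agent.H433.AC
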