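import Pool.Agent.H433.AC.Vol

/-!
The exponents of the height and of the conductor.
-/

set_option autoImplicit false
set_option linter.unusedSectionVars false

open Finset

namespace Pool.Agent.H433.AC

section pairs

variable {n : ℕ} (S : Finset (Fin n))

/-- the pairs in a set -/
def prS : Finset (Fin n × Fin n) := (prs n).filter fun p => p.1 ∈ S ∧ p.2 ∈ S

theorem sum_sym (g : Fin n → Fin n → ℝ) (hg : ∀ i j, g i j = g j i) :
    ∑ i ∈ S, ∑ j ∈ S, g i j = ∑ i ∈ S, g i i + 2 * ∑ p ∈ prS S, g p.1 p.2 := by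
  classical
  have h1 : ∑ p ∈ prS S, g p.1 p.2 = ∑ p ∈ (S ×ˢ S).filter (fun p => p.1 < p.2), g p.1 p.2 := by
    refine sum_congr ?_ fun _ _ => rfl
    ext p
    unfold prS prs
    simp only [mem_filter, mem_univ, true_and, mem_product]
    tauto
  have h2 : ∑ p ∈ (S ×ˢ S).filter (fun p => p.2 < p.1), g p.1 p.2 =
      ∑ p ∈ (S ×ˢ S).filter (fun p => p.1 < p.2), g p.1 p.2 := by
    refine sum_bij' (fun p _ => p.swap) (fun p _ => p.swap) ?_ ?_ ?_ ?_ ?_
    · intro p hp
      simp only [mem_filter, mem_product, Prod.fst_swap, Prod.snd_swap] at hp ⊢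
      tauto
    · intro p hp
      simp only [mem_filter, mem_product, Prod.fst_swap, Prod.snd_swap] at hp ⊢
      tauto
    · intro p _
      exact Prod.swap_swap p
    · intro p _
      exact Prod.swap_swap p
    · intro p _
      exact hg _ _
  have h3 : ∑ p ∈ (S ×ˢ S).filter (fun p => p.1 = p.2), g p.1 p.2 = ∑ i ∈ S, g i i := by
    symm
    refine sum_bij (fun i _ => (i, i)) ?_ ?_ ?_ ?_
    · intro i hi
      simp only [mem_filter, mem_product]
      exact ⟨⟨hi, hi⟩, trivial⟩
    · intro i _ j _ h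
      exact (Prod.mk.inj h).1
    · rintro ⟨i, j⟩ h
      simp only [mem_filter, mem_product] at h
      exact ⟨i, h.1.1, by rw [h.2]⟩
    · intro _ _
      rfl
  have h4 : ∑ i ∈ S, ∑ j ∈ S, g i j = ∑ p ∈ S ×ˢ S, g p.1 p.2 := by
    rw [sum_product]
  have h5 : ∑ p ∈ S ×ˢ S, g p.1 p.2 = ∑ p ∈ (S ×ˢ S).filter (fun p => p.1 = p.2), g p.1 p.2 +
      (∑ p ∈ (S ×ˢ S).filter (fun p => p.1 < p.2), g p.1 p.2 +
      ∑ p ∈ (S ×ˢ S).filter (fun p => p.2 < p.1), g p.1 p.2) := by
    rw [← sum_filter_add_sum_filter_not (S ×ˢ S) (fun p => p.1 = p.2)]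
    congr 1
    rw [← sum_filter_add_sum_filter_not ((S ×ˢ S).filter (fun p => ¬ p.1 = p.2))
      (fun p => p.1 < p.2)]
    congr 1
    · refine sum_congr ?_ fun _ _ => rfl
      ext p
      simp only [mem_filter, mem_product]
      constructor
      · rintro ⟨⟨h1, _⟩, h3⟩
        exact ⟨h1, h3⟩
      · rintro ⟨h1, h3⟩
        exact ⟨⟨h1, h3.ne⟩, h3⟩
    · refine sum_congr ?_ fun _ _ => rfl
      ext p
      simp only [mem_filter, mem_product]
      constructor
      · rintro ⟨⟨h1, h2⟩, h3⟩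
        exact ⟨h1, lt_of_le_of_ne (not_lt.1 h3) (Ne.symm h2)⟩
      · rintro ⟨h1, h3⟩
        exact ⟨⟨h1, h3.ne'⟩, h3.le.not_gt⟩
  rw [h4, h5, h2, h3, h1]
  ring

theorem card_prS : ((prS S).card : ℝ) = S.card * (S.card - 1) / 2 := by
  have h := sum_sym S (fun _ _ => 1) fun _ _ => rfl
  simp only [sum_const, nsmul_eq_mul, mul_one] at h
  linarith

theorem card_prS' : (prS S).card = S.card.choose 2 := by
  have h1 := card_prS S
  have h2 : ((S.card.choose 2 : ℕ) : ℝ) = S.card * (S.card - 1) / 2 := Nat.cast_choose_two ℝ _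
  rw [← h2] at h1
  exact_mod_cast h1

theorem sum_prS (f : Fin n → ℝ) :
    ∑ p ∈ prS S, (f p.1 + f p.2) = (S.card - 1) * ∑ i ∈ S, f i := by
  have h := sum_sym S (fun i j => f i + f j) fun _ _ => add_comm _ _
  simp only [sum_add_distrib, sum_const, nsmul_eq_mul] at h
  rw [← mul_sum] at h
  rw [sum_add_distrib]
  linarith

theorem sum_sq_prS (f : Fin n → ℝ) :
    ∑ p ∈ prS S, (f p.1 + f p.2) ^ 2 =
      (S.card - 2) * ∑ i ∈ S, f i ^ 2 + (∑ i ∈ S, f i) ^ 2 := by
  have h := sum_sym S (fun i j => (f i + f j) ^ 2) fun _ _ => by rw [add_comm]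
  have h1 : ∑ i ∈ S, ∑ j ∈ S, (f i + f j) ^ 2 =
      2 * S.card * ∑ i ∈ S, f i ^ 2 + 2 * (∑ i ∈ S, f i) ^ 2 := by
    have e1 : ∀ i ∈ S, ∑ j ∈ S, (f i + f j) ^ 2 =
        S.card * f i ^ 2 + 2 * f i * (∑ j ∈ S, f j) + ∑ j ∈ S, f j ^ 2 := by
      intro i _
      rw [mul_sum]
      have : (S.card : ℝ) * f i ^ 2 = ∑ _j ∈ S, f i ^ 2 := by
        rw [sum_const, nsmul_eq_mul]
      rw [this, ← sum_add_distrib, ← sum_add_distrib]
      refine sum_congr rfl fun j _ => ?_
      ring
    rw [sum_congr rfl e1, sum_add_distrib, sum_add_distrib, ← mul_sum, ← sum_mul, ← mul_sum,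
      sum_const, nsmul_eq_mul]
    ring
  have h2 : ∑ i ∈ S, (f i + f i) ^ 2 = 4 * ∑ i ∈ S, f i ^ 2 := by
    rw [mul_sum]
    refine sum_congr rfl fun i _ => ?_
    ring
  rw [h1, h2] at h
  linarith

end pairs

section slope

variable {m n : ℕ} [NeZero m] (k : Fin n → ZMod m)

/-- the finite branch points -/
def spt : Finset (Fin n) := univ.filter fun i => k i ≠ 0

theorem card_spt : (spt k).card = nb k := rfl

theorem df_nonneg (p : Fin n × Fin n) : 0 ≤ df k p := le_max_left _ _

theorem muf_lt (i : Fin n) : muf k i < 1 := mu_lt k i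

theorem muf_nonneg (i : Fin n) : 0 ≤ muf k i := mu_nonneg k i

theorem df_eq (p : Fin n × Fin n) : df k p = max 0 (muf k p.1 + muf k p.2 - 1) := by
  unfold df muf
  rw [add_div]

theorem sum_spt : ∑ i ∈ spt k, muf k i = wt k / m := by
  rw [← sum_muf]
  refine sum_subset (subset_univ _) fun i _ hi => ?_
  unfold spt at hi
  rw [mem_filter] at hi
  push Not at hi
  unfold muf
  rw [hi (mem_univ _), ZMod.val_zero]
  simp

theorem sum_df_ge : ∑ p ∈ prS (spt k), df k p ≤ ∑ p ∈ prs n, df k p :=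
  sum_le_sum_of_subset_of_nonneg (filter_subset _ _) fun p _ _ => df_nonneg k p

theorem sum_df_lin : ((nb k : ℝ) - 1) * (wt k / m) - nb k * (nb k - 1) / 2 ≤
    ∑ p ∈ prs n, df k p := by
  refine le_trans ?_ (sum_df_ge k)
  have h1 := sum_prS (spt k) (muf k)
  rw [sum_spt, card_spt] at h1
  have h2 := card_prS (spt k)
  rw [card_spt] at h2
  have h3 : ∑ p ∈ prS (spt k), (muf k p.1 + muf k p.2 - 1) ≤ ∑ p ∈ prS (spt k), df k p := by
    refine sum_le_sum fun p _ => ?_
    rw [df_eq]
    exact le_max_right _ _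
  rw [sum_sub_distrib, h1, sum_const, nsmul_eq_mul, h2] at h3
  linarith

/-- the exponent of the height is at most a quarter of the number of pairs -/
theorem hx_le (hN : 2 ≤ nb k) : hx k ≤ (nb k * (nb k - 1) / 2 : ℝ) / 4 := by
  set N : ℝ := ((nb k : ℕ) : ℝ) with hNd
  have hN2 : (2 : ℝ) ≤ N := by
    rw [hNd]
    exact_mod_cast hN
  set s : ℝ := wt k / m with hs
  set x : Fin n → ℝ := fun i => muf k i - 1 / 2 with hx'
  set X := ∑ i ∈ spt k, x i with hX
  have hXs : X = s - N / 2 := by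
    rw [hX, hx']
    simp only
    rw [sum_sub_distrib, sum_spt, sum_const, nsmul_eq_mul, card_spt]
    ring
  have h1 : ∑ p ∈ prS (spt k), ((x p.1 + x p.2) ^ 2 + (x p.1 + x p.2)) / 2 ≤
      ∑ p ∈ prs n, df k p := by
    refine le_trans (sum_le_sum fun p hp => ?_) (sum_df_ge k)
    rw [df_eq]
    have e1 := muf_nonneg k p.1
    have e2 := muf_nonneg k p.2
    have e3 := muf_lt k p.1
    have e4 := muf_lt k p.2
    have e5 : x p.1 + x p.2 = muf k p.1 + muf k p.2 - 1 := by
      rw [hx']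
      ring
    rw [e5]
    set y := muf k p.1 + muf k p.2 - 1 with hy
    rcases le_total y 0 with h | h
    · rw [max_eq_left h]
      nlinarith
    · rw [max_eq_right h]
      nlinarith
  have h2 := sum_sq_prS (spt k) x
  have h3 := sum_prS (spt k) x
  rw [card_spt] at h2 h3
  have h4 : ∑ p ∈ prS (spt k), ((x p.1 + x p.2) ^ 2 + (x p.1 + x p.2)) / 2 =
      ((N - 2) * ∑ i ∈ spt k, x i ^ 2 + X ^ 2 + (N - 1) * X) / 2 := by
    rw [← sum_div, sum_add_distrib, h2, h3]
  rw [h4] at h1
  have h5 : 0 ≤ (N - 2) * ∑ i ∈ spt k, x i ^ 2 :=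
    mul_nonneg (by linarith) (sum_nonneg fun i _ => sq_nonneg _)
  unfold hx
  rw [← hs]
  have h6 : (dm k : ℝ) * s - dm k * (dm k + 1) / 2 ≤ (s - 1 / 2) ^ 2 / 2 := by
    nlinarith [sq_nonneg ((dm k : ℝ) - (s - 1 / 2))]
  have h7 : s = X + N / 2 := by linarith
  rw [h7] at h6 ⊢
  nlinarith

theorem hx_le_zero (h : rk k ≤ 1) : hx k ≤ 0 := by
  have hm : 0 < m := Nat.pos_of_ne_zero (NeZero.ne m)
  have hmR : (0 : ℝ) < m := by exact_mod_cast hm
  have h0 : 0 ≤ ∑ p ∈ prs n, df k p := sum_nonneg fun p _ => df_nonneg k p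
  rcases Nat.eq_zero_or_pos (dm k) with hd | hd
  · unfold hx
    rw [hd]
    push_cast
    linarith
  have hds := dm_lt k hd.ne'
  have hlin := sum_df_lin k
  -- the sum is smaller than the number of points
  have hsN : (wt k / m : ℝ) < nb k := by
    rw [← sum_spt, ← card_spt, ← nsmul_one, ← sum_const]
    have hne : (spt k).Nonempty := by
      rw [nonempty_iff_ne_empty]
      intro he
      have := sum_spt k
      rw [he, sum_empty] at this
      rw [← this] at hds
      have : (0 : ℝ) ≤ dm k := Nat.cast_nonneg _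
      linarith
    exact sum_lt_sum_of_nonempty hne fun i _ => muf_lt k i
  have hdN : dm k < nb k := by
    have := hds.trans hsN
    exact_mod_cast this
  have hrk : nb k + (if m ∣ wt k then 0 else 1) ≤ 3 := by
    unfold rk at h
    omega
  have hN : nb k = 2 ∨ nb k = 3 := by
    split_ifs at hrk <;> omega
  unfold hx
  rcases hN with hN | hN
  · have hd1 : dm k = 1 := by omega
    rw [hN] at hlin
    rw [hd1]
    push_cast at hlin ⊢
    linarith
  · rw [hN] at hrk
    have hdiv : m ∣ wt k := by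
      by_contra hcon
      rw [if_neg hcon] at hrk
      omega
    obtain ⟨w, hw⟩ := hdiv
    have hw2 : (wt k / m : ℝ) = w := by
      rw [hw]
      push_cast
      field_simp
    rw [hw2] at hds hsN hlin ⊢
    rw [hN] at hsN hlin
    have e1 : dm k < w := by exact_mod_cast hds
    have e2 : w < 3 := by exact_mod_cast hsN
    have e3 : w = 2 := by omega
    have e4 : dm k = 1 := by omega
    rw [e3] at hlin ⊢
    rw [e4]
    push_cast at hlin ⊢
    linarith

/-- the exponent of the height and the exponent of the conductor -/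
theorem hx_le_cx : hx k ≤ 1 / 4 * cx 2 k := by
  unfold cx
  split_ifs with h
  · have hN : 2 ≤ nb k := by
      unfold rk at h
      split_ifs at h <;> omega
    have h1 := hx_le k hN
    rw [Nat.cast_choose_two]
    linarith
  · have := hx_le_zero k (by omega)
    push_cast
    linarith

/-- the number of pairs -/
theorem cx_eq (r : ℕ) : cx r k = ∑ p ∈ prs n, if (k p.1 ≠ 0 ∧ k p.2 ≠ 0) ∧ r ≤ rk k then 1 else 0
    := by
  have h1 : (prS (spt k)).card = (nb k).choose 2 := card_prS' _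
  unfold cx
  split_ifs with h
  · rw [← h1]
    unfold prS spt
    rw [card_filter]
    refine sum_congr rfl fun p _ => ?_
    simp only [mem_filter, mem_univ, true_and, h, and_true]
  · rw [sum_eq_zero]
    intro p _
    rw [if_neg fun hh => h hh.2]

end slope

end Pool.Agent.H433.AC
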