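import Mathlib.RingTheory.DedekindDomain.AdicValuation
import Mathlib.RingTheory.DedekindDomain.Factorization
import Mathlib.NumberTheory.NumberField.CanonicalEmbedding.Basic
import Mathlib.RingTheory.Ideal.Norm.AbsNorm
import Mathlib.LinearAlgebra.Vandermonde
import Mathlib.MeasureTheory.Measure.Lebesgue.Complex
import Mathlib.Analysis.SpecialFunctions.Log.Basic
import Mathlib.Analysis.SpecialFunctions.Pow.NNReal

/-!
Definitions: the height and the conductor of the Jacobians of the abelian covers of the projective
line which are branched over rational points.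

An abelian cover of the projective line over a field is given by a finite set `X` (the characters
of its group), the vectors `k χ = (k_1, ..., k_n)` with values in `ℤ / m`, `χ ∈ X`, the branch
points `a_1, ..., a_n` (and possibly the point at infinity) and numbers `e_χ ≠ 0`. Its function
field is generated over the field of the rational functions by the roots `y_χ`,
`y_χ ^ m = e_χ ∏ (x - a_i) ^ (k_i)`.
-/

set_option autoImplicit false

open NumberField IsDedekindDomain MeasureTheory Finset
open scoped ENNReal

namespace Pool.Agent.H433.AC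

section types

variable {m n : ℕ}

/-- `m` times the sum of the fractional parts `μ_i = k_i / m` -/
def wt (k : Fin n → ZMod m) : ℕ := ∑ i, (k i).val

/-- The number `⌈∑ μ_i⌉ - 1` of the independent differentials
`x ^ l ∏ (x - a_i) ^ (- μ_i) dx` of the first kind (`0` if `k = 0`). -/
def dm (k : Fin n → ZMod m) : ℕ := (wt k - 1) / m

/-- the number of the finite branch points of the character -/
def nb (k : Fin n → ZMod m) : ℕ := (univ.filter fun i => k i ≠ 0).card

/-- The dimension of the part of the cohomology which belongs to the character: the number of all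
branch points of the character, in the projective line, minus two (`0` if `k = 0`). -/
def rk (k : Fin n → ZMod m) : ℕ := nb k + (if m ∣ wt k then 0 else 1) - 2

/-- the pairs `i < j` -/
def prs (n : ℕ) : Finset (Fin n × Fin n) := univ.filter fun p => p.1 < p.2

/-- the number `max (0, μ_i + μ_j - 1)` -/
noncomputable def df (k : Fin n → ZMod m) (p : Fin n × Fin n) : ℝ :=
  max 0 (((k p.1).val + (k p.2).val : ℝ) / m - 1)

/-- the exponent of the height: `d s - d (d + 1) / 2 - ∑_{i < j} max (0, μ_i + μ_j - 1)`, where
`s` is the sum of the `μ_i` -/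
noncomputable def hx (k : Fin n → ZMod m) : ℝ :=
  dm k * (wt k / m : ℝ) - dm k * (dm k + 1) / 2 - ∑ p ∈ prs n, df k p

/-- the number of the pairs of finite branch points if the rank is at least `r`, and `0` if not -/
def cx (r : ℕ) (k : Fin n → ZMod m) : ℕ := if r ≤ rk k then (nb k).choose 2 else 0

/-- The exponent of the conductor at a place where no two branch points coincide; `r` is the
residue class modulo `m` of the order of `e`. -/
def fg (k : Fin n → ZMod m) (r : ZMod m) : ℕ := if r = 0 then 0 else rk k

/-- The exponent of the conductor at a simple place where the branch points with the numbers `p`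
coincide; `r` is the residue class modulo `m` of the order of `e`. -/
def fs (k : Fin n → ZMod m) (r : ZMod m) (p : Fin n × Fin n) : ℕ :=
  if k p.1 = 0 ∨ k p.2 = 0 then (if r = 0 then 0 else rk k)
  else if r = 0 then min 1 (rk k)
  else if r + k p.1 + k p.2 = 0 then rk k - 1
  else rk k

/-- The integral over `ℂ ^ d` of `∏_{s < t} |x_s - x_t| ^ 2 ∏_s ∏_i |x_s - z_i| ^ (- 2 μ_i)`. Up to
a constant which depends on `d` only this is the square of the `L²` norm of
`∧_{l < d} x ^ l ∏ (x - z_i) ^ (- μ_i) dx`. -/
noncomputable def vol (k : Fin n → ZMod m) (z : Fin n → ℂ) : ℝ :=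
  (∫⁻ x : Fin (dm k) → ℂ, ‖(Matrix.vandermonde x).det‖ₑ ^ 2 *
    ∏ s, ∏ i, ‖x s - z i‖ₑ ^ (-(2 * ((k i).val / m) : ℝ))).toReal

end types

variable {K : Type} [Field K] [NumberField K]

/-- The integers of `K` whose coordinates in the fixed integral basis `RingOfIntegers.basis K` of
Mathlib have absolute value at most `H`. -/
noncomputable def box (K : Type) [Field K] [NumberField K] (H : ℕ) : Finset (𝓞 K) :=
  (Fintype.piFinset fun _ : Module.Free.ChooseBasisIndex ℤ (𝓞 K) =>
    Finset.Icc (-(H : ℤ)) H).map (RingOfIntegers.basis K).equivFun.symm.toEquiv.toEmbedding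

/-- the number of elements of the residue field -/
noncomputable def nv (v : HeightOneSpectrum (𝓞 K)) : ℕ := Ideal.absNorm v.asIdeal

/-- the order of an element of `K` at `v` -/
noncomputable def od (v : HeightOneSpectrum (𝓞 K)) (x : K) : ℤ := -WithZero.log (v.valuation K x)

section places

variable {n : ℕ}

/-- The place `v` does not divide `m`, and no two branch points coincide modulo `v`. -/
def Ordinary (m : ℕ) (a : Fin n → 𝓞 K) (v : HeightOneSpectrum (𝓞 K)) : Prop :=
  (m : 𝓞 K) ∉ v.asIdeal ∧ ∀ q ∈ prs n, a q.1 - a q.2 ∉ v.asIdeal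

/-- The place `v` does not divide `m`, the branch points with the numbers `p` are congruent modulo
`v` but not modulo `v ^ 2`, and no other two branch points are congruent modulo `v`. -/
def Simple (m : ℕ) (a : Fin n → 𝓞 K) (p : Fin n × Fin n) (v : HeightOneSpectrum (𝓞 K)) : Prop :=
  (m : 𝓞 K) ∉ v.asIdeal ∧ a p.1 - a p.2 ∈ v.asIdeal ∧ a p.1 - a p.2 ∉ v.asIdeal ^ 2 ∧
    ∀ q ∈ prs n, a q.1 - a q.2 ∈ v.asIdeal → q = p

open Classical in
/-- the logarithm of the norm of the product of the differences of the branch points, divided by
the product of the norms of the simple places -/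
noncomputable def exc (m : ℕ) (a : Fin n → 𝓞 K) : ℝ :=
  Real.log (Ideal.absNorm (Ideal.span {∏ q ∈ prs n, (a q.1 - a q.2)})) -
    ∑ᶠ v : HeightOneSpectrum (𝓞 K), ∑ p ∈ prs n, if Simple m a p v then Real.log (nv v) else 0

variable {m : ℕ} {X : Type} [Fintype X]

open Classical in
/-- the exponent of the conductor at `v`, if `v` is ordinary or simple; and `0` for the other
places -/
noncomputable def expo (k : X → Fin n → ZMod m) (a : Fin n → 𝓞 K) (e : X → K)
    (v : HeightOneSpectrum (𝓞 K)) : ℕ :=
  (if Ordinary m a v then ∑ χ, fg (k χ) (od v (e χ) : ZMod m) else 0) +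
    ∑ p ∈ prs n, if Simple m a p v then ∑ χ, fs (k χ) (od v (e χ) : ZMod m) p else 0

/-- the part at the ordinary and the simple places of the conductor -/
noncomputable def cond (k : X → Fin n → ZMod m) (a : Fin n → 𝓞 K) (e : X → K) : ℕ :=
  ∏ᶠ v : HeightOneSpectrum (𝓞 K), nv v ^ expo k a e v

open Classical in
/-- `[K : ℚ]` times the stable height, up to the contribution of the places which are neither
ordinary nor simple -/
noncomputable def height (k : X → Fin n → ZMod m) (a : Fin n → 𝓞 K) : ℝ :=
  (∑ σ : K →+* ℂ, ∑ χ, -(1 / 2) * Real.log (vol (k χ) fun i => σ (a i))) -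
    ∑ᶠ v : HeightOneSpectrum (𝓞 K), ∑ p ∈ prs n,
      if Simple m a p v then (∑ χ, df (k χ) p) * Real.log (nv v) else 0

/-- The branch points are different, the inequality of Frey with the slope `κ` holds for all
twists, and the inequality with the slope `κ'` fails for the curve itself. -/
def Sharp (κ κ' B C : ℝ) (k : X → Fin n → ZMod m) (a : Fin n → 𝓞 K) : Prop :=
  Function.Injective a ∧
    (∀ e : X → K, (∀ χ, e χ ≠ 0) →
      height k a ≤ κ * Real.log (cond k a e) + C) ∧
    κ' * (Real.log (cond k a 1) + B * exc m a) ≤ height k a - B * exc m a + C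

end places

end Pool.Agent.H433.AC
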