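import Pool.Agent.H433.AC.Cnt

/-!
The number of the exceptional vectors.
-/

set_option autoImplicit false
set_option linter.unusedSectionVars false

open NumberField IsDedekindDomain Finset

namespace Pool.Agent.H433.AC

variable {K : Type} [Field K] [NumberField K] {n : ℕ}

theorem card_box_le (K : Type) [Field K] [NumberField K] {H : ℕ} (hH : 1 ≤ H) (t : ℕ) :
    (((box K H).card ^ t : ℕ) : ℝ) ≤
      (3 : ℝ) ^ (Module.finrank ℚ K * t) * ((H : ℝ) ^ Module.finrank ℚ K) ^ t := by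
  rw [card_box]
  have hHR : (1 : ℝ) ≤ H := by exact_mod_cast hH
  push_cast
  rw [pow_mul, ← mul_pow, ← mul_pow]
  refine pow_le_pow_left₀ (by positivity) (pow_le_pow_left₀ (by positivity) ?_ _) _
  linarith

theorem prs_lt {p : Fin n × Fin n} (hp : p ∈ prs n) : p.1 < p.2 := by
  unfold prs at hp
  rw [mem_filter] at hp
  exact hp.2

/-- the number of exceptional vectors -/
theorem exceptional_count (K : Type) [Field K] [NumberField K] (n : ℕ) :
    ∃ C : ℝ, 1 ≤ C ∧ ∀ H : ℕ, 1 ≤ H → ∀ Y R : ℝ, 1 ≤ Y → 1 ≤ R →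
      ∀ S : Finset (Fin n → 𝓞 K), (∀ a ∈ S, (∀ l, a l ∈ box K H) ∧ Exceptional Y R a) →
        (S.card : ℝ) ≤ C * ((H : ℝ) ^ Module.finrank ℚ K) ^ n * (R / H + 1 / Y) := by
  classical
  obtain ⟨C₁, hC₁, h1⟩ := small_count K
  obtain ⟨C₂, hC₂, h2⟩ := sq_count K
  obtain ⟨C₃, hC₃, h3⟩ := gcd_count K
  set d := Module.finrank ℚ K with hd
  set M : ℝ := 3 ^ (d * n) with hM
  have hM1 : 1 ≤ M := one_le_pow₀ (by norm_num)
  set W : ℝ := (C₁ * 2 ^ d + C₂ * 2 ^ d + C₃ * (2 ^ d) ^ 2) with hW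
  have hW1 : 1 ≤ W := by
    have : (1 : ℝ) ≤ 2 ^ d := one_le_pow₀ (by norm_num)
    have e1 : 1 ≤ C₁ * 2 ^ d := by nlinarith
    have e2 : 0 ≤ C₂ * 2 ^ d := by positivity
    have e3 : 0 ≤ C₃ * (2 ^ d) ^ 2 := by positivity
    rw [hW]
    linarith
  refine ⟨1 + (prs n).card * M * W + (prs n).card * (prs n).card * M * W, ?_, ?_⟩
  · have e1 : 0 ≤ ((prs n).card : ℝ) * M * W := by positivity
    have e2 : 0 ≤ ((prs n).card : ℝ) * (prs n).card * M * W := by positivity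
    linarith
  intro H hH Y R hY hR S hS
  have hHR : (1 : ℝ) ≤ H := by exact_mod_cast hH
  have hH0 : (0 : ℝ) < H := by linarith
  have hY0 : 0 < Y := by linarith
  have hR0 : 0 < R := by linarith
  have h2H : 1 ≤ 2 * H := by omega
  set L : ℝ := (H : ℝ) ^ d with hL
  have hL1 : 1 ≤ L := one_le_pow₀ hHR
  have hL0 : 0 < L := by linarith
  set ρ : ℝ := R / H + 1 / Y with hρ
  have hρ1 : R / H ≤ ρ := by
    rw [hρ]
    have : 0 ≤ 1 / Y := by positivity
    linarith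
  have hρ2 : 1 / Y ≤ ρ := by
    rw [hρ]
    have : 0 ≤ R / H := by positivity
    linarith
  have hρ0 : 0 ≤ ρ := by positivity
  have h2L : ((2 * H : ℕ) : ℝ) ^ d = 2 ^ d * L := by
    push_cast
    rw [mul_pow]
  have hcoef : ∀ x : ℝ, 0 ≤ x → ∀ t : ℕ, 1 ≤ t → t ≤ n →
      (((box K H).card ^ (n - t) : ℕ) : ℝ) * (x * L ^ t) ≤ M * x * L ^ n := by
    intro x hx t ht htn
    have e1 := card_box_le K hH (n - t)
    have e2 : (3 : ℝ) ^ (d * (n - t)) ≤ M := by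
      rw [hM]
      exact pow_le_pow_right₀ (by norm_num) (Nat.mul_le_mul_left _ (by omega))
    have e3 : (((box K H).card ^ (n - t) : ℕ) : ℝ) ≤ M * L ^ (n - t) :=
      e1.trans (mul_le_mul_of_nonneg_right e2 (by positivity))
    refine (mul_le_mul_of_nonneg_right e3 (by positivity)).trans (le_of_eq ?_)
    have e4 : L ^ n = L ^ (n - t) * L ^ t := by
      rw [← pow_add]
      congr 1
      omega
    rw [e4]
    ring
  -- one pair
  have one : ∀ p ∈ prs n, ∀ Q : 𝓞 K → Prop, (∀ T : Finset (𝓞 K),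
      (∀ x ∈ T, x ∈ box K (2 * H) ∧ Q x) → (T.card : ℝ) ≤ W * ρ * L) →
      ((S.filter fun a => Q (a p.1 - a p.2)).card : ℝ) ≤ M * W * L ^ n * ρ := by
    intro p hp Q hQ
    have hpl := prs_lt hp
    have hn1 : 1 ≤ n := by
      have := p.1.2
      omega
    set T := (box K (2 * H)).filter fun x => Q x with hT
    have e1 := tuple1 (box K H) T hpl.ne (S.filter fun a => Q (a p.1 - a p.2)) fun a ha => by
      rw [mem_filter] at ha
      refine ⟨(hS a ha.1).1, ?_⟩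
      rw [hT, mem_filter]
      exact ⟨sub_mem_box ((hS a ha.1).1 _) ((hS a ha.1).1 _), ha.2⟩
    have e2 := hQ T fun x hx => by
      rw [hT, mem_filter] at hx
      exact hx
    have e3 : ((S.filter fun a => Q (a p.1 - a p.2)).card : ℝ) ≤
        (((box K H).card ^ (n - 1) : ℕ) : ℝ) * (T.card : ℝ) := by exact_mod_cast e1
    refine e3.trans ((mul_le_mul_of_nonneg_left e2 (Nat.cast_nonneg _)).trans ?_)
    have e4 := hcoef (W * ρ) (by positivity) 1 le_rfl hn1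
    rw [pow_one] at e4
    refine e4.trans (le_of_eq ?_)
    ring
  have two : ∀ s s' t t' : Fin n, s ≠ s' → t ≠ t' → s ≠ t → s ≠ t' → t ≠ s' →
      ∀ U : Finset (Fin n → 𝓞 K), U ⊆ S → (∀ a ∈ U, a s - a s' ≠ 0 ∧ a t - a t' ≠ 0 ∧
        ∃ I : Ideal (𝓞 K), Y ≤ Ideal.absNorm I ∧ a s - a s' ∈ I ∧ a t - a t' ∈ I) →
      (U.card : ℝ) ≤ M * W * L ^ n * ρ := by
    intro s s' t t' g1 g2 g3 g4 g5 U hU hUS
    have hn2 : 2 ≤ n := by
      have e1 := s.2
      have e2 := t.2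
      have e3 : (s : ℕ) ≠ t := fun h => g3 (Fin.ext h)
      omega
    set T := U.image fun a => (a s - a s', a t - a t') with hT
    have e1 := tuple2 (box K H) T g1 g2 g3 g4 g5 U fun a ha =>
      ⟨(hS a (hU ha)).1, mem_image_of_mem _ ha⟩
    have e2 := h3 (2 * H) h2H Y hY T fun x hx => by
      rw [hT, mem_image] at hx
      obtain ⟨a, ha, rfl⟩ := hx
      obtain ⟨f1, f2, f3⟩ := hUS a ha
      have f4 := (hS a (hU ha)).1
      exact ⟨⟨sub_mem_box (f4 _) (f4 _), f1⟩, ⟨sub_mem_box (f4 _) (f4 _), f2⟩, f3⟩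
    have e3 : (U.card : ℝ) ≤ (((box K H).card ^ (n - 2) : ℕ) : ℝ) * (T.card : ℝ) := by
      exact_mod_cast e1
    refine e3.trans ((mul_le_mul_of_nonneg_left e2 (Nat.cast_nonneg _)).trans ?_)
    have e4 := hcoef (W * ρ) (by positivity) 2 (by norm_num) hn2
    refine le_trans (mul_le_mul_of_nonneg_left ?_ (Nat.cast_nonneg _)) (e4.trans (le_of_eq ?_))
    · rw [h2L]
      have e5 : C₃ * (2 ^ d * L) ^ 2 / Y = C₃ * (2 ^ d) ^ 2 * (1 / Y) * L ^ 2 := by ring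
      rw [e5]
      refine mul_le_mul_of_nonneg_right ?_ (by positivity)
      refine mul_le_mul ?_ hρ2 (by positivity) (by positivity)
      rw [hW]
      have f1 : 0 ≤ C₁ * 2 ^ d := by positivity
      have f2 : 0 ≤ C₂ * 2 ^ d := by positivity
      linarith
    · ring
  -- the three kinds
  have hW₁ : C₁ * 2 ^ d ≤ W := by
    rw [hW]
    have f1 : 0 ≤ C₂ * 2 ^ d := by positivity
    have f2 : 0 ≤ C₃ * (2 ^ d) ^ 2 := by positivity
    linarith
  have hW₂ : C₂ * 2 ^ d ≤ W := by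
    rw [hW]
    have f1 : 0 ≤ C₁ * 2 ^ d := by positivity
    have f2 : 0 ≤ C₃ * (2 ^ d) ^ 2 := by positivity
    linarith
  obtain ⟨Q, hQ⟩ : ∃ Q : 𝓞 K → Prop, ∀ x : 𝓞 K, Q x ↔ ((∃ σ : K →+* ℂ, ‖σ (x : K)‖ ≤ R) ∨
    (x ≠ 0 ∧ ∃ I : Ideal (𝓞 K), Y ≤ Ideal.absNorm I ∧ x ∈ I ^ 2)) := ⟨_, fun _ => Iff.rfl⟩
  have hQc : ∀ T : Finset (𝓞 K), (∀ x ∈ T, x ∈ box K (2 * H) ∧ Q x) →
      (T.card : ℝ) ≤ W * ρ * L := by
    intro T hT
    set T₁ := T.filter fun x : 𝓞 K => ∃ σ : K →+* ℂ, ‖σ (x : K)‖ ≤ R with hT₁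
    set T₂ := T.filter fun x : 𝓞 K => x ≠ 0 ∧ ∃ I : Ideal (𝓞 K), Y ≤ Ideal.absNorm I ∧ x ∈ I ^ 2 with hT₂
    have e1 : T ⊆ T₁ ∪ T₂ := by
      intro x hx
      rw [mem_union, hT₁, hT₂, mem_filter, mem_filter]
      rcases (hQ x).1 (hT x hx).2 with h | h
      · exact Or.inl ⟨hx, h⟩
      · exact Or.inr ⟨hx, h⟩
    have e2 := h1 (2 * H) h2H R hR T₁ fun x hx => by
      rw [hT₁, mem_filter] at hx
      exact ⟨(hT x hx.1).1, hx.2⟩
    have e3 := h2 (2 * H) h2H Y hY T₂ fun x hx => by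
      rw [hT₂, mem_filter] at hx
      exact ⟨(hT x hx.1).1, hx.2.1, hx.2.2⟩
    have e4 : (T.card : ℝ) ≤ T₁.card + T₂.card := by
      exact_mod_cast (card_le_card e1).trans (card_union_le _ _)
    rw [h2L] at e2 e3
    have e5 : C₁ * (2 ^ d * L) * (R / ((2 * H : ℕ) : ℝ)) ≤ C₁ * 2 ^ d * L * (R / H) := by
      have : R / ((2 * H : ℕ) : ℝ) ≤ R / H := by
        push_cast
        exact div_le_div_of_nonneg_left hR0.le hH0 (by linarith)
      calc C₁ * (2 ^ d * L) * (R / ((2 * H : ℕ) : ℝ)) ≤ C₁ * (2 ^ d * L) * (R / H) :=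
            mul_le_mul_of_nonneg_left this (by positivity)
        _ = C₁ * 2 ^ d * L * (R / H) := by ring
    have e6 : C₂ * (2 ^ d * L) / Y = C₂ * 2 ^ d * L * (1 / Y) := by ring
    rw [e6] at e3
    have e7 : C₁ * 2 ^ d * L * (R / H) ≤ W * L * (R / H) :=
      mul_le_mul_of_nonneg_right (mul_le_mul_of_nonneg_right hW₁ hL0.le) (by positivity)
    have e8 : C₂ * 2 ^ d * L * (1 / Y) ≤ W * L * (1 / Y) :=
      mul_le_mul_of_nonneg_right (mul_le_mul_of_nonneg_right hW₂ hL0.le) (by positivity)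
    have e9 : W * ρ * L = W * L * (R / H) + W * L * (1 / Y) := by
      rw [hρ]
      ring
    rw [e9]
    linarith
  set V : (Fin n × Fin n) × (Fin n × Fin n) → Finset (Fin n → 𝓞 K) := fun z =>
    S.filter fun a => z.1 ≠ z.2 ∧ a z.1.1 - a z.1.2 ≠ 0 ∧ a z.2.1 - a z.2.2 ≠ 0 ∧
      ∃ I : Ideal (𝓞 K), Y ≤ Ideal.absNorm I ∧ a z.1.1 - a z.1.2 ∈ I ∧ a z.2.1 - a z.2.2 ∈ I
    with hV
  have hVc : ∀ z ∈ prs n ×ˢ prs n, ((V z).card : ℝ) ≤ M * W * L ^ n * ρ := by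
    rintro ⟨p, q⟩ hz
    rw [mem_product] at hz
    obtain ⟨hp, hq⟩ := hz
    have hpl := prs_lt hp
    have hql := prs_lt hq
    by_cases hpq : p = q
    · have : V (p, q) = ∅ := by
        rw [hV, filter_eq_empty_iff]
        intro a _ h
        exact h.1 hpq
      rw [this, card_empty]
      push_cast
      positivity
    have hsub : V (p, q) ⊆ S := filter_subset _ _
    have hmem : ∀ a ∈ V (p, q), a p.1 - a p.2 ≠ 0 ∧ a q.1 - a q.2 ≠ 0 ∧
        ∃ I : Ideal (𝓞 K), Y ≤ Ideal.absNorm I ∧ a p.1 - a p.2 ∈ I ∧ a q.1 - a q.2 ∈ I := by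
      intro a ha
      rw [hV, mem_filter] at ha
      exact ha.2.2
    have neg : ∀ (a : Fin n → 𝓞 K) (i j : Fin n) (I : Ideal (𝓞 K)), a i - a j ∈ I →
        a j - a i ∈ I := by
      intro a i j I h
      have := I.neg_mem h
      rwa [neg_sub] at this
    have nen : ∀ (a : Fin n → 𝓞 K) (i j : Fin n), a i - a j ≠ 0 → a j - a i ≠ 0 := by
      intro a i j h h'
      apply h
      rw [sub_eq_zero] at *
      exact h'.symm
    -- choose the indices
    by_cases c1 : p.1 ≠ q.1 ∧ p.1 ≠ q.2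
    · by_cases c2 : q.1 ≠ p.1 ∧ q.1 ≠ p.2
      · exact two p.1 p.2 q.1 q.2 hpl.ne hql.ne c1.1 c1.2 c2.2 _ hsub hmem
      · have c3 : q.1 = p.2 := by
          by_contra h
          exact c2 ⟨c1.1.symm, h⟩
        refine two p.1 p.2 q.2 q.1 hpl.ne hql.ne' c1.2 c1.1 ?_ _ hsub fun a ha => ?_
        · rw [← c3]
          exact hql.ne'
        · obtain ⟨f1, f2, I, f3, f4, f5⟩ := hmem a ha
          exact ⟨f1, nen _ _ _ f2, I, f3, f4, neg _ _ _ _ f5⟩
    · have c4 : p.1 = q.1 ∨ p.1 = q.2 := by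
        by_contra h
        push Not at h
        exact c1 h
      rcases c4 with c4 | c4
      · -- common first index
        have c5 : p.2 ≠ q.2 := fun h => hpq (Prod.ext c4 h)
        refine two p.2 p.1 q.2 q.1 hpl.ne' hql.ne' c5 ?_ ?_ _ hsub fun a ha => ?_
        · rw [← c4]
          exact hpl.ne'
        · rw [c4]
          exact hql.ne'
        · obtain ⟨f1, f2, I, f3, f4, f5⟩ := hmem a ha
          exact ⟨nen _ _ _ f1, nen _ _ _ f2, I, f3, neg _ _ _ _ f4, neg _ _ _ _ f5⟩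
      · -- `p.1 = q.2`
        have c5 : q.1 < p.1 := by
          rw [c4]
          exact hql
        have c6 : q.1 < p.2 := c5.trans hpl
        refine two p.2 p.1 q.1 q.2 hpl.ne' hql.ne c6.ne' ?_ c5.ne _ hsub fun a ha => ?_
        · rw [← c4]
          exact hpl.ne'
        · obtain ⟨f1, f2, I, f3, f4, f5⟩ := hmem a ha
          exact ⟨nen _ _ _ f1, f2, I, f3, neg _ _ _ _ f4, f5⟩
  have hsub : S ⊆ ((prs n).biUnion fun p => S.filter fun a => Q (a p.1 - a p.2)) ∪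
      ((prs n ×ˢ prs n).biUnion V) := by
    intro a ha
    rw [mem_union, mem_biUnion, mem_biUnion]
    obtain ⟨f1, f2⟩ := hS a ha
    have small0 : ∀ p ∈ prs n, a p.1 - a p.2 = 0 →
        ∃ p ∈ prs n, a ∈ S.filter fun a => Q (a p.1 - a p.2) := by
      intro p hp h0
      refine ⟨p, hp, mem_filter.2 ⟨ha, (hQ _).2 (Or.inl ⟨Classical.arbitrary _, ?_⟩)⟩⟩
      rw [h0]
      simpa using hR0.le
    rcases f2 with ⟨p, hp, hσ⟩ | ⟨p, hp, hI⟩ | ⟨p, hp, q, hq, hpq, hI⟩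
    · exact Or.inl ⟨p, hp, mem_filter.2 ⟨ha, (hQ _).2 (Or.inl hσ)⟩⟩
    · by_cases h0 : a p.1 - a p.2 = 0
      · exact Or.inl (small0 p hp h0)
      · exact Or.inl ⟨p, hp, mem_filter.2 ⟨ha, (hQ _).2 (Or.inr ⟨h0, hI⟩)⟩⟩
    · by_cases h0 : a p.1 - a p.2 = 0
      · exact Or.inl (small0 p hp h0)
      · by_cases h0' : a q.1 - a q.2 = 0
        · exact Or.inl (small0 q hq h0')
        · exact Or.inr ⟨(p, q), mem_product.2 ⟨hp, hq⟩, mem_filter.2 ⟨ha, hpq, h0, h0', hI⟩⟩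
  have g1 : (S.card : ℝ) ≤
      ∑ p ∈ prs n, ((S.filter fun a => Q (a p.1 - a p.2)).card : ℝ) +
      ∑ z ∈ prs n ×ˢ prs n, ((V z).card : ℝ) := by
    have := (card_le_card hsub).trans ((card_union_le _ _).trans
      (Nat.add_le_add card_biUnion_le card_biUnion_le))
    exact_mod_cast this
  refine g1.trans ?_
  have g2 : ∑ p ∈ prs n, ((S.filter fun a => Q (a p.1 - a p.2)).card : ℝ) ≤
      (prs n).card * (M * W * L ^ n * ρ) := by
    refine (sum_le_sum fun p hp => one p hp Q hQc).trans (le_of_eq ?_)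
    rw [sum_const, nsmul_eq_mul]
  have g3 : ∑ z ∈ prs n ×ˢ prs n, ((V z).card : ℝ) ≤
      ((prs n).card * (prs n).card) * (M * W * L ^ n * ρ) := by
    refine (sum_le_card_nsmul _ _ _ hVc).trans (le_of_eq ?_)
    rw [nsmul_eq_mul, card_product]
    push_cast
    rfl
  have g4 : 0 ≤ L ^ n * ρ := by positivity
  nlinarith

end Pool.Agent.H433.AC
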