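import Pool.Agent.H433.AC.Exc
import Mathlib.RingTheory.DedekindDomain.FiniteAdeleRing

/-!
Factorization of the differences of the branch points.
-/

set_option autoImplicit false
set_option linter.unusedSectionVars false

open NumberField IsDedekindDomain Finset

namespace Pool.Agent.H433.AC

variable {K : Type} [Field K] [NumberField K] {n : ℕ}

theorem one_lt_nv (v : HeightOneSpectrum (𝓞 K)) : 1 < nv v := by
  unfold nv
  have h1 : Ideal.absNorm v.asIdeal ≠ 0 := by
    rw [Ne, Ideal.absNorm_eq_zero_iff]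
    exact v.ne_bot
  have h2 : Ideal.absNorm v.asIdeal ≠ 1 := by
    rw [Ne, Ideal.absNorm_eq_one_iff]
    exact v.isPrime.ne_top
  omega

theorem log_nv_pos (v : HeightOneSpectrum (𝓞 K)) : 0 < Real.log (nv v) :=
  Real.log_pos (by exact_mod_cast one_lt_nv v)

/-- the multiplicity of a prime in a principal ideal -/
noncomputable def mp (v : HeightOneSpectrum (𝓞 K)) (x : 𝓞 K) : ℕ :=
  multiplicity v.asIdeal (Ideal.span {x})

theorem le_mp {v : HeightOneSpectrum (𝓞 K)} {x : 𝓞 K} (hx : x ≠ 0) (t : ℕ) :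
    x ∈ v.asIdeal ^ t ↔ t ≤ mp v x := by
  have h1 : Ideal.span {x} ≠ ⊥ := by
    rw [Ne, Ideal.span_singleton_eq_bot]
    exact hx
  have h2 : FiniteMultiplicity v.asIdeal (Ideal.span {x}) := by
    refine FiniteMultiplicity.of_not_isUnit ?_ h1
    rw [Ideal.isUnit_iff]
    exact v.isPrime.ne_top
  unfold mp
  rw [← h2.pow_dvd_iff_le_multiplicity, Ideal.dvd_span_singleton]

theorem mem_iff_mp {v : HeightOneSpectrum (𝓞 K)} {x : 𝓞 K} (hx : x ≠ 0) :
    x ∈ v.asIdeal ↔ 1 ≤ mp v x := by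
  have := le_mp (v := v) hx 1
  rwa [pow_one] at this

theorem finite_mem {x : 𝓞 K} (hx : x ≠ 0) :
    {v : HeightOneSpectrum (𝓞 K) | x ∈ v.asIdeal}.Finite := by
  have h1 : Ideal.span {x} ≠ (0 : Ideal (𝓞 K)) := by
    rw [Ne, Submodule.zero_eq_bot, Ideal.span_singleton_eq_bot]
    exact hx
  refine (Ideal.finite_factors h1).subset fun v hv => ?_
  exact (Ideal.dvd_span_singleton).2 hv

/-- the norm of an integer is the product of the norms of its prime divisors -/
theorem Nm_prod {x : 𝓞 K} (hx : x ≠ 0) (V : Finset (HeightOneSpectrum (𝓞 K)))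
    (hV : ∀ v : HeightOneSpectrum (𝓞 K), x ∈ v.asIdeal → v ∈ V) :
    Nm x = ∏ v ∈ V, nv v ^ mp v x := by
  have h1 : Ideal.span {x} ≠ ⊥ := by
    rw [Ne, Ideal.span_singleton_eq_bot]
    exact hx
  have h2 := Ideal.finprod_heightOneSpectrum_pow_multiplicity h1
  rw [finprod_eq_prod_of_mulSupport_subset (s := V) _ ?_] at h2
  · unfold Nm
    rw [← h2, map_prod]
    refine prod_congr rfl fun v _ => ?_
    rw [map_pow]
    rfl
  · intro v hv
    rw [Function.mem_mulSupport] at hv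
    apply hV
    rw [mem_iff_mp hx]
    by_contra h
    apply hv
    have : mp v x = 0 := by omega
    unfold mp at this
    rw [this, pow_zero]

/-- products of powers of different primes -/
theorem prod_dvd (S : Finset (HeightOneSpectrum (𝓞 K))) (t : HeightOneSpectrum (𝓞 K) → ℕ)
    (I : Ideal (𝓞 K)) (h : ∀ v ∈ S, v.asIdeal ^ t v ∣ I) : ∏ v ∈ S, v.asIdeal ^ t v ∣ I := by
  refine Finset.prod_dvd_of_coprime (fun v _ w _ hvw => ?_) h
  show IsCoprime (v.asIdeal ^ t v) (w.asIdeal ^ t w)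
  refine IsCoprime.pow ?_
  rw [Ideal.isCoprime_iff_sup_eq]
  refine v.isMaximal.coprime_of_ne w.isMaximal fun h => hvw ?_
  exact HeightOneSpectrum.ext h

theorem prod_one_dvd (S : Finset (HeightOneSpectrum (𝓞 K)))
    (I : Ideal (𝓞 K)) (h : ∀ v ∈ S, v.asIdeal ∣ I) : ∏ v ∈ S, v.asIdeal ∣ I := by
  have := prod_dvd S (fun _ => 1) I fun v hv => by
    rw [pow_one]
    exact h v hv
  simpa using this

theorem absNorm_prod (S : Finset (HeightOneSpectrum (𝓞 K)))
    (t : HeightOneSpectrum (𝓞 K) → ℕ) :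
    Ideal.absNorm (∏ v ∈ S, v.asIdeal ^ t v) = ∏ v ∈ S, nv v ^ t v := by
  rw [map_prod]
  refine prod_congr rfl fun v _ => ?_
  rw [map_pow]
  rfl

open Classical in
/-- The norm of a difference of two branch points of a vector which is not exceptional is not much
larger than the product of the norms of the simple places. -/
theorem diff_le (m : ℕ) (hm : 1 ≤ m) {Y R : ℝ} (hY : 1 ≤ Y) (hR : 0 ≤ R) {a : Fin n → 𝓞 K}
    (ha : ¬ Exceptional Y R a) {p : Fin n × Fin n} (hp : p ∈ prs n)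
    (V : Finset (HeightOneSpectrum (𝓞 K)))
    (hV : ∀ v : HeightOneSpectrum (𝓞 K), a p.1 - a p.2 ∈ v.asIdeal → v ∈ V) :
    (Nm (a p.1 - a p.2) : ℝ) ≤ (∏ v ∈ V, if Simple m a p v then (nv v : ℝ) else 1) *
      (Y ^ (3 + (prs n).card) * Nm ((m : ℕ) : 𝓞 K)) := by
  classical
  have hx := exceptional_ne hR ha hp
  set x := a p.1 - a p.2 with hxd
  have hm0 : ((m : ℕ) : 𝓞 K) ≠ 0 := by
    rw [Nat.cast_ne_zero]
    omega
  have hnv : ∀ v : HeightOneSpectrum (𝓞 K), (1 : ℝ) ≤ nv v := fun v => by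
    exact_mod_cast (one_lt_nv v).le
  have hI : ∀ I : Ideal (𝓞 K), x ∈ I ^ 2 → (Ideal.absNorm I : ℝ) < Y := by
    intro I h
    by_contra hcon
    exact ha (Or.inr (Or.inl ⟨p, hp, I, not_lt.1 hcon, h⟩))
  have hI2 : ∀ q ∈ prs n, q ≠ p → ∀ I : Ideal (𝓞 K), x ∈ I → a q.1 - a q.2 ∈ I →
      (Ideal.absNorm I : ℝ) < Y := by
    intro q hq hqp I h1 h2
    by_contra hcon
    exact ha (Or.inr (Or.inr ⟨p, hp, q, hq, hqp.symm, I, not_lt.1 hcon, h1, h2⟩))
  rw [Nm_prod hx V hV]
  push_cast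
  -- the local factors
  set s : HeightOneSpectrum (𝓞 K) → ℝ := fun v => if Simple m a p v then (nv v : ℝ) else 1
  set u : HeightOneSpectrum (𝓞 K) → ℝ := fun v => if 2 ≤ mp v x then (nv v : ℝ) ^ mp v x else 1
  set w : HeightOneSpectrum (𝓞 K) → ℝ := fun v => if ((m : ℕ) : 𝓞 K) ∈ v.asIdeal then
    (nv v : ℝ) else 1
  set g : Fin n × Fin n → HeightOneSpectrum (𝓞 K) → ℝ := fun q v =>
    if q ≠ p ∧ x ∈ v.asIdeal ∧ a q.1 - a q.2 ∈ v.asIdeal then (nv v : ℝ) else 1
  have hs1 : ∀ v, 1 ≤ s v := fun v => by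
    show 1 ≤ if Simple m a p v then (nv v : ℝ) else 1
    split_ifs
    · exact hnv v
    · exact le_refl _
  have hu1 : ∀ v, 1 ≤ u v := fun v => by
    show 1 ≤ if 2 ≤ mp v x then (nv v : ℝ) ^ mp v x else 1
    split_ifs
    · exact one_le_pow₀ (hnv v)
    · exact le_refl _
  have hw1 : ∀ v, 1 ≤ w v := fun v => by
    show 1 ≤ if ((m : ℕ) : 𝓞 K) ∈ v.asIdeal then (nv v : ℝ) else 1
    split_ifs
    · exact hnv v
    · exact le_refl _
  have hg1 : ∀ q v, 1 ≤ g q v := fun q v => by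
    show 1 ≤ if q ≠ p ∧ x ∈ v.asIdeal ∧ a q.1 - a q.2 ∈ v.asIdeal then (nv v : ℝ) else 1
    split_ifs
    · exact hnv v
    · exact le_refl _
  have hG1 : ∀ v, 1 ≤ ∏ q ∈ prs n, g q v := fun v => by
    rw [← prod_const_one (s := prs n)]
    exact prod_le_prod (fun _ _ => zero_le_one) fun q _ => hg1 q v
  have hloc : ∀ v ∈ V, (nv v : ℝ) ^ mp v x ≤ s v * (u v * (w v * ∏ q ∈ prs n, g q v)) := by
    intro v _
    have e1 := hs1 v
    have e2 := hu1 v
    have e3 := hw1 v
    have e4 := hG1 v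
    have e5 := hnv v
    have f1 : 1 ≤ w v * ∏ q ∈ prs n, g q v := one_le_mul_of_one_le_of_one_le e3 e4
    have f2 : 1 ≤ u v * (w v * ∏ q ∈ prs n, g q v) := one_le_mul_of_one_le_of_one_le e2 f1
    rcases Nat.lt_or_ge (mp v x) 2 with h2 | h2
    · rcases Nat.lt_or_ge (mp v x) 1 with h1 | h1
      · have : mp v x = 0 := by omega
        rw [this, pow_zero]
        exact one_le_mul_of_one_le_of_one_le e1 f2
      · have h3 : mp v x = 1 := by omega
        rw [h3, pow_one]
        have h4 : x ∈ v.asIdeal := (mem_iff_mp hx).2 h1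
        have h5 : x ∉ v.asIdeal ^ 2 := fun h => by
          have := (le_mp hx 2).1 h
          omega
        by_cases h6 : ((m : ℕ) : 𝓞 K) ∈ v.asIdeal
        · have h7 : w v = nv v := if_pos h6
          rw [h7] at f1 f2 ⊢
          have h8 : (nv v : ℝ) ≤ nv v * ∏ q ∈ prs n, g q v := le_mul_of_one_le_right (by linarith) e4
          have h9 : (nv v : ℝ) * ∏ q ∈ prs n, g q v ≤ u v * (nv v * ∏ q ∈ prs n, g q v) :=
            le_mul_of_one_le_left (by linarith) e2
          have h10 := le_mul_of_one_le_left (by linarith : 0 ≤ u v * (nv v * ∏ q ∈ prs n, g q v)) e1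
          linarith
        · by_cases h7 : ∃ q ∈ prs n, q ≠ p ∧ a q.1 - a q.2 ∈ v.asIdeal
          · obtain ⟨q, hq, hqp, hqv⟩ := h7
            have h8 : g q v = nv v := if_pos ⟨hqp, h4, hqv⟩
            have h9 : (nv v : ℝ) ≤ ∏ q ∈ prs n, g q v := by
              rw [← h8, ← mul_prod_erase _ _ hq]
              refine le_mul_of_one_le_right (by linarith [hg1 q v]) ?_
              rw [← prod_const_one (s := (prs n).erase q)]
              exact prod_le_prod (fun _ _ => zero_le_one) fun q _ => hg1 q v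
            have h10 := le_mul_of_one_le_left (by linarith : 0 ≤ ∏ q ∈ prs n, g q v) e3
            have h11 := le_mul_of_one_le_left (by linarith : 0 ≤ w v * ∏ q ∈ prs n, g q v) e2
            have h12 := le_mul_of_one_le_left
              (by linarith : 0 ≤ u v * (w v * ∏ q ∈ prs n, g q v)) e1
            linarith
          · have h8 : Simple m a p v := by
              refine ⟨h6, h4, h5, fun q hq hqv => ?_⟩
              by_contra hqp
              exact h7 ⟨q, hq, hqp, hqv⟩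
            have h9 : s v = nv v := if_pos h8
            rw [h9]
            exact le_mul_of_one_le_right (by linarith) f2
    · have h3 : u v = (nv v : ℝ) ^ mp v x := if_pos h2
      rw [h3] at e2 f2 ⊢
      have h4 := le_mul_of_one_le_right (by linarith : 0 ≤ (nv v : ℝ) ^ mp v x) f1
      have h5 := le_mul_of_one_le_left
        (by linarith : 0 ≤ (nv v : ℝ) ^ mp v x * (w v * ∏ q ∈ prs n, g q v)) e1
      linarith
  have hU : ∏ v ∈ V, u v ≤ Y ^ 3 := by
    set S := V.filter fun v => 2 ≤ mp v x with hS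
    have e1 : ∏ v ∈ V, u v = ∏ v ∈ S, (nv v : ℝ) ^ mp v x := by
      rw [hS, prod_filter]
    have e2 : ∏ v ∈ S, (nv v : ℝ) ^ mp v x ≤ (∏ v ∈ S, (nv v : ℝ) ^ (mp v x / 2)) ^ 3 := by
      rw [← prod_pow]
      refine prod_le_prod (fun v _ => by positivity) fun v hv => ?_
      rw [← pow_mul]
      rw [hS, mem_filter] at hv
      exact pow_le_pow_right₀ (hnv v) (by omega)
    have e3 : ∏ v ∈ S, (nv v : ℝ) ^ (mp v x / 2) < Y := by
      have f1 := hI (∏ v ∈ S, v.asIdeal ^ (mp v x / 2)) ?_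
      · rw [absNorm_prod] at f1
        push_cast at f1
        exact f1
      · rw [← prod_pow, ← Ideal.dvd_span_singleton]
        have f2 := prod_dvd S (fun v => mp v x / 2 * 2) (Ideal.span {x}) fun v _ => by
          rw [Ideal.dvd_span_singleton, le_mp hx]
          omega
        simpa only [pow_mul] using f2
    rw [e1]
    exact e2.trans (pow_le_pow_left₀ (prod_nonneg fun v _ => by positivity) e3.le 3)
  have hW : ∏ v ∈ V, w v ≤ Nm ((m : ℕ) : 𝓞 K) := by
    set S := V.filter fun v => ((m : ℕ) : 𝓞 K) ∈ v.asIdeal with hS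
    have e1 : ∏ v ∈ V, w v = ∏ v ∈ S, (nv v : ℝ) := by
      rw [hS, prod_filter]
    have e2 : ∏ v ∈ S, v.asIdeal ∣ Ideal.span {((m : ℕ) : 𝓞 K)} := by
      refine prod_one_dvd S _ fun v hv => ?_
      rw [hS, mem_filter] at hv
      exact Ideal.dvd_span_singleton.2 hv.2
    have e3 : ∏ v ∈ S, nv v ∣ Nm ((m : ℕ) : 𝓞 K) := by
      have := Ideal.absNorm_dvd_absNorm_of_le (Ideal.dvd_iff_le.1 e2)
      rw [map_prod] at this
      exact this
    rw [e1]
    exact_mod_cast Nat.le_of_dvd (Nat.pos_of_ne_zero (Nm_ne hm0)) e3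
  have hGq : ∀ q ∈ prs n, ∏ v ∈ V, g q v ≤ Y := by
    intro q hq
    by_cases hqp : q = p
    · have : ∀ v ∈ V, g q v = 1 := fun v _ => if_neg fun h => h.1 hqp
      rw [prod_congr rfl this, prod_const_one]
      exact hY
    set S := V.filter fun v => q ≠ p ∧ x ∈ v.asIdeal ∧ a q.1 - a q.2 ∈ v.asIdeal with hS
    have e1 : ∏ v ∈ V, g q v = ∏ v ∈ S, (nv v : ℝ) := by
      rw [hS, prod_filter]
    have e2 : ∏ v ∈ S, v.asIdeal ∣ Ideal.span {x} := by
      refine prod_one_dvd S _ fun v hv => ?_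
      rw [hS, mem_filter] at hv
      exact Ideal.dvd_span_singleton.2 hv.2.2.1
    have e3 : ∏ v ∈ S, v.asIdeal ∣ Ideal.span {a q.1 - a q.2} := by
      refine prod_one_dvd S _ fun v hv => ?_
      rw [hS, mem_filter] at hv
      exact Ideal.dvd_span_singleton.2 hv.2.2.2
    have e4 := hI2 q hq hqp _ (Ideal.dvd_span_singleton.1 e2) (Ideal.dvd_span_singleton.1 e3)
    rw [map_prod] at e4
    push_cast at e4
    rw [e1]
    exact e4.le
  have hG : ∏ v ∈ V, ∏ q ∈ prs n, g q v ≤ Y ^ (prs n).card := by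
    rw [prod_comm, ← prod_const]
    exact prod_le_prod (fun q _ => prod_nonneg fun v _ => by linarith [hg1 q v]) hGq
  have hS0 : 0 ≤ ∏ v ∈ V, s v := prod_nonneg fun v _ => by linarith [hs1 v]
  calc ∏ v ∈ V, (nv v : ℝ) ^ mp v x ≤ ∏ v ∈ V, s v * (u v * (w v * ∏ q ∈ prs n, g q v)) :=
        prod_le_prod (fun v _ => by positivity) hloc
    _ = (∏ v ∈ V, s v) * ((∏ v ∈ V, u v) * ((∏ v ∈ V, w v) * ∏ v ∈ V, ∏ q ∈ prs n, g q v)) := by
        rw [prod_mul_distrib, prod_mul_distrib, prod_mul_distrib]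
    _ ≤ (∏ v ∈ V, s v) * (Y ^ 3 * (Nm ((m : ℕ) : 𝓞 K) * Y ^ (prs n).card)) := by
        refine mul_le_mul_of_nonneg_left ?_ hS0
        refine mul_le_mul hU (mul_le_mul hW hG ?_ (Nat.cast_nonneg _)) ?_ (by positivity)
        · exact prod_nonneg fun v _ => by linarith [hG1 v]
        · exact mul_nonneg (prod_nonneg fun v _ => by linarith [hw1 v])
            (prod_nonneg fun v _ => by linarith [hG1 v])
    _ = (∏ v ∈ V, s v) * (Y ^ (3 + (prs n).card) * Nm ((m : ℕ) : 𝓞 K)) := by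
        rw [pow_add]
        ring

end Pool.Agent.H433.AC
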