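import Pool.Agent.H433.AC.Fac
import Pool.Agent.H433.AC.Comb

/-!
Sums over the simple places, and the conductor.
-/

set_option autoImplicit false
set_option linter.unusedSectionVars false

open NumberField IsDedekindDomain Finset

namespace Pool.Agent.H433.AC

variable {K : Type} [Field K] [NumberField K] {n : ℕ}

theorem Nm_finprod {ι : Type} (S : Finset ι) (f : ι → 𝓞 K) : Nm (∏ q ∈ S, f q) = ∏ q ∈ S, Nm (f q) := by
  classical
  induction S using Finset.induction_on with
  | empty =>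
    rw [prod_empty, prod_empty]
    unfold Nm
    rw [Ideal.span_singleton_one]
    simp
  | insert q S hq ih => rw [prod_insert hq, prod_insert hq, Nm_mul, ih]

/-- all differences are different from zero -/
def Dif (a : Fin n → 𝓞 K) : Prop := ∀ q ∈ prs n, a q.1 - a q.2 ≠ 0

theorem Dif.inj {a : Fin n → 𝓞 K} (h : Dif a) : Function.Injective a := by
  intro i j hij
  by_contra hne
  rcases lt_or_gt_of_ne hne with h1 | h1
  · exact h (i, j) (by unfold prs; simpa using h1) (by rw [hij, sub_self])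
  · exact h (j, i) (by unfold prs; simpa using h1) (by rw [hij, sub_self])

theorem Dif.prod {a : Fin n → 𝓞 K} (h : Dif a) : ∏ q ∈ prs n, (a q.1 - a q.2) ≠ 0 :=
  prod_ne_zero_iff.2 h

/-- the places where two branch points coincide -/
noncomputable def Vf {a : Fin n → 𝓞 K} (h : Dif a) : Finset (HeightOneSpectrum (𝓞 K)) :=
  (finite_mem h.prod).toFinset

theorem mem_Vf {a : Fin n → 𝓞 K} (h : Dif a) {v : HeightOneSpectrum (𝓞 K)}
    {q : Fin n × Fin n} (hq : q ∈ prs n) (hv : a q.1 - a q.2 ∈ v.asIdeal) : v ∈ Vf h := by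
  unfold Vf
  rw [Set.Finite.mem_toFinset]
  exact Ideal.mem_of_dvd _ (dvd_prod_of_mem _ hq) hv

variable (m : ℕ)

open Classical in
/-- the sum of the logarithms of the norms of the simple places -/
noncomputable def Lp {a : Fin n → 𝓞 K} (h : Dif a) (p : Fin n × Fin n) : ℝ :=
  ∑ v ∈ Vf h, if Simple m a p v then Real.log (nv v) else 0

variable {m}

theorem Lp_nonneg {a : Fin n → 𝓞 K} (h : Dif a) (p : Fin n × Fin n) : 0 ≤ Lp m h p := by
  unfold Lp
  refine sum_nonneg fun v _ => ?_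
  split_ifs
  · exact (log_nv_pos v).le
  · exact le_rfl

open Classical in
theorem finsum_simple {a : Fin n → 𝓞 K} (h : Dif a) (c : Fin n × Fin n → ℝ) :
    (∑ᶠ v : HeightOneSpectrum (𝓞 K), ∑ p ∈ prs n,
      if Simple m a p v then c p * Real.log (nv v) else 0) = ∑ p ∈ prs n, c p * Lp m h p := by
  rw [finsum_eq_sum_of_support_subset (s := Vf h)]
  · rw [sum_comm]
    refine sum_congr rfl fun p _ => ?_
    unfold Lp
    rw [mul_sum]
    refine sum_congr rfl fun v _ => ?_
    split_ifs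
    · rfl
    · rw [mul_zero]
  · intro v hv
    rw [Function.mem_support] at hv
    by_contra hcon
    apply hv
    refine sum_eq_zero fun p hp => ?_
    rw [if_neg]
    intro hs
    exact hcon (mem_Vf h hp hs.2.1)

theorem Lp_le {a : Fin n → 𝓞 K} (h : Dif a) {p : Fin n × Fin n} (hp : p ∈ prs n) :
    Lp m h p ≤ Real.log (Nm (a p.1 - a p.2)) := by
  classical
  have hx := h p hp
  rw [Nm_prod hx (Vf h) fun v hv => mem_Vf h hp hv]
  push_cast
  rw [Real.log_prod]
  · unfold Lp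
    refine sum_le_sum fun v _ => ?_
    rw [Real.log_pow]
    have h0 := log_nv_pos v
    split_ifs with hs
    · have h1 : 1 ≤ mp v (a p.1 - a p.2) := (mem_iff_mp hx).1 hs.2.1
      have h2 : (1 : ℝ) ≤ mp v (a p.1 - a p.2) := by exact_mod_cast h1
      nlinarith
    · positivity
  · intro v _
    have := one_lt_nv v
    positivity

theorem le_Lp (hm : 1 ≤ m) {Y R : ℝ} (hY : 1 ≤ Y) (hR : 0 ≤ R) {a : Fin n → 𝓞 K}
    (ha : ¬ Exceptional Y R a) (h : Dif a) {p : Fin n × Fin n} (hp : p ∈ prs n) :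
    Real.log (Nm (a p.1 - a p.2)) ≤ Lp m h p +
      ((3 + (prs n).card) * Real.log Y + Real.log (Nm ((m : ℕ) : 𝓞 K))) := by
  classical
  have h1 := diff_le m hm hY hR ha hp (Vf h) fun v hv => mem_Vf h hp hv
  have hx := h p hp
  have hm0 : ((m : ℕ) : 𝓞 K) ≠ 0 := by
    rw [Nat.cast_ne_zero]
    omega
  have hN : (0 : ℝ) < Nm (a p.1 - a p.2) := by
    exact_mod_cast Nat.pos_of_ne_zero (Nm_ne hx)
  have hM : (0 : ℝ) < Nm ((m : ℕ) : 𝓞 K) := by
    exact_mod_cast Nat.pos_of_ne_zero (Nm_ne hm0)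
  have h2 := Real.log_le_log hN h1
  have h3 : ∀ v ∈ Vf h, (if Simple m a p v then (nv v : ℝ) else 1) ≠ 0 := by
    intro v _
    have := one_lt_nv v
    split_ifs
    · positivity
    · exact one_ne_zero
  have h4 : ∏ v ∈ Vf h, (if Simple m a p v then (nv v : ℝ) else 1) ≠ 0 := prod_ne_zero_iff.2 h3
  rw [Real.log_mul h4 (by positivity), Real.log_mul (by positivity) hM.ne', Real.log_pow,
    Real.log_prod h3] at h2
  have h5 : ∑ v ∈ Vf h, Real.log (if Simple m a p v then (nv v : ℝ) else 1) = Lp m h p := by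
    unfold Lp
    refine sum_congr rfl fun v _ => ?_
    split_ifs
    · rfl
    · exact Real.log_one
  rw [h5] at h2
  push_cast at h2
  exact h2

theorem exc_eq {a : Fin n → 𝓞 K} (h : Dif a) : exc m a =
    ∑ p ∈ prs n, Real.log (Nm (a p.1 - a p.2)) - ∑ p ∈ prs n, Lp m h p := by
  classical
  have h1 := finsum_simple (m := m) h fun _ => 1
  simp only [one_mul] at h1
  unfold exc
  rw [← h1]
  congr 1
  have h2 := Nm_finprod (prs n) fun q => a q.1 - a q.2
  have h3 : Ideal.absNorm (Ideal.span {∏ q ∈ prs n, (a q.1 - a q.2)}) =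
      ∏ q ∈ prs n, Nm (a q.1 - a q.2) := h2
  rw [h3]
  push_cast
  rw [Real.log_prod]
  intro q hq
  exact_mod_cast Nm_ne (h q hq)

variable {X : Type} [Fintype X] [NeZero m] (k : X → Fin n → ZMod m)

theorem height_eq {a : Fin n → 𝓞 K} (h : Dif a) : height k a =
    (∑ σ : K →+* ℂ, ∑ χ, -(1 / 2) * Real.log (vol (k χ) fun i => σ (a i))) -
      ∑ p ∈ prs n, (∑ χ, df (k χ) p) * Lp m h p := by
  classical
  unfold height
  rw [finsum_simple h]

theorem finite_od {x : K} (hx : x ≠ 0) : {v : HeightOneSpectrum (𝓞 K) | od v x ≠ 0}.Finite := by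
  have h1 := HeightOneSpectrum.Support.finite (𝓞 K) (K := K) x
  have h2 := HeightOneSpectrum.Support.finite (𝓞 K) (K := K) x⁻¹
  refine (h1.union h2).subset fun v hv => ?_
  by_contra hcon
  rw [Set.mem_union, not_or] at hcon
  apply hv
  have e1 : v.valuation K x ≤ 1 := not_lt.1 hcon.1
  have e2 : v.valuation K x⁻¹ ≤ 1 := not_lt.1 hcon.2
  have e3 : v.valuation K x = 1 := by
    refine le_antisymm e1 ?_
    rw [map_inv₀] at e2
    by_contra hlt
    rw [not_le] at hlt
    have h0 : v.valuation K x ≠ 0 := (Valuation.ne_zero_iff _).2 hx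
    have := (one_lt_inv₀ (zero_lt_iff.2 h0)).2 hlt
    exact absurd e2 (not_le.2 this)
  unfold od
  rw [e3]
  simp

theorem od_one (v : HeightOneSpectrum (𝓞 K)) : od v (1 : K) = 0 := by
  unfold od
  simp

theorem expo_support {a : Fin n → 𝓞 K} (h : Dif a) {e : X → K} (he : ∀ χ, e χ ≠ 0) :
    {v : HeightOneSpectrum (𝓞 K) | expo k a e v ≠ 0}.Finite := by
  classical
  have h1 : (⋃ χ, {v : HeightOneSpectrum (𝓞 K) | od v (e χ) ≠ 0}).Finite :=
    Set.finite_iUnion fun χ => finite_od (he χ)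
  refine (h1.union (Vf h).finite_toSet).subset fun v hv => ?_
  by_contra hcon
  rw [Set.mem_union, not_or] at hcon
  obtain ⟨g1, g2⟩ := hcon
  apply hv
  have g3 : ∀ χ, od v (e χ) = 0 := by
    intro χ
    by_contra hne
    exact g1 (Set.mem_iUnion.2 ⟨χ, hne⟩)
  unfold expo
  have g4 : ∑ p ∈ prs n, (if Simple m a p v then ∑ χ, fs (k χ) (od v (e χ) : ZMod m) p else 0) =
      0 := by
    refine sum_eq_zero fun p hp => ?_
    rw [if_neg]
    intro hs
    exact g2 (mem_Vf h hp hs.2.1)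
  rw [g4, add_zero]
  split_ifs
  · refine sum_eq_zero fun χ _ => ?_
    unfold fg
    rw [g3 χ]
    simp
  · rfl

theorem log_cond {a : Fin n → 𝓞 K} (h : Dif a) {e : X → K} (he : ∀ χ, e χ ≠ 0)
    (W : Finset (HeightOneSpectrum (𝓞 K))) (hW : ∀ v, expo k a e v ≠ 0 → v ∈ W) :
    Real.log (cond k a e) = ∑ v ∈ W, expo k a e v * Real.log (nv v) := by
  unfold cond
  rw [finprod_eq_prod_of_mulSupport_subset (s := W)]
  · push_cast
    rw [Real.log_prod]
    · refine sum_congr rfl fun v _ => ?_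
      rw [Real.log_pow]
    · intro v _
      have := one_lt_nv v
      positivity
  · intro v hv
    rw [Function.mem_mulSupport] at hv
    apply hW
    intro h0
    apply hv
    rw [h0, pow_zero]

theorem fs_ge {k : Fin n → ZMod m} {r : ZMod m} {p : Fin n × Fin n} :
    (if (k p.1 ≠ 0 ∧ k p.2 ≠ 0) ∧ 2 ≤ rk k then 1 else 0) ≤ fs k r p := by
  unfold fs
  split_ifs with h1 h2 h3 h4 h5 <;> first | omega | (rcases h2 with h | h <;> tauto) | skip

/-- the conductor of every twist -/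
theorem log_cond_ge {a : Fin n → 𝓞 K} (h : Dif a) {e : X → K} (he : ∀ χ, e χ ≠ 0) :
    ∑ p ∈ prs n, ((∑ χ, if (k χ p.1 ≠ 0 ∧ k χ p.2 ≠ 0) ∧ 2 ≤ rk (k χ) then 1 else 0 : ℕ) : ℝ) *
      Lp m h p ≤ Real.log (cond k a e) := by
  classical
  set W := (expo_support k h he).toFinset ∪ Vf h with hW
  rw [log_cond k h he W fun v hv => by
    rw [hW, mem_union, Set.Finite.mem_toFinset]
    exact Or.inl hv]
  have h1 : ∑ v ∈ Vf h, (expo k a e v : ℝ) * Real.log (nv v) ≤
      ∑ v ∈ W, (expo k a e v : ℝ) * Real.log (nv v) := by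
    refine sum_le_sum_of_subset_of_nonneg subset_union_right fun v _ _ => ?_
    have := log_nv_pos v
    positivity
  refine le_trans ?_ h1
  unfold Lp
  simp only [mul_sum]
  rw [sum_comm]
  refine sum_le_sum fun v _ => ?_
  have h0 := log_nv_pos v
  have h2 : ∑ p ∈ prs n, (if Simple m a p v then
      (∑ χ, if (k χ p.1 ≠ 0 ∧ k χ p.2 ≠ 0) ∧ 2 ≤ rk (k χ) then 1 else 0 : ℕ) else 0) ≤
        expo k a e v := by
    unfold expo
    refine le_trans (sum_le_sum fun p _ => ?_) (Nat.le_add_left _ _)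
    split_ifs
    · exact sum_le_sum fun χ _ => fs_ge
    · exact le_rfl
  have h3 : (((∑ p ∈ prs n, (if Simple m a p v then
      (∑ χ, if (k χ p.1 ≠ 0 ∧ k χ p.2 ≠ 0) ∧ 2 ≤ rk (k χ) then 1 else 0 : ℕ) else 0) : ℕ)) : ℝ) ≤
        expo k a e v := by exact_mod_cast h2
  refine le_trans (le_of_eq ?_) (mul_le_mul_of_nonneg_right h3 h0.le)
  rw [Nat.cast_sum, sum_mul]
  refine sum_congr rfl fun p _ => ?_
  split_ifs
  · rfl
  · simp

theorem fs_zero {k : Fin n → ZMod m} {p : Fin n × Fin n} :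
    fs k 0 p = if (k p.1 ≠ 0 ∧ k p.2 ≠ 0) ∧ 1 ≤ rk k then 1 else 0 := by
  unfold fs
  by_cases h1 : k p.1 = 0 ∨ k p.2 = 0
  · rw [if_pos h1, if_pos rfl, if_neg]
    rintro ⟨⟨h2, h3⟩, _⟩
    rcases h1 with h | h
    · exact h2 h
    · exact h3 h
  · rw [if_neg h1, if_pos rfl]
    push Not at h1
    by_cases h2 : 1 ≤ rk k
    · rw [if_pos ⟨h1, h2⟩, min_eq_left h2]
    · rw [if_neg fun h => h2 h.2]
      have : rk k = 0 := by omega
      rw [this]
      rfl

/-- the conductor of the curve itself -/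
theorem log_cond_one {a : Fin n → 𝓞 K} (h : Dif a) :
    Real.log (cond k a (1 : X → K)) =
      ∑ p ∈ prs n, ((∑ χ, if (k χ p.1 ≠ 0 ∧ k χ p.2 ≠ 0) ∧ 1 ≤ rk (k χ) then 1 else 0 : ℕ) : ℝ) *
        Lp m h p := by
  classical
  have he : ∀ χ : X, (1 : X → K) χ ≠ 0 := fun _ => one_ne_zero
  have hx : ∀ v : HeightOneSpectrum (𝓞 K), expo k a (1 : X → K) v =
      ∑ p ∈ prs n, if Simple m a p v then
        (∑ χ, if (k χ p.1 ≠ 0 ∧ k χ p.2 ≠ 0) ∧ 1 ≤ rk (k χ) then 1 else 0) else 0 := by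
    intro v
    unfold expo
    have h1 : (if Ordinary m a v then ∑ χ, fg (k χ) (od v ((1 : X → K) χ) : ZMod m) else 0) = 0 := by
      split_ifs
      · refine sum_eq_zero fun χ _ => ?_
        unfold fg
        rw [Pi.one_apply, od_one]
        simp
      · rfl
    rw [h1, zero_add]
    refine sum_congr rfl fun p _ => ?_
    split_ifs
    · refine sum_congr rfl fun χ _ => ?_
      rw [Pi.one_apply, od_one, Int.cast_zero, fs_zero]
    · rfl
  rw [log_cond k h he (Vf h) fun v hv => ?_]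
  · unfold Lp
    simp only [mul_sum]
    rw [sum_comm]
    refine sum_congr rfl fun v _ => ?_
    rw [hx v, Nat.cast_sum, sum_mul]
    refine sum_congr rfl fun p _ => ?_
    split_ifs
    · rfl
    · simp
  · rw [hx v] at hv
    by_contra hcon
    apply hv
    refine sum_eq_zero fun p hp => ?_
    rw [if_neg]
    intro hs
    exact hcon (mem_Vf h hp hs.2.1)

end Pool.Agent.H433.AC
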