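import Pool.Agent.H433.AC.Main

/-!
The main theorem on abelian covers of the projective line.
-/

set_option autoImplicit false
set_option linter.unusedSectionVars false

open NumberField IsDedekindDomain Finset

namespace Pool.Agent.H433.AC

variable {m n : ℕ} [NeZero m] {X : Type} [Fintype X] (k : X → Fin n → ZMod m)

theorem cx_mono {k : Fin n → ZMod m} : cx 2 k ≤ cx 1 k := by
  unfold cx
  split_ifs with h1 h2
  · exact le_rfl
  · omega
  · exact Nat.zero_le _
  · exact le_rfl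

theorem cx_pos {k : Fin n → ZMod m} (h : 2 ≤ rk k) : 0 < cx 2 k := by
  unfold cx
  rw [if_pos h]
  have h1 : 2 ≤ nb k := by
    unfold rk at h
    split_ifs at h <;> omega
  exact Nat.choose_pos h1

/-- the quotient of the exponents of the height and of the conductor -/
noncomputable def slope (r : ℕ) (k : X → Fin n → ZMod m) : ℝ :=
  (∑ χ, hx (k χ)) / ((∑ χ, cx r (k χ) : ℕ) : ℝ)

theorem slope_le : slope 2 k ≤ 1 / 4 := by
  unfold slope
  have h1 : ∑ χ, hx (k χ) ≤ 1 / 4 * ((∑ χ, cx 2 (k χ) : ℕ) : ℝ) := by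
    push_cast
    rw [mul_sum]
    exact sum_le_sum fun χ _ => hx_le_cx (k χ)
  rcases Nat.eq_zero_or_pos (∑ χ, cx 2 (k χ)) with h0 | h0
  · rw [h0]
    simp
  · rw [div_le_iff₀ (by exact_mod_cast h0)]
    exact h1

theorem slope_eq (h : ∀ χ, rk (k χ) ≠ 1) : slope 1 k = slope 2 k := by
  unfold slope
  congr 2
  refine sum_congr rfl fun χ _ => ?_
  have h1 := h χ
  unfold cx
  split_ifs with h2 h3
  · rfl
  · omega
  · omega
  · rfl

open Classical in
/-- the main theorem -/
theorem main (K : Type) [Field K] [NumberField K] (hr : ∃ χ, 2 ≤ rk (k χ)) (κ κ' B : ℝ)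
    (hκ0 : 0 < κ) (hκ : slope 2 k < κ) (hκ' : κ' < slope 1 k) (hB : 0 ≤ B) :
    ∃ C δ : ℝ, 0 < δ ∧ ∀ H : ℕ, 1 ≤ H →
      (((Fintype.piFinset fun _ : Fin n => box K H).filter fun a =>
        ¬ Sharp κ κ' B C k a).card : ℝ) ≤
          C * (H : ℝ) ^ (-δ) * ((Fintype.piFinset fun _ : Fin n => box K H).card : ℝ) := by
  obtain ⟨E, C₁, hE, hC₁, h⟩ := good k K
  obtain ⟨C₂, hC₂, hcount⟩ := exceptional_count K n
  set d := Module.finrank ℚ K with hd
  have hd0 : (0 : ℝ) < d := by exact_mod_cast (Module.finrank_pos : 0 < Module.finrank ℚ K)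
  set A : ℝ := ∑ χ, hx (k χ) with hA
  set B₂ : ℝ := ((∑ χ, cx 2 (k χ) : ℕ) : ℝ) with hB₂
  set B₁ : ℝ := ((∑ χ, cx 1 (k χ) : ℕ) : ℝ) with hB₁
  have hB₂0 : 0 < B₂ := by
    rw [hB₂]
    obtain ⟨χ, hχ⟩ := hr
    have h1 : cx 2 (k χ) ≤ ∑ χ, cx 2 (k χ) :=
      single_le_sum (f := fun χ => cx 2 (k χ)) (fun _ _ => Nat.zero_le _) (mem_univ χ)
    have h2 := cx_pos hχ
    exact_mod_cast lt_of_lt_of_le h2 h1
  have hB₁0 : 0 < B₁ := by
    refine lt_of_lt_of_le hB₂0 ?_
    rw [hB₁, hB₂]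
    exact_mod_cast sum_le_sum fun χ _ => cx_mono
  have hg1 : 0 < d * (κ * B₂ - A) := by
    have : A / B₂ < κ := hκ
    rw [div_lt_iff₀ hB₂0] at this
    exact mul_pos hd0 (by linarith)
  have hg2 : 0 < d * (A - κ' * B₁) := by
    have : κ' < A / B₁ := hκ'
    rw [lt_div_iff₀ hB₁0] at this
    exact mul_pos hd0 (by linarith)
  set q1 : ℝ := E * (1 + κ) + 1 with hq1
  set q2 : ℝ := (|κ'| * (1 + B) + 1 + B) * E + 1 with hq2
  have hq10 : 0 < q1 := by positivity
  have hq20 : 0 < q2 := by positivity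
  set ε : ℝ := min 1 (min (d * (κ * B₂ - A) / q1) (d * (A - κ' * B₁) / q2)) with hε
  have hε0 : 0 < ε := lt_min one_pos (lt_min (div_pos hg1 hq10) (div_pos hg2 hq20))
  have hε1 : ε ≤ 1 := min_le_left _ _
  have hεa : ε * q1 ≤ d * (κ * B₂ - A) := by
    rw [← le_div_iff₀ hq10]
    exact (min_le_right _ _).trans (min_le_left _ _)
  have hεb : ε * q2 ≤ d * (A - κ' * B₁) := by
    rw [← le_div_iff₀ hq20]
    exact (min_le_right _ _).trans (min_le_right _ _)
  set C : ℝ := 2 * C₂ + (κ * C₁ + C₁) + (|κ'| * (1 + B) * C₁ + C₁ + B * C₁) with hC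
  have hC₃ : 0 ≤ κ * C₁ + C₁ := by positivity
  have hC₄ : 0 ≤ |κ'| * (1 + B) * C₁ + C₁ + B * C₁ := by positivity
  refine ⟨C, ε, hε0, fun H hH => ?_⟩
  have hHR : (1 : ℝ) ≤ H := by exact_mod_cast hH
  have hH0 : (0 : ℝ) < H := by linarith
  set L := Real.log H with hL
  have hL0 : 0 ≤ L := Real.log_nonneg hHR
  have hgood : ∀ a : Fin n → 𝓞 K, (∀ i, a i ∈ box K H) →
      ¬ Exceptional ((H : ℝ) ^ ε) ((H : ℝ) ^ (1 - ε)) a → Sharp κ κ' B C k a := by
    intro a ha hexc
    obtain ⟨h1, h2, h3, h4, h5, h5', h60, h6⟩ := h H ε hH hε0.le hε1 a ha hexc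
    refine ⟨h1, fun e he => ?_, ?_⟩
    · have h7 := h4 e he
      have h8 := mul_le_mul_of_nonneg_left h7 hκ0.le
      have h9 : (d * A + E * ε) * L ≤ κ * ((d * B₂ - E * ε) * L) := by
        have : d * A + E * ε ≤ κ * (d * B₂ - E * ε) := by
          rw [hq1] at hεa
          nlinarith
        have := mul_le_mul_of_nonneg_right this hL0
        linarith
      have h10 : (2 : ℝ) * C₂ ≥ 0 := by linarith
      rw [hC]
      linarith
    · have h8 := mul_le_mul_of_nonneg_left h6 hB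
      have hEL : 0 ≤ E * ε * L := by positivity
      have h10 : (2 : ℝ) * C₂ ≥ 0 := by linarith
      rcases le_total 0 κ' with hs | hs
      · have h7 : κ' * (Real.log (cond k a (1 : X → K)) + B * exc m a) ≤
            κ' * ((d * B₁ * L + C₁) + B * (E * ε * L + C₁)) :=
          mul_le_mul_of_nonneg_left (add_le_add h5 (mul_le_mul_of_nonneg_left h6 hB)) hs
        rw [abs_of_nonneg hs] at hq2 hC
        have h9 : κ' * (d * B₁ * L + B * (E * ε * L)) ≤
            (d * A - E * ε) * L - B * (E * ε * L) := by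
          have : κ' * (d * B₁ + B * (E * ε)) ≤ d * A - E * ε - B * (E * ε) := by
            rw [hq2] at hεb
            have : 0 ≤ κ' * (E * ε) := by positivity
            nlinarith
          have := mul_le_mul_of_nonneg_right this hL0
          linarith
        rw [hC]
        linarith
      · have h7 : κ' * (Real.log (cond k a (1 : X → K)) + B * exc m a) ≤
            κ' * ((d * B₁ - E * ε) * L - C₁) := by
          refine mul_le_mul_of_nonpos_left ?_ hs
          have : 0 ≤ B * exc m a := mul_nonneg hB h60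
          linarith
        rw [abs_of_nonpos hs] at hq2 hC
        have h9 : κ' * ((d * B₁ - E * ε) * L) ≤ (d * A - E * ε) * L - B * (E * ε * L) := by
          have : κ' * (d * B₁ - E * ε) ≤ d * A - E * ε - B * (E * ε) := by
            rw [hq2] at hεb
            have : 0 ≤ -κ' * (B * (E * ε)) := mul_nonneg (by linarith) (by positivity)
            nlinarith
          have := mul_le_mul_of_nonneg_right this hL0
          linarith
        have h11 : 0 ≤ -κ' * (B * C₁) := mul_nonneg (by linarith) (by positivity)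
        rw [hC]
        linarith
  have hsub := hcount H hH ((H : ℝ) ^ ε) ((H : ℝ) ^ (1 - ε)) (Real.one_le_rpow hHR hε0.le)
    (Real.one_le_rpow hHR (by linarith))
    ((Fintype.piFinset fun _ : Fin n => box K H).filter fun a => ¬ Sharp κ κ' B C k a)
    fun a ha => by
      rw [mem_filter, Fintype.mem_piFinset] at ha
      refine ⟨ha.1, ?_⟩
      by_contra hcon
      exact ha.2 (hgood a ha.1 hcon)
  refine hsub.trans ?_
  have e1 : (H : ℝ) ^ (1 - ε) / H + 1 / (H : ℝ) ^ ε = 2 * (H : ℝ) ^ (-ε) := by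
    rw [Real.rpow_sub hH0, Real.rpow_one, Real.rpow_neg hH0.le]
    field_simp
    ring
  rw [e1]
  have e2 : ((H : ℝ) ^ d) ^ n ≤ ((Fintype.piFinset fun _ : Fin n => box K H).card : ℝ) := by
    rw [Fintype.card_piFinset]
    simp only [card_box, prod_const, card_univ, Fintype.card_fin]
    push_cast
    exact pow_le_pow_left₀ (by positivity) (pow_le_pow_left₀ hH0.le (by linarith) _) _
  have e3 : 0 ≤ (H : ℝ) ^ (-ε) := by positivity
  have e4 : 2 * C₂ ≤ C := by
    rw [hC]
    linarith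
  calc C₂ * ((H : ℝ) ^ d) ^ n * (2 * (H : ℝ) ^ (-ε))
      = 2 * C₂ * (H : ℝ) ^ (-ε) * ((H : ℝ) ^ d) ^ n := by ring
    _ ≤ C * (H : ℝ) ^ (-ε) * ((H : ℝ) ^ d) ^ n := by
        refine mul_le_mul_of_nonneg_right (mul_le_mul_of_nonneg_right e4 e3) (by positivity)
    _ ≤ C * (H : ℝ) ^ (-ε) * ((Fintype.piFinset fun _ : Fin n => box K H).card : ℝ) :=
        mul_le_mul_of_nonneg_left e2 (mul_nonneg (by linarith) e3)

end Pool.Agent.H433.AC
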