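import Pool.Agent.H433.AC.Def
import Mathlib.Analysis.SpecialFunctions.Pow.Integral
import Mathlib.Analysis.SpecialFunctions.JapaneseBracket
import Mathlib.MeasureTheory.Measure.Lebesgue.EqHaar
import Mathlib.MeasureTheory.Constructions.Pi
import Mathlib.Analysis.Complex.Basic
import Mathlib.MeasureTheory.Measure.Lebesgue.VolumeOfBalls

/-!
Integrals over the complex plane.
-/

set_option autoImplicit false

open MeasureTheory Finset
open scoped ENNReal

namespace Pool.Agent.H433.AC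

/-- the integral of a product -/
theorem lint_prod (f : ℂ → ℝ≥0∞) (hf : Measurable f) (d : ℕ) :
    ∫⁻ x : Fin d → ℂ, ∏ s, f (x s) = (∫⁻ x, f x) ^ d := by
  induction d with
  | zero =>
    simp [volume_pi, Measure.pi_empty_univ]
  | succ d ih =>
    have h1 := (volume_preserving_piFinSuccAbove (fun _ : Fin (d + 1) => ℂ) 0)
    have h2 := h1.symm.lintegral_comp_emb (MeasurableEquiv.measurableEmbedding _)
      (fun x : Fin (d + 1) → ℂ => ∏ s, f (x s))
    rw [← h2]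
    have h3 : ∀ y : ℂ × (Fin d → ℂ), ∏ s : Fin (d + 1),
        f ((MeasurableEquiv.piFinSuccAbove (fun _ : Fin (d + 1) => ℂ) 0).symm y s) =
        f y.1 * ∏ s, f (y.2 s) := by
      intro y
      rw [Fin.prod_univ_succ]
      rfl
    simp only [h3]
    have h4 : Measurable fun y : Fin d → ℂ => ∏ s, f (y s) :=
      Finset.measurable_fun_prod _ fun s _ => hf.comp (measurable_pi_apply s)
    have h5 := lintegral_prod_mul (μ := (volume : Measure ℂ))
      (ν := (volume : Measure (Fin d → ℂ))) hf.aemeasurable h4.aemeasurable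
    have h6 : (∫⁻ y : ℂ × (Fin d → ℂ), f y.1 * ∏ s, f (y.2 s)) =
        (∫⁻ x, f x) * ∫⁻ y : Fin d → ℂ, ∏ s, f (y s) := h5
    rw [h6, ih, pow_succ, mul_comm]

/-- scaling -/
theorem lint_scale (f : ℂ → ℝ≥0∞) (hf : Measurable f) {R : ℝ} (hR : 0 < R) :
    ∫⁻ x, f x = ENNReal.ofReal (R ^ 2) * ∫⁻ y, f (R • y) := by
  have h1 := Measure.map_addHaar_smul (volume : Measure ℂ) hR.ne'
  have h2 : ∫⁻ y, f (R • y) = ∫⁻ x, f x ∂(Measure.map (R • ·) (volume : Measure ℂ)) := by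
    rw [lintegral_map hf (measurable_const_smul R)]
  rw [h2, h1, lintegral_smul_measure, Complex.finrank_real_complex, smul_eq_mul, ← mul_assoc,
    ← ENNReal.ofReal_mul (by positivity), abs_of_pos (by positivity),
    mul_inv_cancel₀ (by positivity), ENNReal.ofReal_one, one_mul]

/-- local integrability of a negative power -/
theorem lint_ball {β : ℝ} (hβ : β < 2) (r : ℝ) :
    ∫⁻ x : ℂ in Metric.ball 0 r, ‖x‖ₑ ^ (-β) < ∞ := by
  have h1 : IntegrableOn (fun x : ℂ => ‖x‖ ^ (-β)) (Metric.ball 0 r) := by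
    refine integrableOn_ball_of_norm_le_rpow (C := 1) (α := β) ?_ ?_ ?_ ?_
    · rw [Complex.finrank_real_complex]
      norm_num
    · rw [Complex.finrank_real_complex]
      exact_mod_cast hβ
    · refine Filter.Eventually.of_forall fun x => ?_
      rw [one_mul, Real.norm_of_nonneg (by positivity)]
    · exact (measurable_norm.pow_const _).aestronglyMeasurable
  have h2 := h1.hasFiniteIntegral
  rw [hasFiniteIntegral_iff_enorm] at h2
  refine lt_of_le_of_lt (lintegral_mono_ae ?_) h2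
  have h3 : ∀ᵐ x : ℂ ∂(volume.restrict (Metric.ball 0 r)), x ≠ 0 :=
    ae_restrict_of_ae (by
      rw [ae_iff]
      simp)
  filter_upwards [h3] with x hx
  have hx0 : 0 < ‖x‖ := norm_pos_iff.2 hx
  rw [← ofReal_norm (‖x‖ ^ (-β)), Real.norm_of_nonneg (by positivity),
    ← ofReal_norm x, ENNReal.ofReal_rpow_of_pos hx0]

/-- integrability of a negative power at infinity -/
theorem lint_tail {β : ℝ} (hβ : 2 < β) :
    ∫⁻ x : ℂ in {x | 1 ≤ ‖x‖}, ‖x‖ₑ ^ (-β) < ∞ := by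
  have h1 : Integrable (fun x : ℂ => (1 + ‖x‖) ^ (-β)) := by
    refine integrable_one_add_norm ?_
    rw [Complex.finrank_real_complex]
    exact_mod_cast hβ
  have h2 := h1.hasFiniteIntegral
  rw [hasFiniteIntegral_iff_enorm] at h2
  have h3 : ∫⁻ x : ℂ in {x | 1 ≤ ‖x‖}, ‖x‖ₑ ^ (-β) ≤
      ∫⁻ x : ℂ, ENNReal.ofReal (2 ^ β) * ‖(1 + ‖x‖) ^ (-β)‖ₑ := by
    refine le_trans (setLIntegral_mono' (g := fun x : ℂ =>
      ENNReal.ofReal (2 ^ β) * ‖(1 + ‖x‖) ^ (-β)‖ₑ) ?_ fun x hx => ?_) (setLIntegral_le_lintegral _ _)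
    · exact measurableSet_le measurable_const measurable_norm
    · have hx1 : 1 ≤ ‖x‖ := hx
      have hx0 : 0 < ‖x‖ := by linarith
      rw [← ofReal_norm ((1 + ‖x‖) ^ (-β)), Real.norm_of_nonneg (by positivity),
        ← ofReal_norm x, ENNReal.ofReal_rpow_of_pos hx0,
        ← ENNReal.ofReal_mul (by positivity)]
      refine ENNReal.ofReal_le_ofReal ?_
      rw [Real.rpow_neg hx0.le, Real.rpow_neg (by positivity), ← div_eq_mul_inv,
        inv_eq_one_div, div_le_div_iff₀ (by positivity) (by positivity), one_mul,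
        ← Real.mul_rpow (by norm_num) hx0.le]
      exact Real.rpow_le_rpow (by positivity) (by linarith) (by linarith)
  refine lt_of_le_of_lt h3 ?_
  rw [lintegral_const_mul' _ _ ENNReal.ofReal_ne_top]
  exact ENNReal.mul_lt_top ENNReal.ofReal_lt_top h2

/-- a finite constant -/
theorem exists_ball {β : ℝ} (hβ : β < 2) (r : ℝ) : ∃ C : ℝ, 0 < C ∧
    ∫⁻ x : ℂ in Metric.ball 0 r, ‖x‖ₑ ^ (-β) ≤ ENNReal.ofReal C := by
  refine ⟨(∫⁻ x : ℂ in Metric.ball 0 r, ‖x‖ₑ ^ (-β)).toReal + 1, by positivity, ?_⟩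
  rw [← ENNReal.ofReal_toReal (lint_ball hβ r).ne]
  exact ENNReal.ofReal_le_ofReal (by rw [ENNReal.toReal_ofReal (by positivity)]; linarith)

theorem exists_tail {β : ℝ} (hβ : 2 < β) : ∃ C : ℝ, 0 < C ∧
    ∫⁻ x : ℂ in {x | 1 ≤ ‖x‖}, ‖x‖ₑ ^ (-β) ≤ ENNReal.ofReal C := by
  refine ⟨(∫⁻ x : ℂ in {x | 1 ≤ ‖x‖}, ‖x‖ₑ ^ (-β)).toReal + 1, by positivity, ?_⟩
  rw [← ENNReal.ofReal_toReal (lint_tail hβ).ne]
  exact ENNReal.ofReal_le_ofReal (by rw [ENNReal.toReal_ofReal (by positivity)]; linarith)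

/-- translation -/
theorem lint_ball_shift {β : ℝ} {C r : ℝ}
    (h : ∫⁻ x : ℂ in Metric.ball 0 (r + 1), ‖x‖ₑ ^ (-β) ≤ ENNReal.ofReal C) {b : ℂ} (hb : ‖b‖ ≤ 1) :
    ∫⁻ x : ℂ in Metric.ball 0 r, ‖x - b‖ₑ ^ (-β) ≤ ENNReal.ofReal C := by
  refine le_trans ?_ h
  rw [← lintegral_indicator Metric.isOpen_ball.measurableSet,
    ← lintegral_indicator Metric.isOpen_ball.measurableSet,
    ← lintegral_sub_right_eq_self
      ((Metric.ball (0 : ℂ) (r + 1)).indicator fun x : ℂ => ‖x‖ₑ ^ (-β)) b]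
  refine lintegral_mono fun x => ?_
  by_cases hx : x ∈ Metric.ball (0 : ℂ) r
  · rw [Set.indicator_of_mem hx, Set.indicator_of_mem]
    rw [mem_ball_zero_iff] at hx ⊢
    have := norm_sub_le x b
    linarith
  · rw [Set.indicator_of_notMem hx]
    exact zero_le

end Pool.Agent.H433.AC
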