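import Pool.Agent.H433.AC.Fin

/-!
The asymptotics of the height and the conductor for the vectors which are not exceptional.
-/

set_option autoImplicit false
set_option linter.unusedSectionVars false

open NumberField IsDedekindDomain Finset

namespace Pool.Agent.H433.AC

variable {m n : ℕ} [NeZero m] {X : Type} [Fintype X] (k : X → Fin n → ZMod m)

/-- the archimedean exponent -/
noncomputable def al (k : Fin n → ZMod m) : ℝ := dm k * (wt k / m : ℝ) - dm k * (dm k + 1) / 2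

theorem hx_al (k : Fin n → ZMod m) : hx k = al k - ∑ p ∈ prs n, df k p := rfl

theorem arch_sum (K : Type) [Field K] [NumberField K] (C₀ : ℝ) (hC₀ : 1 ≤ C₀) :
    ∃ E C : ℝ, 0 ≤ E ∧ 0 ≤ C ∧ ∀ (H : ℕ) (ε : ℝ), 1 ≤ H → 0 ≤ ε → ε ≤ 1 →
      ∀ a : Fin n → 𝓞 K, (∀ i, ∀ σ : K →+* ℂ, ‖σ (a i : K)‖ ≤ C₀ * H) →
        (∀ i j, i ≠ j → ∀ σ : K →+* ℂ, (H : ℝ) ^ (1 - ε) ≤ ‖σ ((a i - a j : 𝓞 K) : K)‖) →
        (∑ σ : K →+* ℂ, ∑ χ, -(1 / 2) * Real.log (vol (k χ) fun i => σ (a i))) ≤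
          Module.finrank ℚ K * (∑ χ, al (k χ)) * Real.log H + C ∧
        Module.finrank ℚ K * (∑ χ, al (k χ)) * Real.log H - E * ε * Real.log H - C ≤
          (∑ σ : K →+* ℂ, ∑ χ, -(1 / 2) * Real.log (vol (k χ) fun i => σ (a i))) := by
  classical
  choose c hc0 hc using fun χ => arch (k χ)
  set d := Module.finrank ℚ K with hd
  set D : ℝ := ∑ χ, (dm (k χ) * (wt (k χ) / m : ℝ)) with hD
  have hD0 : 0 ≤ D := sum_nonneg fun χ _ => by positivity
  have hlC : 0 ≤ Real.log C₀ := Real.log_nonneg hC₀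
  have hcs : 0 ≤ ∑ χ, c χ := sum_nonneg fun χ _ => hc0 χ
  refine ⟨d * D, d * ((∑ χ, |al (k χ)|) * Real.log C₀ + ∑ χ, c χ + D * Real.log C₀),
    by positivity, by positivity, fun H ε hH hε0 hε1 a ha hdif => ?_⟩
  have hHR : (1 : ℝ) ≤ H := by exact_mod_cast hH
  have hH0 : (0 : ℝ) < H := by linarith
  have hL : 0 ≤ Real.log H := Real.log_nonneg hHR
  have hρ0 : (0 : ℝ) < (H : ℝ) ^ (1 - ε) := by positivity
  have hρR : (H : ℝ) ^ (1 - ε) ≤ C₀ * H := by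
    have h1 : (H : ℝ) ^ (1 - ε) ≤ (H : ℝ) ^ (1 : ℝ) :=
      Real.rpow_le_rpow_of_exponent_le hHR (by linarith)
    rw [Real.rpow_one] at h1
    nlinarith
  have hlR : Real.log (C₀ * H) = Real.log C₀ + Real.log H := Real.log_mul (by positivity) hH0.ne'
  have hlq : Real.log (C₀ * H / (H : ℝ) ^ (1 - ε)) = Real.log C₀ + ε * Real.log H := by
    rw [Real.log_div (by positivity) hρ0.ne', hlR, Real.log_rpow hH0]
    ring
  have key : ∀ σ : K →+* ℂ, ∀ χ,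
      -(1 / 2) * Real.log (vol (k χ) fun i => σ (a i)) ≤
        al (k χ) * Real.log H + (|al (k χ)| * Real.log C₀ + c χ) ∧
      al (k χ) * Real.log H - (dm (k χ) * (wt (k χ) / m : ℝ)) * (Real.log C₀ + ε * Real.log H) -
        (|al (k χ)| * Real.log C₀ + c χ) ≤
          -(1 / 2) * Real.log (vol (k χ) fun i => σ (a i)) := by
    intro σ χ
    obtain ⟨e1, e2⟩ := hc χ (fun i => σ (a i)) (C₀ * H) ((H : ℝ) ^ (1 - ε)) hρ0 hρR
      (fun i => ha i σ) (fun i j hij => by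
        have h2 := hdif i j hij σ
        have h3 : σ ((a i - a j : 𝓞 K) : K) = σ (a i : K) - σ (a j : K) := by
          simp
        rwa [h3] at h2)
    rw [hlR] at e1 e2
    rw [hlq] at e2
    have e3 : (dm (k χ) * (wt (k χ) / m : ℝ) - dm (k χ) * (dm (k χ) + 1) / 2) = al (k χ) := rfl
    rw [e3] at e1 e2
    have e4 := le_abs_self (al (k χ))
    have e5 := neg_abs_le (al (k χ))
    constructor
    · nlinarith
    · nlinarith
  have hcard : ((univ : Finset (K →+* ℂ)).card : ℝ) = d := by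
    rw [card_univ, Embeddings.card]
  constructor
  · have e1 : (∑ σ : K →+* ℂ, ∑ χ, -(1 / 2) * Real.log (vol (k χ) fun i => σ (a i))) ≤
        ∑ σ : K →+* ℂ, ∑ χ, (al (k χ) * Real.log H + (|al (k χ)| * Real.log C₀ + c χ)) :=
      sum_le_sum fun σ _ => sum_le_sum fun χ _ => (key σ χ).1
    refine e1.trans ?_
    rw [sum_const, nsmul_eq_mul, hcard, sum_add_distrib, sum_add_distrib, ← sum_mul, ← sum_mul]
    have e2 : 0 ≤ (d : ℝ) * (D * Real.log C₀) := by positivity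
    nlinarith
  · have e1 : ∑ σ : K →+* ℂ, ∑ χ, (al (k χ) * Real.log H -
        (dm (k χ) * (wt (k χ) / m : ℝ)) * (Real.log C₀ + ε * Real.log H) -
        (|al (k χ)| * Real.log C₀ + c χ)) ≤
        (∑ σ : K →+* ℂ, ∑ χ, -(1 / 2) * Real.log (vol (k χ) fun i => σ (a i))) :=
      sum_le_sum fun σ _ => sum_le_sum fun χ _ => (key σ χ).2
    refine le_trans (le_of_eq ?_) e1
    rw [sum_const, nsmul_eq_mul, hcard, sum_sub_distrib, sum_sub_distrib, sum_add_distrib,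
      ← sum_mul, ← sum_mul, ← sum_mul]
    ring

/-- the number of pairs in terms of the characters -/
theorem sum_cx (r : ℕ) : (((∑ χ, cx r (k χ) : ℕ)) : ℝ) = ∑ p ∈ prs n,
    ((∑ χ, if (k χ p.1 ≠ 0 ∧ k χ p.2 ≠ 0) ∧ r ≤ rk (k χ) then 1 else 0 : ℕ) : ℝ) := by
  have h1 : ∑ χ, cx r (k χ) = ∑ p ∈ prs n,
    (∑ χ, if (k χ p.1 ≠ 0 ∧ k χ p.2 ≠ 0) ∧ r ≤ rk (k χ) then 1 else 0 : ℕ) := by
    rw [sum_comm]
    exact sum_congr rfl fun χ _ => cx_eq (k χ) r
  rw [h1]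
  push_cast
  rfl

/-- the asymptotics -/
theorem good (K : Type) [Field K] [NumberField K] :
    ∃ E C : ℝ, 0 ≤ E ∧ 0 ≤ C ∧ ∀ (H : ℕ) (ε : ℝ), 1 ≤ H → 0 ≤ ε → ε ≤ 1 →
      ∀ a : Fin n → 𝓞 K, (∀ i, a i ∈ box K H) →
        ¬ Exceptional ((H : ℝ) ^ ε) ((H : ℝ) ^ (1 - ε)) a →
        Function.Injective a ∧
        height k a ≤ (Module.finrank ℚ K * (∑ χ, hx (k χ)) + E * ε) * Real.log H + C ∧
        (Module.finrank ℚ K * (∑ χ, hx (k χ)) - E * ε) * Real.log H - C ≤ height k a ∧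
        (∀ e : X → K, (∀ χ, e χ ≠ 0) →
          (Module.finrank ℚ K * (∑ χ, cx 2 (k χ) : ℕ) - E * ε) * Real.log H - C ≤
            Real.log (cond k a e)) ∧
        Real.log (cond k a (1 : X → K)) ≤
          Module.finrank ℚ K * (∑ χ, cx 1 (k χ) : ℕ) * Real.log H + C ∧
        (Module.finrank ℚ K * (∑ χ, cx 1 (k χ) : ℕ) - E * ε) * Real.log H - C ≤
          Real.log (cond k a (1 : X → K)) ∧
        0 ≤ exc m a ∧ exc m a ≤ E * ε * Real.log H + C := by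
  classical
  obtain ⟨C₀, hC₀, hsize, -⟩ := Nm_box K
  obtain ⟨E₁, C₁, hE₁, hC₁, harch⟩ := arch_sum (n := n) k K C₀ hC₀
  have hm1 : 1 ≤ m := Nat.one_le_iff_ne_zero.2 (NeZero.ne m)
  have hm0 : ((m : ℕ) : 𝓞 K) ≠ 0 := by
    rw [Nat.cast_ne_zero]
    omega
  set d := Module.finrank ℚ K with hd
  set P : ℝ := (((prs n).card : ℕ) : ℝ) with hP
  set cm : ℝ := Real.log (Nm ((m : ℕ) : 𝓞 K)) with hcm
  have hcm0 : 0 ≤ cm := Real.log_nonneg (by
    exact_mod_cast Nat.one_le_iff_ne_zero.2 (Nm_ne hm0))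
  set cu : ℝ := d * Real.log (2 * C₀) with hcu
  have hcu0 : 0 ≤ cu := mul_nonneg (Nat.cast_nonneg _) (Real.log_nonneg (by linarith))
  set T : Fin n × Fin n → ℝ := fun p => ∑ χ, df (k χ) p with hT
  have hT0 : ∀ p, 0 ≤ T p := fun p => sum_nonneg fun χ _ => df_nonneg _ p
  set w : ℕ → Fin n × Fin n → ℝ := fun r p =>
    ((∑ χ, if (k χ p.1 ≠ 0 ∧ k χ p.2 ≠ 0) ∧ r ≤ rk (k χ) then 1 else 0 : ℕ) : ℝ) with hw
  have hw0 : ∀ r p, 0 ≤ w r p := fun r p => Nat.cast_nonneg _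
  set ST : ℝ := ∑ p ∈ prs n, T p with hST
  have hST0 : 0 ≤ ST := sum_nonneg fun p _ => hT0 p
  set S1 : ℝ := ∑ p ∈ prs n, w 1 p with hS1
  have hS10 : 0 ≤ S1 := sum_nonneg fun p _ => hw0 1 p
  set S2 : ℝ := ∑ p ∈ prs n, w 2 p with hS2
  have hS20 : 0 ≤ S2 := sum_nonneg fun p _ => hw0 2 p
  have hP0 : 0 ≤ P := Nat.cast_nonneg _
  have hd0 : (0 : ℝ) ≤ d := Nat.cast_nonneg _
  have hhx : ∑ χ, hx (k χ) = ∑ χ, al (k χ) - ST := by
    simp only [hx_al]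
    rw [sum_sub_distrib]
    congr 1
    rw [hST, hT]
    simp only
    rw [sum_comm]
  set e₀ : ℝ := d + 3 + P with he₀
  refine ⟨E₁ + (ST + S1 + S2 + P) * e₀, C₁ + (ST + S1 + S2 + P) * (cm + cu), by positivity,
    by positivity, fun H ε hH hε0 hε1 a ha hexc => ?_⟩
  have hHR : (1 : ℝ) ≤ H := by exact_mod_cast hH
  have hH0 : (0 : ℝ) < H := by linarith
  set L := Real.log H with hL
  have hL0 : 0 ≤ L := Real.log_nonneg hHR
  have hεL : 0 ≤ ε * L := mul_nonneg hε0 hL0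
  have hR0 : (0 : ℝ) < (H : ℝ) ^ (1 - ε) := by positivity
  have hY1 : (1 : ℝ) ≤ (H : ℝ) ^ ε := Real.one_le_rpow hHR hε0
  have hdif : Dif a := fun q hq => exceptional_ne hR0.le hexc hq
  have hbig : ∀ p ∈ prs n, ∀ σ : K →+* ℂ,
      (H : ℝ) ^ (1 - ε) ≤ ‖σ ((a p.1 - a p.2 : 𝓞 K) : K)‖ := by
    intro p hp σ
    by_contra hcon
    exact hexc (Or.inl ⟨p, hp, σ, (not_le.1 hcon).le⟩)
  have hbig' : ∀ i j, i ≠ j → ∀ σ : K →+* ℂ,
      (H : ℝ) ^ (1 - ε) ≤ ‖σ ((a i - a j : 𝓞 K) : K)‖ := by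
    intro i j hij σ
    rcases lt_or_gt_of_ne hij with h1 | h1
    · exact hbig (i, j) (by unfold prs; simpa using h1) σ
    · have h2 := hbig (j, i) (by unfold prs; simpa using h1) σ
      have h3 : ((a i - a j : 𝓞 K) : K) = -((a j - a i : 𝓞 K) : K) := by
        rw [← neg_sub (a j) (a i)]
        simp
      rw [h3, map_neg, norm_neg]
      exact h2
  -- norms
  have hNlow : ∀ p ∈ prs n, (d : ℝ) * (1 - ε) * L ≤ Real.log (Nm (a p.1 - a p.2)) := by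
    intro p hp
    have e1 : ((H : ℝ) ^ (1 - ε)) ^ d ≤ Nm (a p.1 - a p.2) := by
      rw [Nm_emb, hd, ← Embeddings.card K ℂ, ← card_univ, ← prod_const]
      exact prod_le_prod (fun _ _ => hR0.le) fun σ _ => hbig p hp σ
    have e2 := Real.log_le_log (by positivity) e1
    rw [Real.log_pow, Real.log_rpow hH0] at e2
    linarith
  have hNup : ∀ p ∈ prs n, Real.log (Nm (a p.1 - a p.2)) ≤ d * L + cu := by
    intro p hp
    have e0 : (0 : ℝ) < Nm (a p.1 - a p.2) := by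
      exact_mod_cast Nat.pos_of_ne_zero (Nm_ne (hdif p hp))
    have e1 : (Nm (a p.1 - a p.2) : ℝ) ≤ (2 * C₀ * H) ^ d := by
      rw [Nm_emb, hd, ← Embeddings.card K ℂ, ← card_univ, ← prod_const]
      refine prod_le_prod (fun _ _ => norm_nonneg _) fun σ _ => ?_
      have e2 : σ ((a p.1 - a p.2 : 𝓞 K) : K) = σ (a p.1 : K) - σ (a p.2 : K) := by
        simp
      rw [e2]
      refine (norm_sub_le _ _).trans ?_
      have e3 := hsize H (a p.1) (ha _) σ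
      have e4 := hsize H (a p.2) (ha _) σ
      linarith
    have e2 := Real.log_le_log e0 e1
    rw [Real.log_pow, Real.log_mul (by positivity) hH0.ne'] at e2
    rw [hcu]
    linarith
  have hLlow : ∀ p ∈ prs n, (d : ℝ) * L - e₀ * (ε * L) - cm ≤ Lp m hdif p := by
    intro p hp
    have e1 := le_Lp (m := m) hm1 hY1 hR0.le hexc hdif hp
    have e2 := hNlow p hp
    rw [Real.log_rpow hH0] at e1
    rw [he₀]
    nlinarith
  have hLup : ∀ p ∈ prs n, Lp m hdif p ≤ d * L + cu := fun p hp =>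
    (Lp_le hdif hp).trans (hNup p hp)
  obtain ⟨ar1, ar2⟩ := harch H ε hH hε0 hε1 a (fun i σ => hsize H (a i) (ha i) σ) hbig'
  have hTlow : ST * ((d : ℝ) * L - e₀ * (ε * L) - cm) ≤ ∑ p ∈ prs n, T p * Lp m hdif p := by
    rw [hST, sum_mul]
    exact sum_le_sum fun p hp => mul_le_mul_of_nonneg_left (hLlow p hp) (hT0 p)
  have hTup : ∑ p ∈ prs n, T p * Lp m hdif p ≤ ST * (d * L + cu) := by
    rw [hST, sum_mul]
    exact sum_le_sum fun p hp => mul_le_mul_of_nonneg_left (hLup p hp) (hT0 p)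
  have hheq := height_eq k hdif
  have he₀0 : 0 ≤ e₀ := by positivity
  refine ⟨hdif.inj, ?_, ?_, ?_, ?_, ?_, ?_, ?_⟩
  · rw [hheq, hhx]
    have e1 : 0 ≤ (S1 + S2 + P) * e₀ * (ε * L) := by positivity
    have e2 : 0 ≤ (S1 + S2 + P) * cm + (ST + S1 + S2 + P) * cu := by positivity
    have e3 : 0 ≤ E₁ * (ε * L) := by positivity
    linarith [hTlow, ar1]
  · rw [hheq, hhx]
    have e1 : 0 ≤ (ST + S1 + S2 + P) * e₀ * (ε * L) := by positivity
    have e2 : 0 ≤ (ST + S1 + S2 + P) * cm + (S1 + S2 + P) * cu := by positivity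
    linarith [hTup, ar2]
  · intro e he
    refine le_trans ?_ (log_cond_ge k hdif he)
    have e0 : S2 * ((d : ℝ) * L - e₀ * (ε * L) - cm) ≤ ∑ p ∈ prs n, w 2 p * Lp m hdif p := by
      rw [hS2, sum_mul]
      exact sum_le_sum fun p hp => mul_le_mul_of_nonneg_left (hLlow p hp) (hw0 2 p)
    rw [sum_cx k 2]
    have e1 : 0 ≤ (ST + S1 + P) * e₀ * (ε * L) := by positivity
    have e2 : 0 ≤ (ST + S1 + P) * cm + (ST + S1 + S2 + P) * cu := by positivity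
    have e3 : 0 ≤ E₁ * (ε * L) := by positivity
    have e4 : (∑ p ∈ prs n, ((∑ χ, if (k χ p.1 ≠ 0 ∧ k χ p.2 ≠ 0) ∧ 2 ≤ rk (k χ) then 1 else 0 :
      ℕ) : ℝ)) = S2 := rfl
    rw [e4]
    refine le_trans ?_ e0
    linarith
  · rw [log_cond_one k hdif, sum_cx k 1]
    have e0 : ∑ p ∈ prs n, w 1 p * Lp m hdif p ≤ S1 * (d * L + cu) := by
      rw [hS1, sum_mul]
      exact sum_le_sum fun p hp => mul_le_mul_of_nonneg_left (hLup p hp) (hw0 1 p)
    have e4 : (∑ p ∈ prs n, ((∑ χ, if (k χ p.1 ≠ 0 ∧ k χ p.2 ≠ 0) ∧ 1 ≤ rk (k χ) then 1 else 0 :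
      ℕ) : ℝ)) = S1 := rfl
    rw [e4]
    refine e0.trans ?_
    have e2 : 0 ≤ (ST + S1 + S2 + P) * cm + (ST + S2 + P) * cu :=
      add_nonneg (mul_nonneg (by linarith) hcm0) (mul_nonneg (by linarith) hcu0)
    linarith
  · rw [log_cond_one k hdif, sum_cx k 1]
    have e0 : S1 * ((d : ℝ) * L - e₀ * (ε * L) - cm) ≤ ∑ p ∈ prs n, w 1 p * Lp m hdif p := by
      rw [hS1, sum_mul]
      exact sum_le_sum fun p hp => mul_le_mul_of_nonneg_left (hLlow p hp) (hw0 1 p)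
    have e1 : 0 ≤ (ST + S2 + P) * e₀ * (ε * L) := by positivity
    have e2 : 0 ≤ (ST + S2 + P) * cm + (ST + S1 + S2 + P) * cu := by positivity
    have e3 : 0 ≤ E₁ * (ε * L) := by positivity
    have e4 : (∑ p ∈ prs n, ((∑ χ, if (k χ p.1 ≠ 0 ∧ k χ p.2 ≠ 0) ∧ 1 ≤ rk (k χ) then 1 else 0 :
      ℕ) : ℝ)) = S1 := rfl
    rw [e4]
    refine le_trans ?_ e0
    linarith
  · rw [exc_eq hdif, sub_nonneg]
    exact sum_le_sum fun p hp => Lp_le hdif hp
  · rw [exc_eq hdif]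
    have e0 : ∑ p ∈ prs n, Real.log (Nm (a p.1 - a p.2)) ≤
        ∑ p ∈ prs n, (Lp m hdif p + ((3 + P) * (ε * L) + cm)) := by
      refine sum_le_sum fun p hp => ?_
      have e1 := le_Lp (m := m) hm1 hY1 hR0.le hexc hdif hp
      rw [Real.log_rpow hH0] at e1
      exact e1
    rw [sum_add_distrib, sum_const, nsmul_eq_mul] at e0
    have e1 : 0 ≤ ((ST + S1 + S2) * e₀ + P * d) * (ε * L) := by positivity
    have e2 : 0 ≤ (ST + S1 + S2) * cm + (ST + S1 + S2 + P) * cu := by positivity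
    have e3 : 0 ≤ E₁ * (ε * L) := by positivity
    have e5 : (E₁ + (ST + S1 + S2 + P) * e₀) * ε * L = E₁ * (ε * L) +
      (ST + S1 + S2) * e₀ * (ε * L) + P * d * (ε * L) + P * (3 + P) * (ε * L) := by
      rw [he₀]
      ring
    rw [e5]
    linarith

end Pool.Agent.H433.AC
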