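import Pool.Agent.H433.AC.RelDef

/-!
The relative height: places and sums.
-/

set_option autoImplicit false
set_option linter.unusedSectionVars false

open NumberField IsDedekindDomain Finset

namespace Pool.Agent.H433.AC

variable {K : Type} [Field K] [NumberField K] {m n : ℕ}

/-- A version of the asymptotics. -/
theorem good2 [NeZero m] {X : Type} [Fintype X] (k : X → Fin n → ZMod m)
    (K : Type) [Field K] [NumberField K] :
    ∃ E C : ℝ, 0 ≤ E ∧ 0 ≤ C ∧ ∀ (H : ℕ) (ε : ℝ), 1 ≤ H → 0 ≤ ε → ε ≤ 1 →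
      ∀ a : Fin n → 𝓞 K, (∀ i, a i ∈ box K H) →
        ¬ Exceptional ((H : ℝ) ^ ε) ((H : ℝ) ^ (1 - ε)) a →
        ∃ h : Dif a,
        (∑ σ : K →+* ℂ, ∑ χ, -(1 / 2) * Real.log (vol (k χ) fun i => σ (a i))) ≤
          Module.finrank ℚ K * (∑ χ, al (k χ)) * Real.log H + C ∧
        Module.finrank ℚ K * (∑ χ, al (k χ)) * Real.log H - E * ε * Real.log H - C ≤
          (∑ σ : K →+* ℂ, ∑ χ, -(1 / 2) * Real.log (vol (k χ) fun i => σ (a i))) ∧
        (∀ p ∈ prs n, (Module.finrank ℚ K : ℝ) * Real.log H - E * ε * Real.log H - C ≤ Lp m h p ∧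
          Lp m h p ≤ Module.finrank ℚ K * Real.log H + C) ∧
        exc m a ≤ E * ε * Real.log H + C := by
  classical
  obtain ⟨C₀, hC₀, hsize, -⟩ := Nm_box K
  obtain ⟨E₁, C₁, hE₁, hC₁, harch⟩ := arch_sum (n := n) k K C₀ hC₀
  have hm1 : 1 ≤ m := Nat.one_le_iff_ne_zero.2 (NeZero.ne m)
  have hm0 : ((m : ℕ) : 𝓞 K) ≠ 0 := by
    rw [Nat.cast_ne_zero]
    omega
  set d := Module.finrank ℚ K with hd
  set P : ℝ := (((prs n).card : ℕ) : ℝ) with hP
  set cm : ℝ := Real.log (Nm ((m : ℕ) : 𝓞 K)) with hcm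
  have hcm0 : 0 ≤ cm := Real.log_nonneg (by
    exact_mod_cast Nat.one_le_iff_ne_zero.2 (Nm_ne hm0))
  set cu : ℝ := d * Real.log (2 * C₀) with hcu
  have hcu0 : 0 ≤ cu := mul_nonneg (Nat.cast_nonneg _) (Real.log_nonneg (by linarith))
  have hP0 : 0 ≤ P := Nat.cast_nonneg _
  have hd0 : (0 : ℝ) ≤ d := Nat.cast_nonneg _
  set e₀ : ℝ := d + 3 + P with he₀
  have he₀0 : 0 ≤ e₀ := by positivity
  refine ⟨E₁ + (1 + P) * e₀, C₁ + (1 + P) * (cm + cu), by positivity,
    by positivity, fun H ε hH hε0 hε1 a ha hexc => ?_⟩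
  have hHR : (1 : ℝ) ≤ H := by exact_mod_cast hH
  have hH0 : (0 : ℝ) < H := by linarith
  set L := Real.log H with hL
  have hL0 : 0 ≤ L := Real.log_nonneg hHR
  have hεL : 0 ≤ ε * L := mul_nonneg hε0 hL0
  have hR0 : (0 : ℝ) < (H : ℝ) ^ (1 - ε) := by positivity
  have hY1 : (1 : ℝ) ≤ (H : ℝ) ^ ε := Real.one_le_rpow hHR hε0
  have hdif : Dif a := fun q hq => exceptional_ne hR0.le hexc hq
  have hbig : ∀ p ∈ prs n, ∀ σ : K →+* ℂ,
      (H : ℝ) ^ (1 - ε) ≤ ‖σ ((a p.1 - a p.2 : 𝓞 K) : K)‖ := by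
    intro p hp σ
    by_contra hcon
    exact hexc (Or.inl ⟨p, hp, σ, (not_le.1 hcon).le⟩)
  have hbig' : ∀ i j, i ≠ j → ∀ σ : K →+* ℂ,
      (H : ℝ) ^ (1 - ε) ≤ ‖σ ((a i - a j : 𝓞 K) : K)‖ := by
    intro i j hij σ
    rcases lt_or_gt_of_ne hij with h1 | h1
    · exact hbig (i, j) (by unfold prs; simpa using h1) σ
    · have h2 := hbig (j, i) (by unfold prs; simpa using h1) σ
      have h3 : ((a i - a j : 𝓞 K) : K) = -((a j - a i : 𝓞 K) : K) := by
        rw [← neg_sub (a j) (a i)]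
        simp
      rw [h3, map_neg, norm_neg]
      exact h2
  have hNlow : ∀ p ∈ prs n, (d : ℝ) * (1 - ε) * L ≤ Real.log (Nm (a p.1 - a p.2)) := by
    intro p hp
    have e1 : ((H : ℝ) ^ (1 - ε)) ^ d ≤ Nm (a p.1 - a p.2) := by
      rw [Nm_emb, hd, ← Embeddings.card K ℂ, ← card_univ, ← prod_const]
      exact prod_le_prod (fun _ _ => hR0.le) fun σ _ => hbig p hp σ
    have e2 := Real.log_le_log (by positivity) e1
    rw [Real.log_pow, Real.log_rpow hH0] at e2
    linarith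
  have hNup : ∀ p ∈ prs n, Real.log (Nm (a p.1 - a p.2)) ≤ d * L + cu := by
    intro p hp
    have e0 : (0 : ℝ) < Nm (a p.1 - a p.2) := by
      exact_mod_cast Nat.pos_of_ne_zero (Nm_ne (hdif p hp))
    have e1 : (Nm (a p.1 - a p.2) : ℝ) ≤ (2 * C₀ * H) ^ d := by
      rw [Nm_emb, hd, ← Embeddings.card K ℂ, ← card_univ, ← prod_const]
      refine prod_le_prod (fun _ _ => norm_nonneg _) fun σ _ => ?_
      have e2 : σ ((a p.1 - a p.2 : 𝓞 K) : K) = σ (a p.1 : K) - σ (a p.2 : K) := by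
        simp
      rw [e2]
      refine (norm_sub_le _ _).trans ?_
      have e3 := hsize H (a p.1) (ha _) σ
      have e4 := hsize H (a p.2) (ha _) σ
      linarith
    have e2 := Real.log_le_log e0 e1
    rw [Real.log_pow, Real.log_mul (by positivity) hH0.ne'] at e2
    rw [hcu]
    linarith
  have hLlow : ∀ p ∈ prs n, (d : ℝ) * L - e₀ * (ε * L) - cm ≤ Lp m hdif p := by
    intro p hp
    have e1 := le_Lp (m := m) hm1 hY1 hR0.le hexc hdif hp
    have e2 := hNlow p hp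
    rw [Real.log_rpow hH0] at e1
    rw [he₀]
    nlinarith
  have hLup : ∀ p ∈ prs n, Lp m hdif p ≤ d * L + cu := fun p hp =>
    (Lp_le hdif hp).trans (hNup p hp)
  obtain ⟨ar1, ar2⟩ := harch H ε hH hε0 hε1 a (fun i σ => hsize H (a i) (ha i) σ) hbig'
  have f1 : 0 ≤ (1 + P) * e₀ * (ε * L) := by positivity
  have f2 : 0 ≤ (1 + P) * (cm + cu) := by positivity
  have f3 : 0 ≤ E₁ * (ε * L) := by positivity
  have f4 : 0 ≤ P * e₀ * (ε * L) := by positivity
  have f5 : 0 ≤ P * (cm + cu) := by positivity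
  refine ⟨hdif, ?_, ?_, fun p hp => ⟨?_, ?_⟩, ?_⟩
  · linarith
  · have : E₁ * ε * L ≤ (E₁ + (1 + P) * e₀) * ε * L := by
      have e5 : (E₁ + (1 + P) * e₀) * ε * L = E₁ * ε * L + (1 + P) * e₀ * (ε * L) := by ring
      linarith
    linarith
  · have := hLlow p hp
    have e5 : (E₁ + (1 + P) * e₀) * ε * L = E₁ * (ε * L) + e₀ * (ε * L) + P * e₀ * (ε * L) := by
      ring
    have e6 : (1 + P) * (cm + cu) = cm + cu + P * (cm + cu) := by ring
    linarith
  · have := hLup p hp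
    have e6 : (1 + P) * (cm + cu) = cm + cu + P * (cm + cu) := by ring
    linarith
  · rw [exc_eq hdif]
    have e0 : ∑ p ∈ prs n, Real.log (Nm (a p.1 - a p.2)) ≤
        ∑ p ∈ prs n, (Lp m hdif p + ((3 + P) * (ε * L) + cm)) := by
      refine sum_le_sum fun p hp => ?_
      have e1 := le_Lp (m := m) hm1 hY1 hR0.le hexc hdif hp
      rw [Real.log_rpow hH0] at e1
      exact e1
    rw [sum_add_distrib, sum_const, nsmul_eq_mul] at e0
    have e1 : 0 ≤ (P * d) * (ε * L) := by positivity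
    have e3 : 0 ≤ e₀ * (ε * L) := by positivity
    have e5 : (E₁ + (1 + P) * e₀) * ε * L = E₁ * (ε * L) +
      e₀ * (ε * L) + P * d * (ε * L) + P * (3 + P) * (ε * L) := by
      rw [he₀]
      ring
    rw [e5]
    have e6 : (1 + P) * (cm + cu) = cm + cu + P * (cm + cu) := by ring
    have e7 : 0 ≤ P * cu := by positivity
    linarith

/-! ### orders -/

theorem od_mul (v : HeightOneSpectrum (𝓞 K)) {x y : K} (hx : x ≠ 0) (hy : y ≠ 0) :
    od v (x * y) = od v x + od v y := by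
  unfold od
  have h1 : v.valuation K x ≠ 0 := (Valuation.ne_zero_iff _).2 hx
  have h2 : v.valuation K y ≠ 0 := (Valuation.ne_zero_iff _).2 hy
  rw [map_mul, WithZero.log_mul h1 h2]
  ring

theorem od_pow (v : HeightOneSpectrum (𝓞 K)) (x : K) (t : ℕ) :
    od v (x ^ t) = t * od v x := by
  unfold od
  rw [map_pow, WithZero.log_pow]
  simp

theorem od_prod {ι : Type} (v : HeightOneSpectrum (𝓞 K)) (S : Finset ι) (f : ι → K)
    (hf : ∀ i ∈ S, f i ≠ 0) : od v (∏ i ∈ S, f i) = ∑ i ∈ S, od v (f i) := by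
  classical
  induction S using Finset.induction_on with
  | empty => rw [prod_empty, sum_empty, od_one]
  | insert q S hq ih =>
    rw [prod_insert hq, sum_insert hq, od_mul v (hf q (mem_insert_self _ _)) ?_,
      ih fun i hi => hf i (mem_insert_of_mem hi)]
    exact prod_ne_zero_iff.2 fun i hi => hf i (mem_insert_of_mem hi)

/-- the order of an integer is its multiplicity -/
theorem od_int (v : HeightOneSpectrum (𝓞 K)) {x : 𝓞 K} (hx : x ≠ 0) :
    od v (x : K) = mp v x := by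
  unfold od
  have h1 : v.valuation K (x : K) = v.intValuation x := HeightOneSpectrum.valuation_of_algebraMap _ _
  rw [h1]
  have h2 : ∀ t : ℕ, v.intValuation x ≤ WithZero.exp (-(t : ℤ)) ↔ x ∈ v.asIdeal ^ t := fun t =>
    v.intValuation_le_pow_iff_mem x t
  have h0 : v.intValuation x ≠ 0 := v.intValuation_ne_zero x hx
  have h3 : ∀ t : ℕ, (t : ℤ) ≤ -WithZero.log (v.intValuation x) ↔ t ≤ mp v x := by
    intro t
    rw [← le_mp hx t, ← h2 t, ← WithZero.log_le_iff_le_exp h0]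
    omega
  have h4 : 0 ≤ -WithZero.log (v.intValuation x) := by
    have := (h3 0).2 (Nat.zero_le _)
    simpa using this
  obtain ⟨u, hu⟩ := Int.eq_ofNat_of_zero_le h4
  rw [hu]
  have h5 := (h3 u).1 hu.ge
  have h6 := (h3 (mp v x)).2 le_rfl
  rw [hu] at h6
  have h7 : mp v x ≤ u := by exact_mod_cast h6
  exact_mod_cast le_antisymm h5 h7

end Pool.Agent.H433.AC
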