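import Pool.Agent.H433.AC.Rel1
import Mathlib.Data.FunLike.Fintype

/-!
The relative height: the difference of the height and of the conductor as a sum over places.
-/

set_option autoImplicit false
set_option linter.unusedSectionVars false

open NumberField IsDedekindDomain Finset

namespace Pool.Agent.H433.AC

variable {K : Type} [Field K] [NumberField K] {m n : ℕ}

/-- the places which do not divide `m` and are neither ordinary nor simple -/
def Other (m : ℕ) (a : Fin n → 𝓞 K) (v : HeightOneSpectrum (𝓞 K)) : Prop :=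
  (m : 𝓞 K) ∉ v.asIdeal ∧ ¬ Ordinary m a v ∧ ∀ p ∈ prs n, ¬ Simple m a p v

theorem exists_mem {a : Fin n → 𝓞 K} {v : HeightOneSpectrum (𝓞 K)} (hm : (m : 𝓞 K) ∉ v.asIdeal)
    (hv : ¬ Ordinary m a v) : ∃ p ∈ prs n, a p.1 - a p.2 ∈ v.asIdeal := by
  unfold Ordinary at hv
  push Not at hv
  exact hv hm

open Classical in
theorem exc_other {a : Fin n → 𝓞 K} (h : Dif a) (W : Finset (HeightOneSpectrum (𝓞 K)))
    (hW : Vf h ⊆ W) :
    ∑ v ∈ W, (if Other m a v then Real.log (nv v) else 0) ≤ exc m a := by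
  have h1 : ∑ v ∈ W, (if Other m a v then Real.log (nv v) else 0) =
      ∑ v ∈ Vf h, (if Other m a v then Real.log (nv v) else 0) := by
    symm
    refine sum_subset hW fun v _ hv => ?_
    rw [if_neg]
    rintro ⟨e1, e2, -⟩
    obtain ⟨p, hp, hpv⟩ := exists_mem e1 e2
    exact hv (mem_Vf h hp hpv)
  rw [h1, exc_eq h]
  have h2 : ∀ p ∈ prs n, Real.log (Nm (a p.1 - a p.2)) =
      ∑ v ∈ Vf h, (mp v (a p.1 - a p.2) : ℝ) * Real.log (nv v) := by
    intro p hp
    rw [Nm_prod (h p hp) (Vf h) fun v hv => mem_Vf h hp hv]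
    push_cast
    rw [Real.log_prod]
    · exact sum_congr rfl fun v _ => Real.log_pow _ _
    · intro v _
      have := one_lt_nv v
      positivity
  rw [sum_congr rfl h2]
  unfold Lp
  rw [← sum_sub_distrib]
  simp only [← sum_sub_distrib]
  rw [sum_comm]
  refine sum_le_sum fun v _ => ?_
  have h0 := log_nv_pos v
  have h3 : ∀ p ∈ prs n, 0 ≤ (mp v (a p.1 - a p.2) : ℝ) * Real.log (nv v) -
      (if Simple m a p v then Real.log (nv v) else 0) := by
    intro p hp
    split_ifs with hs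
    · have h1 : 1 ≤ mp v (a p.1 - a p.2) := (mem_iff_mp (h p hp)).1 hs.2.1
      have h2 : (1 : ℝ) ≤ mp v (a p.1 - a p.2) := by exact_mod_cast h1
      nlinarith
    · rw [sub_zero]
      positivity
  split_ifs with ho
  · obtain ⟨e1, e2, e3⟩ := ho
    obtain ⟨p, hp, hpv⟩ := exists_mem e1 e2
    refine le_trans ?_ (single_le_sum h3 hp)
    rw [if_neg (e3 p hp), sub_zero]
    have h1 : 1 ≤ mp v (a p.1 - a p.2) := (mem_iff_mp (h p hp)).1 hpv
    have h2 : (1 : ℝ) ≤ mp v (a p.1 - a p.2) := by exact_mod_cast h1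
    nlinarith
  · exact sum_nonneg h3

variable {X : Type} [AddCommGroup X] [Fintype X] [NeZero m] (k : X →+ (Fin n → ZMod m))

open Classical in
/-- the contribution of a place to the relative height -/
noncomputable def hv (k : X →+ (Fin n → ZMod m)) (a : Fin n → 𝓞 K) (e : X → K)
    (v : HeightOneSpectrum (𝓞 K)) : ℝ :=
  (if (m : 𝓞 K) ∈ v.asIdeal then 0 else ∑ χ, jg (k χ) (od v (e χ) : ZMod m)) -
    ∑ p ∈ prs n, if Simple m a p v then ∑ χ, (bd (k χ) (od v (e χ) : ZMod m) p : ℝ) else 0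

/-- the archimedean part of the height -/
noncomputable def arc (k : X → (Fin n → ZMod m)) (a : Fin n → 𝓞 K) : ℝ :=
  ∑ σ : K →+* ℂ, ∑ χ, -(1 / 2) * Real.log (vol (k χ) fun i => σ (a i))

theorem relHeight_def (a : Fin n → 𝓞 K) (e : X → K) : relHeight k a e =
    arc k a + ∑ᶠ v : HeightOneSpectrum (𝓞 K), hv k a e v * Real.log (nv v) := rfl

theorem jg_zero (k : Fin n → ZMod m) : jg k 0 = 0 := by
  unfold jg
  simp

theorem jg_nonneg (k : Fin n → ZMod m) (r : ZMod m) : 0 ≤ jg k r := by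
  unfold jg
  positivity

theorem jg_le (k : Fin n → ZMod m) (r : ZMod m) : jg k r ≤ dm k := by
  unfold jg
  have h1 : (r.val : ℝ) / m ≤ 1 := by
    rw [div_le_one (by exact_mod_cast NeZero.pos m)]
    exact_mod_cast (ZMod.val_lt r).le
  have h2 : (0 : ℝ) ≤ dm k := Nat.cast_nonneg _
  nlinarith

open Classical in
/-- the finite set of the places which contribute -/
noncomputable def Ws {a : Fin n → 𝓞 K} (h : Dif a) {e : X → K} (he : ∀ χ, e χ ≠ 0) :
    Finset (HeightOneSpectrum (𝓞 K)) :=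
  (Set.finite_iUnion fun χ => finite_od (he χ)).toFinset ∪ Vf h

theorem not_mem_Ws {a : Fin n → 𝓞 K} (h : Dif a) {e : X → K} (he : ∀ χ, e χ ≠ 0)
    {v : HeightOneSpectrum (𝓞 K)} (hv : v ∉ Ws h he) :
    (∀ χ, od v (e χ) = 0) ∧ v ∉ Vf h := by
  classical
  unfold Ws at hv
  rw [mem_union, Set.Finite.mem_toFinset, not_or] at hv
  refine ⟨fun χ => ?_, hv.2⟩
  by_contra hne
  exact hv.1 (Set.mem_iUnion.2 ⟨χ, hne⟩)

theorem hv_zero {a : Fin n → 𝓞 K} (h : Dif a) {e : X → K} {v : HeightOneSpectrum (𝓞 K)}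
    (h1 : ∀ χ, od v (e χ) = 0) (h2 : v ∉ Vf h) : hv k a e v = 0 := by
  classical
  unfold hv
  have h3 : (∑ p ∈ prs n, if Simple m a p v then
      ∑ χ, (bd (k χ) (od v (e χ) : ZMod m) p : ℝ) else 0) = 0 := by
    refine sum_eq_zero fun p hp => ?_
    rw [if_neg]
    intro hs
    exact h2 (mem_Vf h hp hs.2.1)
  rw [h3, sub_zero]
  split_ifs
  · rfl
  · refine sum_eq_zero fun χ _ => ?_
    rw [h1, Int.cast_zero, jg_zero]

theorem expo_zero {a : Fin n → 𝓞 K} (h : Dif a) {e : X → K} {v : HeightOneSpectrum (𝓞 K)}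
    (h1 : ∀ χ, od v (e χ) = 0) (h2 : v ∉ Vf h) : expo k a e v = 0 := by
  classical
  unfold expo
  have g4 : ∑ p ∈ prs n, (if Simple m a p v then ∑ χ, fs (k χ) (od v (e χ) : ZMod m) p else 0) =
      0 := by
    refine sum_eq_zero fun p hp => ?_
    rw [if_neg]
    intro hs
    exact h2 (mem_Vf h hp hs.2.1)
  rw [g4, add_zero]
  split_ifs
  · refine sum_eq_zero fun χ _ => ?_
    unfold fg
    rw [h1 χ]
    simp
  · rfl

/-- the height as a finite sum -/
theorem relHeight_eq {a : Fin n → 𝓞 K} (h : Dif a) {e : X → K} (he : ∀ χ, e χ ≠ 0) :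
    relHeight k a e = arc k a + ∑ v ∈ Ws h he, hv k a e v * Real.log (nv v) := by
  rw [relHeight_def, finsum_eq_sum_of_support_subset (s := Ws h he)]
  intro v hv'
  rw [Function.mem_support] at hv'
  by_contra hcon
  apply hv'
  obtain ⟨h1, h2⟩ := not_mem_Ws h he hcon
  rw [hv_zero k h h1 h2, zero_mul]

theorem cond_eq {a : Fin n → 𝓞 K} (h : Dif a) {e : X → K} (he : ∀ χ, e χ ≠ 0) :
    Real.log (cond k a e) = ∑ v ∈ Ws h he, (expo k a e v : ℝ) * Real.log (nv v) := by
  refine log_cond k h he _ fun v hv' => ?_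
  by_contra hcon
  apply hv'
  obtain ⟨h1, h2⟩ := not_mem_Ws h he hcon
  exact expo_zero k h h1 h2

theorem diff_eq {a : Fin n → 𝓞 K} (h : Dif a) {e : X → K} (he : ∀ χ, e χ ≠ 0) (κ : ℝ) :
    relHeight k a e - κ * Real.log (cond k a e) = arc k a +
      ∑ v ∈ Ws h he, (hv k a e v - κ * expo k a e v) * Real.log (nv v) := by
  rw [relHeight_eq k h he, cond_eq k h he, mul_sum, add_sub_assoc, ← sum_sub_distrib]
  congr 1
  exact sum_congr rfl fun v _ => by ring

/-- the class of a twist at a place -/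
theorem cls {e : X → K} (he : Twist m e) (v : HeightOneSpectrum (𝓞 K)) :
    ∃ φ : X →+ ZMod m, ∀ χ, φ χ = (od v (e χ) : ZMod m) := by
  refine ⟨AddMonoidHom.mk' (fun χ => (od v (e χ) : ZMod m)) fun χ ψ => ?_, fun χ => rfl⟩
  obtain ⟨t, ht⟩ := he.2 χ ψ
  have h1 : t ≠ 0 := by
    rintro rfl
    rw [zero_pow (NeZero.ne m), mul_zero] at ht
    exact he.1 _ ht
  rw [ht, od_mul v (mul_ne_zero (he.1 χ) (he.1 ψ)) (pow_ne_zero _ h1), od_mul v (he.1 χ) (he.1 ψ),
    od_pow]
  push_cast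
  rw [ZMod.natCast_self, zero_mul, add_zero]

/-! ### the four kinds of places -/

theorem not_simple_of_ordinary {a : Fin n → 𝓞 K} {v : HeightOneSpectrum (𝓞 K)}
    (h : Ordinary m a v) {p : Fin n × Fin n} (hp : p ∈ prs n) : ¬ Simple m a p v :=
  fun hs => h.2 p hp hs.2.1

open Classical in
theorem sum_simple_none {a : Fin n → 𝓞 K} {v : HeightOneSpectrum (𝓞 K)} {M : Type}
    [AddCommMonoid M] (c : Fin n × Fin n → M) (h : ∀ p ∈ prs n, ¬ Simple m a p v) :
    ∑ p ∈ prs n, (if Simple m a p v then c p else 0) = 0 :=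
  sum_eq_zero fun p hp => if_neg (h p hp)

open Classical in
theorem sum_simple_one {a : Fin n → 𝓞 K} {v : HeightOneSpectrum (𝓞 K)} {M : Type}
    [AddCommMonoid M] (c : Fin n × Fin n → M) {p : Fin n × Fin n} (hp : p ∈ prs n)
    (h : Simple m a p v) :
    ∑ q ∈ prs n, (if Simple m a q v then c q else 0) = c p := by
  rw [sum_eq_single_of_mem p hp, if_pos h]
  intro q hq hne
  rw [if_neg]
  intro hs
  exact hne (h.2.2.2 q hq hs.2.1)

theorem hv_dvd {a : Fin n → 𝓞 K} {e : X → K} {v : HeightOneSpectrum (𝓞 K)}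
    (h : (m : 𝓞 K) ∈ v.asIdeal) : hv k a e v = 0 := by
  classical
  unfold hv
  rw [if_pos h, sum_simple_none _ fun p _ hs => hs.1 h, sub_zero]

theorem expo_dvd {a : Fin n → 𝓞 K} {e : X → K} {v : HeightOneSpectrum (𝓞 K)}
    (h : (m : 𝓞 K) ∈ v.asIdeal) : expo k a e v = 0 := by
  classical
  unfold expo
  rw [if_neg fun ho => ho.1 h, sum_simple_none _ fun p _ hs => hs.1 h, zero_add]

theorem hv_ordinary {a : Fin n → 𝓞 K} {e : X → K} {v : HeightOneSpectrum (𝓞 K)}
    (h : Ordinary m a v) : hv k a e v = ∑ χ, jg (k χ) (od v (e χ) : ZMod m) := by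
  classical
  unfold hv
  rw [if_neg h.1, sum_simple_none _ fun p hp => not_simple_of_ordinary h hp, sub_zero]

theorem expo_ordinary {a : Fin n → 𝓞 K} {e : X → K} {v : HeightOneSpectrum (𝓞 K)}
    (h : Ordinary m a v) : expo k a e v = ∑ χ, fg (k χ) (od v (e χ) : ZMod m) := by
  classical
  unfold expo
  rw [if_pos h, sum_simple_none _ fun p hp => not_simple_of_ordinary h hp, add_zero]

theorem hv_simple {a : Fin n → 𝓞 K} {e : X → K} {v : HeightOneSpectrum (𝓞 K)}
    {p : Fin n × Fin n} (hp : p ∈ prs n) (h : Simple m a p v) :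
    hv k a e v = ∑ χ, js (k χ) (od v (e χ) : ZMod m) p := by
  classical
  unfold hv
  rw [if_neg h.1, sum_simple_one _ hp h, ← sum_sub_distrib]
  rfl

theorem expo_simple {a : Fin n → 𝓞 K} {e : X → K} {v : HeightOneSpectrum (𝓞 K)}
    {p : Fin n × Fin n} (hp : p ∈ prs n) (h : Simple m a p v) :
    expo k a e v = ∑ χ, fs (k χ) (od v (e χ) : ZMod m) p := by
  classical
  unfold expo
  rw [if_neg fun ho => not_simple_of_ordinary ho hp h, sum_simple_one _ hp h, zero_add]

theorem hv_other {a : Fin n → 𝓞 K} {e : X → K} {v : HeightOneSpectrum (𝓞 K)}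
    (h : Other m a v) : hv k a e v = ∑ χ, jg (k χ) (od v (e χ) : ZMod m) := by
  classical
  unfold hv
  rw [if_neg h.1, sum_simple_none _ h.2.2, sub_zero]

theorem expo_other {a : Fin n → 𝓞 K} {e : X → K} {v : HeightOneSpectrum (𝓞 K)}
    (h : Other m a v) : expo k a e v = 0 := by
  classical
  unfold expo
  rw [if_neg h.2.1, sum_simple_none _ h.2.2, zero_add]

/-- the four kinds -/
theorem kinds (m : ℕ) (a : Fin n → 𝓞 K) (v : HeightOneSpectrum (𝓞 K)) :
    (m : 𝓞 K) ∈ v.asIdeal ∨ Ordinary m a v ∨ (∃ p ∈ prs n, Simple m a p v) ∨ Other m a v := by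
  by_cases h1 : (m : 𝓞 K) ∈ v.asIdeal
  · exact Or.inl h1
  · by_cases h2 : Ordinary m a v
    · exact Or.inr (Or.inl h2)
    · by_cases h3 : ∃ p ∈ prs n, Simple m a p v
      · exact Or.inr (Or.inr (Or.inl h3))
      · push Not at h3
        exact Or.inr (Or.inr (Or.inr ⟨h1, h2, h3⟩))

instance finite_hom : Finite (X →+ ZMod m) := DFunLike.finite _

theorem le_gain (κ : ℝ) (p : Fin n × Fin n) (φ : X →+ ZMod m) :
    ∑ χ, (js (k χ) (φ χ) p - κ * fs (k χ) (φ χ) p) ≤ gain k κ p :=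
  le_ciSup (f := fun φ : X →+ ZMod m => ∑ χ, (js (k χ) (φ χ) p - κ * fs (k χ) (φ χ) p))
    (Set.finite_range _).bddAbove φ

theorem exists_gain (κ : ℝ) (p : Fin n × Fin n) :
    ∃ φ : X →+ ZMod m, ∑ χ, (js (k χ) (φ χ) p - κ * fs (k χ) (φ χ) p) = gain k κ p :=
  exists_eq_ciSup_of_finite

open Classical in
/-- sums over the simple places -/
theorem sum_Lp {a : Fin n → 𝓞 K} (h : Dif a) (W : Finset (HeightOneSpectrum (𝓞 K)))
    (hW : Vf h ⊆ W) (c : Fin n × Fin n → ℝ) :
    ∑ v ∈ W, (∑ p ∈ prs n, if Simple m a p v then c p else 0) * Real.log (nv v) =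
      ∑ p ∈ prs n, c p * Lp m h p := by
  have h1 : ∀ p ∈ prs n, c p * Lp m h p =
      ∑ v ∈ W, (if Simple m a p v then c p else 0) * Real.log (nv v) := by
    intro p hp
    unfold Lp
    rw [mul_sum]
    refine (sum_subset hW fun v _ hv => ?_).trans (sum_congr rfl fun v _ => ?_)
    · rw [if_neg, mul_zero]
      intro hs
      exact hv (mem_Vf h hp hs.2.1)
    · split_ifs
      · rfl
      · rw [mul_zero, zero_mul]
  rw [sum_congr rfl h1, sum_comm]
  exact sum_congr rfl fun v _ => by rw [sum_mul]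

theorem Vf_Ws {a : Fin n → 𝓞 K} (h : Dif a) {e : X → K} (he : ∀ χ, e χ ≠ 0) :
    Vf h ⊆ Ws h he := by
  classical
  unfold Ws
  exact subset_union_right

/-- the upper bound for all twists -/
theorem rel_le {a : Fin n → 𝓞 K} (h : Dif a) {e : X → K} (he : Twist m e) {κ : ℝ}
    (hκ : ∀ φ : X →+ ZMod m, ∑ χ, jg (k χ) (φ χ) ≤ κ * ∑ χ, (fg (k χ) (φ χ) : ℝ)) :
    relHeight k a e ≤ κ * Real.log (cond k a e) + (arc k a + ∑ p ∈ prs n, gain k κ p * Lp m h p +
      (∑ χ, (dm (k χ) : ℝ)) * exc m a) := by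
  classical
  set D : ℝ := ∑ χ, (dm (k χ) : ℝ) with hD
  have hD0 : 0 ≤ D := sum_nonneg fun χ _ => Nat.cast_nonneg _
  have h1 := diff_eq k h he.1 κ
  have h2 : ∑ v ∈ Ws h he.1, (hv k a e v - κ * expo k a e v) * Real.log (nv v) ≤
      ∑ v ∈ Ws h he.1, ((∑ p ∈ prs n, if Simple m a p v then gain k κ p else 0) *
        Real.log (nv v) + D * (if Other m a v then Real.log (nv v) else 0)) := by
    refine sum_le_sum fun v _ => ?_
    have h0 := log_nv_pos v
    obtain ⟨φ, hφ⟩ := cls he v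
    rcases kinds m a v with hk | hk | ⟨p, hp, hk⟩ | hk
    · rw [hv_dvd k hk, expo_dvd k hk, sum_simple_none _ fun p _ hs => hs.1 hk,
        if_neg fun ho => ho.1 hk]
      simp
    · rw [hv_ordinary k hk, expo_ordinary k hk,
        sum_simple_none _ fun p hp => not_simple_of_ordinary hk hp, if_neg fun ho => ho.2.1 hk]
      have := hκ φ
      simp only [hφ] at this
      push_cast
      nlinarith
    · rw [hv_simple k hp hk, expo_simple k hp hk, sum_simple_one _ hp hk,
        if_neg fun ho => ho.2.2 p hp hk, mul_zero, add_zero]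
      refine mul_le_mul_of_nonneg_right ?_ h0.le
      have := le_gain k κ p φ
      simp only [hφ] at this
      rw [sum_sub_distrib, ← mul_sum] at this
      push_cast
      exact this
    · rw [hv_other k hk, expo_other k hk, sum_simple_none _ hk.2.2, if_pos hk]
      have : ∑ χ, jg (k χ) (od v (e χ) : ZMod m) ≤ D := sum_le_sum fun χ _ => jg_le _ _
      push_cast
      nlinarith
  rw [sum_add_distrib, sum_Lp h _ (Vf_Ws h he.1), ← mul_sum] at h2
  have h3 := mul_le_mul_of_nonneg_left (exc_other (m := m) h _ (Vf_Ws h he.1)) hD0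
  linarith

end Pool.Agent.H433.AC
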