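import Pool.Agent.H433.AC.Rel2
import Mathlib.NumberTheory.NumberField.ClassNumber

/-!
The relative height: twists with a large height.
-/

set_option autoImplicit false
set_option linter.unusedSectionVars false

open NumberField IsDedekindDomain Finset

namespace Pool.Agent.H433.AC

variable {K : Type} [Field K] [NumberField K] {m n : ℕ}
variable {X : Type} [AddCommGroup X] [Fintype X] [NeZero m] (k : X →+ (Fin n → ZMod m))

theorem fg_zero (k : Fin n → ZMod m) : fg k 0 = 0 := if_pos rfl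

/-- products of powers -/
theorem twist_prod {ι : Type} (S : Finset ι) (x : ι → K) (hx : ∀ i ∈ S, x i ≠ 0)
    (φ : ι → X →+ ZMod m) : Twist m (fun χ : X => ∏ i ∈ S, x i ^ (φ i χ).val) := by
  refine ⟨fun χ => prod_ne_zero_iff.2 fun i hi => pow_ne_zero _ (hx i hi), fun χ ψ => ?_⟩
  refine ⟨∏ i ∈ S, (x i)⁻¹ ^ (((φ i χ).val + (φ i ψ).val) / m), ?_⟩
  simp only
  rw [← prod_pow, ← prod_mul_distrib, ← prod_mul_distrib]
  refine prod_congr rfl fun i hi => ?_
  have h0 := hx i hi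
  rw [map_add, ZMod.val_add, ← pow_add, ← pow_mul]
  have h1 := Nat.div_add_mod ((φ i χ).val + (φ i ψ).val) m
  set t := ((φ i χ).val + (φ i ψ).val) / m
  set r := ((φ i χ).val + (φ i ψ).val) % m
  rw [← h1, pow_add, inv_pow, mul_comm t m]
  field_simp

/-- the order of a product of powers -/
theorem od_twist {ι : Type} (S : Finset ι) (x : ι → 𝓞 K) (hx : ∀ i ∈ S, x i ≠ 0)
    (φ : ι → X →+ ZMod m) (v : HeightOneSpectrum (𝓞 K)) (χ : X) :
    (od v (∏ i ∈ S, ((x i : 𝓞 K) : K) ^ (φ i χ).val) : ZMod m) =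
      ∑ i ∈ S, φ i χ * (mp v (x i) : ZMod m) := by
  rw [od_prod]
  · push_cast
    refine sum_congr rfl fun i hi => ?_
    rw [od_pow, od_int v (hx i hi)]
    push_cast
    rw [ZMod.natCast_zmod_val]
  · intro i hi
    refine pow_ne_zero _ ?_
    intro h0
    exact hx i hi (by exact_mod_cast h0)

theorem mp_eq_zero {v : HeightOneSpectrum (𝓞 K)} {x : 𝓞 K} (hx : x ≠ 0) (h : x ∉ v.asIdeal) :
    mp v x = 0 := by
  rw [mem_iff_mp hx] at h
  omega

theorem mp_eq_one {v : HeightOneSpectrum (𝓞 K)} {x : 𝓞 K} (hx : x ≠ 0) (h : x ∈ v.asIdeal)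
    (h2 : x ∉ v.asIdeal ^ 2) : mp v x = 1 := by
  rw [mem_iff_mp hx] at h
  rw [le_mp hx] at h2
  omega

/-- the twist which is ramified exactly at the simple places -/
theorem rel_ge {a : Fin n → 𝓞 K} (h : Dif a) (κ : ℝ) : ∃ e : X → K, Twist m e ∧
    κ * Real.log (cond k a e) + (arc k a + ∑ p ∈ prs n, gain k κ p * Lp m h p) ≤
      relHeight k a e := by
  classical
  choose φ hφ using fun p : Fin n × Fin n => exists_gain k κ p
  have hne : ∀ p ∈ prs n, ((a p.1 - a p.2 : 𝓞 K) : K) ≠ 0 := by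
    intro p hp h0
    exact h p hp (by exact_mod_cast h0)
  set e : X → K := fun χ => ∏ p ∈ prs n, ((a p.1 - a p.2 : 𝓞 K) : K) ^ (φ p χ).val with he
  have hT : Twist m e := twist_prod (prs n) _ hne φ
  refine ⟨e, hT, ?_⟩
  have hod : ∀ v χ, (od v (e χ) : ZMod m) =
      ∑ p ∈ prs n, φ p χ * (mp v (a p.1 - a p.2) : ZMod m) := fun v χ =>
    od_twist (prs n) _ h φ v χ
  have h1 := diff_eq k h hT.1 κ
  have h2 : ∑ v ∈ Ws h hT.1, (∑ p ∈ prs n, if Simple m a p v then gain k κ p else 0) *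
        Real.log (nv v) ≤
      ∑ v ∈ Ws h hT.1, (hv k a e v - κ * expo k a e v) * Real.log (nv v) := by
    refine sum_le_sum fun v _ => mul_le_mul_of_nonneg_right ?_ (log_nv_pos v).le
    rcases kinds m a v with hk | hk | ⟨p, hp, hk⟩ | hk
    · rw [hv_dvd k hk, expo_dvd k hk, sum_simple_none _ fun p _ hs => hs.1 hk]
      simp
    · rw [hv_ordinary k hk, expo_ordinary k hk,
        sum_simple_none _ fun p hp => not_simple_of_ordinary hk hp]
      have h3 : ∀ χ, (od v (e χ) : ZMod m) = 0 := by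
        intro χ
        rw [hod]
        refine sum_eq_zero fun p hp => ?_
        rw [mp_eq_zero (h p hp) (hk.2 p hp), Nat.cast_zero, mul_zero]
      have h4 : ∑ χ, fg (k χ) (od v (e χ) : ZMod m) = 0 := by
        refine sum_eq_zero fun χ _ => ?_
        rw [h3, fg_zero]
      have h5 : ∑ χ, jg (k χ) (od v (e χ) : ZMod m) = 0 := by
        refine sum_eq_zero fun χ _ => ?_
        rw [h3, jg_zero]
      rw [h4, h5]
      simp
    · rw [hv_simple k hp hk, expo_simple k hp hk, sum_simple_one _ hp hk]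
      have h3 : ∀ χ, (od v (e χ) : ZMod m) = φ p χ := by
        intro χ
        rw [hod, sum_eq_single_of_mem p hp]
        · rw [mp_eq_one (h p hp) hk.2.1 hk.2.2.1, Nat.cast_one, mul_one]
        · intro q hq hne
          rw [mp_eq_zero (h q hq), Nat.cast_zero, mul_zero]
          intro hq2
          exact hne (hk.2.2.2 q hq hq2)
      simp only [h3]
      rw [← hφ p, sum_sub_distrib, ← mul_sum]
      push_cast
      exact le_rfl
    · rw [hv_other k hk, expo_other k hk, sum_simple_none _ hk.2.2]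
      have : 0 ≤ ∑ χ, jg (k χ) (od v (e χ) : ZMod m) := sum_nonneg fun χ _ => jg_nonneg _ _
      simpa using this
  rw [sum_Lp h _ (Vf_Ws h hT.1)] at h2
  linarith

/-! ### ordinary places -/

/-- a place of large norm which does not divide a given integer -/
theorem exists_place {x : 𝓞 K} (hx : x ≠ 0) (N : ℕ) :
    ∃ v : HeightOneSpectrum (𝓞 K), x ∉ v.asIdeal ∧ N ≤ nv v := by
  obtain ⟨q, hq, hqp⟩ := Nat.exists_infinite_primes (max N (Nm x) + 1)
  have hq0 : ((q : ℕ) : 𝓞 K) ≠ 0 := by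
    rw [Nat.cast_ne_zero]
    exact hqp.ne_zero
  have hNq : Nm ((q : ℕ) : 𝓞 K) = q ^ Module.finrank ℚ K := by
    have h1 := Nm_emb ((q : ℕ) : 𝓞 K)
    have h2 : ∀ σ : K →+* ℂ, ‖σ (((q : ℕ) : 𝓞 K) : K)‖ = q := by
      intro σ
      simp
    simp only [h2] at h1
    rw [prod_const, card_univ, Embeddings.card] at h1
    exact_mod_cast h1
  have h1 : Ideal.span {((q : ℕ) : 𝓞 K)} ≠ ⊤ := by
    intro h
    have h2 : Nm ((q : ℕ) : 𝓞 K) = 1 := by
      unfold Nm
      rw [h, Ideal.absNorm_top]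
    rw [hNq] at h2
    have h3 : q = 1 := by
      rcases Nat.pow_eq_one.1 h2 with h3 | h3
      · exact h3
      · exact absurd h3 (Module.finrank_pos (R := ℚ) (M := K)).ne'
    exact hqp.one_lt.ne' h3
  obtain ⟨P, hP, hle⟩ := Ideal.exists_le_maximal _ h1
  have hqP : ((q : ℕ) : 𝓞 K) ∈ P := hle (Ideal.mem_span_singleton_self _)
  have hPb : P ≠ ⊥ := by
    rintro rfl
    rw [Ideal.mem_bot] at hqP
    exact hq0 hqP
  set v : HeightOneSpectrum (𝓞 K) := ⟨P, hP.isPrime, hPb⟩ with hv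
  have hdvd : ∀ y : 𝓞 K, y ∈ v.asIdeal → nv v ∣ Nm y := by
    intro y hy
    unfold nv Nm
    exact Ideal.absNorm_dvd_absNorm_of_le ((Ideal.span_singleton_le_iff_mem _).2 hy)
  have h2 : nv v ∣ q ^ Module.finrank ℚ K := by
    rw [← hNq]
    exact hdvd _ hqP
  obtain ⟨i, _, hi⟩ := (Nat.dvd_prime_pow hqp).1 h2
  have hi0 : i ≠ 0 := by
    rintro rfl
    have := one_lt_nv v
    rw [hi] at this
    simp at this
  have h3 : q ∣ nv v := by
    rw [hi]
    exact dvd_pow_self q hi0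
  refine ⟨v, fun hxv => ?_, ?_⟩
  · have h4 := Nat.le_of_dvd (Nat.pos_of_ne_zero (Nm_ne hx)) (h3.trans (hdvd x hxv))
    omega
  · have h4 := Nat.le_of_dvd (by have := one_lt_nv v; omega) h3
    omega

/-- an element whose ideal is a given place times a small ideal -/
theorem exists_small (K : Type) [Field K] [NumberField K] : ∃ M : ℝ, 1 ≤ M ∧
    ∀ v : HeightOneSpectrum (𝓞 K), ∃ c : 𝓞 K, c ≠ 0 ∧ ∃ I : Ideal (𝓞 K), I ≠ ⊥ ∧
      Ideal.span {c} = v.asIdeal * I ∧ (Ideal.absNorm I : ℝ) ≤ M := by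
  obtain ⟨M₀, hM₀⟩ : ∃ M₀ : ℝ, ∀ C : ClassGroup (𝓞 K),
      ∃ I : nonZeroDivisors (Ideal (𝓞 K)), ClassGroup.mk0 I = C ∧
        (Ideal.absNorm (I : Ideal (𝓞 K)) : ℝ) ≤ M₀ :=
    ⟨_, fun C => exists_ideal_in_class_of_norm_le C⟩
  refine ⟨max 1 M₀, le_max_left _ _, fun v => ?_⟩
  set J : nonZeroDivisors (Ideal (𝓞 K)) :=
    ⟨v.asIdeal, mem_nonZeroDivisors_iff_ne_zero.2 v.ne_bot⟩ with hJ
  obtain ⟨I, hI, hN⟩ := hM₀ (ClassGroup.mk0 J)⁻¹
  have h1 : ClassGroup.mk0 (J * I) = 1 := by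
    rw [map_mul, hI, mul_inv_cancel]
  rw [ClassGroup.mk0_eq_one_iff] at h1
  obtain ⟨c, hc⟩ := h1.principal
  have h2 : Ideal.span {c} = v.asIdeal * (I : Ideal (𝓞 K)) := by
    rw [Ideal.submodule_span_eq] at hc
    rw [← hc]
    rfl
  have hI0 : (I : Ideal (𝓞 K)) ≠ ⊥ := nonZeroDivisors.coe_ne_zero I
  refine ⟨c, ?_, I, hI0, h2, hN.trans (le_max_right _ _)⟩
  rintro rfl
  rw [Ideal.span_singleton_eq_bot.2 rfl] at h2
  rcases Ideal.mul_eq_bot.1 h2.symm with h3 | h3
  · exact v.ne_bot h3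
  · exact hI0 h3

theorem hv_lower {a : Fin n → 𝓞 K} (e : X → K) {κ : ℝ} (hκ : 0 ≤ κ)
    (v : HeightOneSpectrum (𝓞 K)) :
    -((Fintype.card X : ℝ) + κ * ∑ χ, (rk (k χ) : ℝ)) ≤ hv k a e v - κ * expo k a e v := by
  have hR : 0 ≤ ∑ χ, (rk (k χ) : ℝ) := sum_nonneg fun χ _ => Nat.cast_nonneg _
  have hκR : 0 ≤ κ * ∑ χ, (rk (k χ) : ℝ) := mul_nonneg hκ hR
  have hX : (0 : ℝ) ≤ Fintype.card X := Nat.cast_nonneg _
  have hj : 0 ≤ ∑ χ, jg (k χ) (od v (e χ) : ZMod m) := sum_nonneg fun χ _ => jg_nonneg _ _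
  rcases kinds m a v with hk | hk | ⟨p, hp, hk⟩ | hk
  · rw [hv_dvd k hk, expo_dvd k hk]
    push_cast
    linarith
  · rw [hv_ordinary k hk, expo_ordinary k hk]
    have h1 : ((∑ χ, fg (k χ) (od v (e χ) : ZMod m) : ℕ) : ℝ) ≤ ∑ χ, (rk (k χ) : ℝ) := by
      push_cast
      refine sum_le_sum fun χ _ => ?_
      unfold fg
      split_ifs
      · exact_mod_cast Nat.zero_le _
      · exact le_rfl
    have := mul_le_mul_of_nonneg_left h1 hκ
    linarith
  · rw [hv_simple k hp hk, expo_simple k hp hk]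
    have h1 : ((∑ χ, fs (k χ) (od v (e χ) : ZMod m) p : ℕ) : ℝ) ≤ ∑ χ, (rk (k χ) : ℝ) := by
      push_cast
      refine sum_le_sum fun χ _ => ?_
      have : fs (k χ) (od v (e χ) : ZMod m) p ≤ rk (k χ) := by
        unfold fs
        split_ifs <;> omega
      exact_mod_cast this
    have h2 : -(Fintype.card X : ℝ) ≤ ∑ χ, js (k χ) (od v (e χ) : ZMod m) p := by
      have h3 : ∑ χ : X, (-1 : ℝ) ≤ ∑ χ, js (k χ) (od v (e χ) : ZMod m) p := by
        refine sum_le_sum fun χ _ => ?_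
        unfold js
        have h4 := jg_nonneg (k χ) (od v (e χ) : ZMod m)
        have h5 : (bd (k χ) (od v (e χ) : ZMod m) p : ℝ) ≤ 1 := by
          unfold bd
          split_ifs <;> simp
        linarith
      rw [sum_const, card_univ, nsmul_eq_mul, mul_neg, mul_one] at h3
      exact h3
    have := mul_le_mul_of_nonneg_left h1 hκ
    linarith
  · rw [hv_other k hk, expo_other k hk]
    push_cast
    linarith

/-- the sum over a larger set of places -/
theorem diff_eq' {a : Fin n → 𝓞 K} (h : Dif a) {e : X → K} (he : ∀ χ, e χ ≠ 0) (κ : ℝ)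
    (W : Finset (HeightOneSpectrum (𝓞 K))) (hW : Ws h he ⊆ W) :
    relHeight k a e - κ * Real.log (cond k a e) = arc k a +
      ∑ v ∈ W, (hv k a e v - κ * expo k a e v) * Real.log (nv v) := by
  rw [diff_eq k h he κ]
  congr 1
  refine sum_subset hW fun v _ hv' => ?_
  obtain ⟨h1, h2⟩ := not_mem_Ws h he hv'
  rw [hv_zero k h h1 h2, expo_zero k h h1 h2]
  simp

/-- the twists which are ramified at one more ordinary place -/
theorem rel_ord {κ : ℝ} (hκ : 0 ≤ κ) (φ : X →+ ZMod m)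
    (hφ : κ * ∑ χ, (fg (k χ) (φ χ) : ℝ) < ∑ χ, jg (k χ) (φ χ))
    {a : Fin n → 𝓞 K} (h : Dif a) (T : ℝ) :
    ∃ e : X → K, Twist m e ∧ κ * Real.log (cond k a e) + T ≤ relHeight k a e := by
  classical
  obtain ⟨M, hM1, hM⟩ := exists_small K
  set G : ℝ := ∑ χ, jg (k χ) (φ χ) - κ * ∑ χ, (fg (k χ) (φ χ) : ℝ) with hG
  have hG0 : 0 < G := by
    rw [hG]
    linarith
  set R : ℝ := (Fintype.card X : ℝ) + κ * ∑ χ, (rk (k χ) : ℝ) with hR
  have hR0 : 0 ≤ R := by
    have : 0 ≤ ∑ χ, (rk (k χ) : ℝ) := sum_nonneg fun χ _ => Nat.cast_nonneg _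
    positivity
  set V₀ : ℝ := ∑ w ∈ Vf h, Real.log (nv w) with hV₀
  have hm0 : ((m : ℕ) : 𝓞 K) ≠ 0 := by
    rw [Nat.cast_ne_zero]
    exact NeZero.ne m
  obtain ⟨N, hN⟩ := exists_nat_ge (max (M + 1)
    (Real.exp ((|T| + |arc k a| + R * (V₀ + Real.log M)) / G)))
  obtain ⟨v, hvx, hvN⟩ := exists_place (mul_ne_zero hm0 h.prod) N
  have hNv : (N : ℝ) ≤ nv v := by exact_mod_cast hvN
  have hvM : M + 1 ≤ nv v := (le_max_left _ _).trans (hN.trans hNv)
  have hvG : (|T| + |arc k a| + R * (V₀ + Real.log M)) / G ≤ Real.log (nv v) := by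
    have h1 := (le_max_right _ _).trans (hN.trans hNv)
    have h2 := Real.log_le_log (Real.exp_pos _) h1
    rwa [Real.log_exp] at h2
  rw [div_le_iff₀ hG0] at hvG
  have hvm : ((m : ℕ) : 𝓞 K) ∉ v.asIdeal := fun h1 => hvx (Ideal.mul_mem_right _ _ h1)
  have hvo : Ordinary m a v := by
    refine ⟨hvm, fun q hq hqv => hvx (Ideal.mul_mem_left _ _ ?_)⟩
    exact Ideal.mem_of_dvd _ (dvd_prod_of_mem _ hq) hqv
  obtain ⟨c, hc0, I, hI0, hcI, hIN⟩ := hM v
  have hIN0 : 0 < Ideal.absNorm I := by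
    refine Nat.pos_of_ne_zero ?_
    rw [Ne, Ideal.absNorm_eq_zero_iff]
    exact hI0
  -- the multiplicity of `v`
  have hvI : ¬ v.asIdeal ∣ I := by
    intro hd
    have h1 := Nat.le_of_dvd hIN0 (Ideal.absNorm_dvd_absNorm_of_le (Ideal.le_of_dvd hd))
    have h2 : (nv v : ℝ) ≤ Ideal.absNorm I := by exact_mod_cast h1
    linarith
  have hmpv : mp v c = 1 := by
    refine mp_eq_one hc0 ?_ ?_
    · rw [← Ideal.dvd_span_singleton, hcI]
      exact dvd_mul_right _ _
    · intro h2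
      rw [← Ideal.dvd_span_singleton, hcI, pow_two] at h2
      exact hvI ((mul_dvd_mul_iff_left v.ne_bot).1 h2)
  have hcK : ((c : 𝓞 K) : K) ≠ 0 := by
    intro h0
    exact hc0 (by exact_mod_cast h0)
  set e : X → K := fun χ => ∏ i ∈ ({0} : Finset ℕ), ((c : 𝓞 K) : K) ^ (φ χ).val with he
  have hT : Twist m e := twist_prod {0} (fun _ => ((c : 𝓞 K) : K)) (fun _ _ => hcK) fun _ => φ
  refine ⟨e, hT, ?_⟩
  have hod : ∀ w χ, (od w (e χ) : ZMod m) = φ χ * (mp w c : ZMod m) := by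
    intro w χ
    have := od_twist (m := m) ({0} : Finset ℕ) (fun _ => c) (fun _ _ => hc0) (fun _ => φ) w χ
    rw [sum_singleton] at this
    exact this
  set S : Finset (HeightOneSpectrum (𝓞 K)) := (finite_mem hc0).toFinset.erase v with hS
  have hSI : ∑ w ∈ S, Real.log (nv w) ≤ Real.log M := by
    have h1 : ∏ w ∈ S, w.asIdeal ∣ I := by
      refine prod_one_dvd S I fun w hw => ?_
      rw [hS, mem_erase, Set.Finite.mem_toFinset] at hw
      have h2 : w.asIdeal ∣ v.asIdeal * I := by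
        rw [← hcI, Ideal.dvd_span_singleton]
        exact hw.2
      rcases (Ideal.prime_iff_isPrime w.ne_bot).2 w.isPrime |>.dvd_or_dvd h2 with h3 | h3
      · exfalso
        apply hw.1
        have h4 : w.asIdeal = v.asIdeal := by
          have h5 := Ideal.le_of_dvd h3
          exact (v.isMaximal.eq_of_le w.isPrime.ne_top h5).symm
        exact HeightOneSpectrum.ext h4
      · exact h3
    have h2 := Nat.le_of_dvd hIN0 (Ideal.absNorm_dvd_absNorm_of_le (Ideal.le_of_dvd h1))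
    rw [map_prod] at h2
    have h3 : ((∏ w ∈ S, nv w : ℕ) : ℝ) ≤ M := by
      refine le_trans ?_ hIN
      exact_mod_cast h2
    have h4 := Real.log_le_log (by
      have : 0 < ∏ w ∈ S, nv w := prod_pos fun w _ => by have := one_lt_nv w; omega
      exact_mod_cast this) h3
    rw [Nat.cast_prod, Real.log_prod] at h4
    · exact h4
    · intro w _
      have := one_lt_nv w
      positivity
  set W : Finset (HeightOneSpectrum (𝓞 K)) := insert v (Ws h hT.1 ∪ S) with hW
  have h1 := diff_eq' k h hT.1 κ W (by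
    rw [hW]
    exact subset_union_left.trans (subset_insert _ _))
  have h2 : ∑ w ∈ W, ((if w = v then G * Real.log (nv w) else 0) -
      R * (if w ∈ Vf h ∪ S then Real.log (nv w) else 0)) ≤
      ∑ w ∈ W, (hv k a e w - κ * expo k a e w) * Real.log (nv w) := by
    refine sum_le_sum fun w _ => ?_
    have h0 := log_nv_pos w
    by_cases hwv : w = v
    · rw [hwv] at h0 ⊢
      rw [if_pos rfl]
      have h3 : 0 ≤ R * (if v ∈ Vf h ∪ S then Real.log (nv v) else 0) := by
        split_ifs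
        · positivity
        · simp
      have h4 : (hv k a e v - κ * expo k a e v) = G := by
        rw [hv_ordinary k hvo, expo_ordinary k hvo]
        simp only [hod, hmpv, Nat.cast_one, mul_one]
        rw [hG]
        push_cast
        rfl
      rw [h4]
      linarith
    · rw [if_neg hwv, zero_sub]
      by_cases hw2 : w ∈ Vf h ∪ S
      · rw [if_pos hw2]
        have := mul_le_mul_of_nonneg_right (hv_lower k (a := a) e hκ w) h0.le
        rw [hR]
        linarith
      · rw [if_neg hw2, mul_zero, neg_zero]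
        rw [mem_union, not_or] at hw2
        have h3 : c ∉ w.asIdeal := by
          intro h4
          apply hw2.2
          rw [hS, mem_erase, Set.Finite.mem_toFinset]
          exact ⟨hwv, h4⟩
        have h4 : ∀ χ, (od w (e χ) : ZMod m) = 0 := by
          intro χ
          rw [hod, mp_eq_zero hc0 h3, Nat.cast_zero, mul_zero]
        have h5 : ∀ p ∈ prs n, ¬ Simple m a p w := fun p hp hs => hw2.1 (mem_Vf h hp hs.2.1)
        have h6 : hv k a e w = 0 := by
          unfold hv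
          rw [sum_simple_none _ h5, sub_zero]
          split_ifs
          · rfl
          · refine sum_eq_zero fun χ _ => ?_
            rw [h4, jg_zero]
        have h7 : expo k a e w = 0 := by
          unfold expo
          rw [sum_simple_none _ h5, add_zero]
          split_ifs
          · refine sum_eq_zero fun χ _ => ?_
            rw [h4, fg_zero]
          · rfl
        rw [h6, h7]
        simp
  rw [sum_sub_distrib, ← mul_sum, sum_ite_eq' W v, if_pos (by rw [hW]; exact mem_insert_self _ _)]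
    at h2
  have h3 : ∑ w ∈ W, (if w ∈ Vf h ∪ S then Real.log (nv w) else 0) ≤ V₀ + Real.log M := by
    rw [← sum_filter]
    have h4 : (W.filter fun w => w ∈ Vf h ∪ S) ⊆ Vf h ∪ S := fun w hw => (mem_filter.1 hw).2
    refine (sum_le_sum_of_subset_of_nonneg h4 fun w _ _ => (log_nv_pos w).le).trans ?_
    have h5 := sum_union_inter (s₁ := Vf h) (s₂ := S) (f := fun w => Real.log (nv w))
    have h6 : 0 ≤ ∑ w ∈ Vf h ∩ S, Real.log (nv w) := sum_nonneg fun w _ => (log_nv_pos w).le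
    linarith
  have h4 := mul_le_mul_of_nonneg_left h3 hR0
  have h5 := le_abs_self T
  have h6 := neg_abs_le (arc k a)
  linarith

end Pool.Agent.H433.AC
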