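import Pool.Agent.H433.AC.Rel3
import Pool.Agent.H433.AC.Final

/-!
The relative height: the density theorems.
-/

set_option autoImplicit false
set_option linter.unusedSectionVars false

open NumberField IsDedekindDomain Finset

namespace Pool.Agent.H433.AC

open Classical in
/-- density, from the vectors which are not exceptional -/
theorem density (K : Type) [Field K] [NumberField K] (n : ℕ) {ε : ℝ} (hε0 : 0 < ε) (H₀ : ℝ)
    (P : (Fin n → 𝓞 K) → Prop)
    (hε1 : ε ≤ 1)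
    (hP : ∀ H : ℕ, 1 ≤ H → H₀ ≤ Real.log H → ∀ a : Fin n → 𝓞 K, (∀ i, a i ∈ box K H) →
      ¬ Exceptional ((H : ℝ) ^ ε) ((H : ℝ) ^ (1 - ε)) a → P a) :
    ∃ C : ℝ, ∀ H : ℕ, 1 ≤ H →
      (((Fintype.piFinset fun _ : Fin n => box K H).filter fun a => ¬ P a).card : ℝ) ≤
        C * (H : ℝ) ^ (-ε) * ((Fintype.piFinset fun _ : Fin n => box K H).card : ℝ) := by
  obtain ⟨C₂, hC₂, hcount⟩ := exceptional_count K n
  set d := Module.finrank ℚ K with hd
  refine ⟨max (2 * C₂) (Real.exp (ε * H₀)), fun H hH => ?_⟩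
  have hHR : (1 : ℝ) ≤ H := by exact_mod_cast hH
  have hH0 : (0 : ℝ) < H := by linarith
  have e3 : 0 ≤ (H : ℝ) ^ (-ε) := by positivity
  rcases lt_or_ge (Real.log H) H₀ with hlt | hge
  · have h1 : (((Fintype.piFinset fun _ : Fin n => box K H).filter fun a => ¬ P a).card : ℝ) ≤
        ((Fintype.piFinset fun _ : Fin n => box K H).card : ℝ) := by
      exact_mod_cast card_filter_le _ _
    refine h1.trans ?_
    have h2 : 1 ≤ max (2 * C₂) (Real.exp (ε * H₀)) * (H : ℝ) ^ (-ε) := by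
      have h3 : Real.exp (ε * H₀) * (H : ℝ) ^ (-ε) ≤
          max (2 * C₂) (Real.exp (ε * H₀)) * (H : ℝ) ^ (-ε) :=
        mul_le_mul_of_nonneg_right (le_max_right _ _) e3
      refine le_trans ?_ h3
      rw [Real.rpow_def_of_pos hH0, ← Real.exp_add]
      apply Real.one_le_exp
      nlinarith
    have h4 : (0 : ℝ) ≤ ((Fintype.piFinset fun _ : Fin n => box K H).card : ℝ) := Nat.cast_nonneg _
    nlinarith
  · have hsub := hcount H hH ((H : ℝ) ^ ε) ((H : ℝ) ^ (1 - ε)) (Real.one_le_rpow hHR hε0.le)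
      (Real.one_le_rpow hHR (by linarith))
      ((Fintype.piFinset fun _ : Fin n => box K H).filter fun a => ¬ P a)
      fun a ha => by
        rw [mem_filter, Fintype.mem_piFinset] at ha
        refine ⟨ha.1, ?_⟩
        by_contra hcon
        exact ha.2 (hP H hH hge a ha.1 hcon)
    refine hsub.trans ?_
    have e1 : (H : ℝ) ^ (1 - ε) / H + 1 / (H : ℝ) ^ ε = 2 * (H : ℝ) ^ (-ε) := by
      rw [Real.rpow_sub hH0, Real.rpow_one, Real.rpow_neg hH0.le]
      field_simp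
      ring
    rw [e1]
    have e2 : ((H : ℝ) ^ d) ^ n ≤ ((Fintype.piFinset fun _ : Fin n => box K H).card : ℝ) := by
      rw [Fintype.card_piFinset]
      simp only [card_box, prod_const, card_univ, Fintype.card_fin]
      push_cast
      exact pow_le_pow_left₀ (by positivity) (pow_le_pow_left₀ hH0.le (by linarith) _) _
    calc C₂ * ((H : ℝ) ^ d) ^ n * (2 * (H : ℝ) ^ (-ε))
        = 2 * C₂ * (H : ℝ) ^ (-ε) * ((H : ℝ) ^ d) ^ n := by ring
      _ ≤ max (2 * C₂) (Real.exp (ε * H₀)) * (H : ℝ) ^ (-ε) * ((H : ℝ) ^ d) ^ n := by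
          refine mul_le_mul_of_nonneg_right (mul_le_mul_of_nonneg_right (le_max_left _ _) e3)
            (by positivity)
      _ ≤ _ := mul_le_mul_of_nonneg_left e2 (mul_nonneg (le_max_of_le_right (Real.exp_pos _).le) e3)

variable {m n : ℕ} [NeZero m] {X : Type} [AddCommGroup X] [Fintype X]
  (k : X →+ (Fin n → ZMod m))

theorem al_nonneg (k : Fin n → ZMod m) : 0 ≤ al k := by
  unfold al
  rcases Nat.eq_zero_or_pos (dm k) with h | h
  · rw [h]
    simp
  · have h1 := dm_lt k (by omega)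
    have h2 : (1 : ℝ) ≤ dm k := by exact_mod_cast h
    have h3 : (dm k : ℝ) * (dm k) ≤ dm k * (wt k / m) :=
      mul_le_mul_of_nonneg_left h1.le (by linarith)
    nlinarith

theorem bd_zero (k : Fin n → ZMod m) (p : Fin n × Fin n) : bd k 0 p = 0 := by
  unfold bd
  rw [if_neg]
  have h1 := ZMod.val_lt (k p.1)
  have h2 := ZMod.val_lt (k p.2)
  rw [ZMod.val_zero]
  omega

theorem js_zero (k : Fin n → ZMod m) (p : Fin n × Fin n) : js k 0 p = 0 := by
  unfold js
  rw [jg_zero, bd_zero]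
  simp

theorem admits_nonneg (hr : ∃ χ, 2 ≤ rk (k χ)) {κ : ℝ} (h : Admits k κ) : 0 ≤ κ := by
  obtain ⟨-, h2⟩ := h
  have hA : 0 ≤ ∑ χ, al (k χ) := sum_nonneg fun χ _ => al_nonneg _
  have h3 : ∀ p ∈ prs n, -κ * ((∑ χ, fs (k χ) 0 p : ℕ) : ℝ) ≤ gain k κ p := by
    intro p _
    have := le_gain k κ p 0
    simp only [AddMonoidHom.zero_apply, js_zero, zero_sub, sum_neg_distrib] at this
    rw [← mul_sum] at this
    push_cast
    linarith
  have h4 := sum_le_sum h3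
  rw [← mul_sum] at h4
  have h5 : (0 : ℝ) < ∑ p ∈ prs n, ((∑ χ, fs (k χ) 0 p : ℕ) : ℝ) := by
    obtain ⟨χ, hχ⟩ := hr
    have e1 : 0 < ((∑ χ, cx 2 (k χ) : ℕ) : ℝ) := by
      have h1 : cx 2 (k χ) ≤ ∑ χ, cx 2 (k χ) :=
        single_le_sum (f := fun χ => cx 2 (k χ)) (fun _ _ => Nat.zero_le _) (mem_univ χ)
      have h2 := cx_pos hχ
      exact_mod_cast lt_of_lt_of_le h2 h1
    rw [sum_cx] at e1
    refine lt_of_lt_of_le e1 (sum_le_sum fun p _ => ?_)
    exact_mod_cast sum_le_sum fun χ _ => fs_ge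
  by_contra hcon
  rw [not_le] at hcon
  have h6 : 0 < -κ * ∑ p ∈ prs n, ((∑ χ, fs (k χ) 0 p : ℕ) : ℝ) := mul_pos (by linarith) h5
  linarith

theorem bddBelow (hr : ∃ χ, 2 ≤ rk (k χ)) : BddBelow {κ | Admits k κ} :=
  ⟨0, fun _ h => admits_nonneg k hr h⟩

/-- beyond an admitted slope -/
theorem admits_lt (hr : ∃ χ, 2 ≤ rk (k χ)) {κ₁ κ : ℝ} (h : Admits k κ₁) (hκ : κ₁ < κ) :
    (∀ φ : X →+ ZMod m, ∑ χ, jg (k χ) (φ χ) ≤ κ * ∑ χ, (fg (k χ) (φ χ) : ℝ)) ∧
      ∑ χ, al (k χ) + ∑ p ∈ prs n, gain k κ p < 0 := by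
  obtain ⟨h1, h2⟩ := h
  refine ⟨fun φ => (h1 φ).trans ?_, ?_⟩
  · exact mul_le_mul_of_nonneg_right hκ.le (sum_nonneg fun χ _ => Nat.cast_nonneg _)
  · have e1 : 0 < ((∑ χ, cx 2 (k χ) : ℕ) : ℝ) := by
      obtain ⟨χ, hχ⟩ := hr
      have h1 : cx 2 (k χ) ≤ ∑ χ, cx 2 (k χ) :=
        single_le_sum (f := fun χ => cx 2 (k χ)) (fun _ _ => Nat.zero_le _) (mem_univ χ)
      have h2 := cx_pos hχ
      exact_mod_cast lt_of_lt_of_le h2 h1
    rw [sum_cx] at e1
    have h3 : ∀ p ∈ prs n, gain k κ p ≤ gain k κ₁ p - (κ - κ₁) *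
        ((∑ χ, if (k χ p.1 ≠ 0 ∧ k χ p.2 ≠ 0) ∧ 2 ≤ rk (k χ) then 1 else 0 : ℕ) : ℝ) := by
      intro p _
      obtain ⟨φ, hφ⟩ := exists_gain k κ p
      rw [← hφ]
      have h4 := le_gain k κ₁ p φ
      have h5 : ((∑ χ, if (k χ p.1 ≠ 0 ∧ k χ p.2 ≠ 0) ∧ 2 ≤ rk (k χ) then 1 else 0 : ℕ) : ℝ) ≤
          ∑ χ, (fs (k χ) (φ χ) p : ℝ) := by
        exact_mod_cast sum_le_sum fun χ _ => fs_ge
      have h6 := mul_le_mul_of_nonneg_left h5 (by linarith : 0 ≤ κ - κ₁)
      rw [sum_sub_distrib, ← mul_sum] at h4 ⊢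
      linarith
    have h4 := sum_le_sum h3
    rw [sum_sub_distrib, ← mul_sum] at h4
    have h5 := mul_pos (sub_pos.2 hκ) e1
    linarith

open Classical in
/-- the upper bound -/
theorem rel_upper (K : Type) [Field K] [NumberField K] (hr : ∃ χ, 2 ≤ rk (k χ))
    (hne : ∃ κ, Admits k κ) (κ : ℝ) (hκ : relSlope k < κ) :
    ∃ C δ : ℝ, 0 < δ ∧ ∀ H : ℕ, 1 ≤ H →
      (((Fintype.piFinset fun _ : Fin n => box K H).filter fun a =>
        ¬ FreyAll κ C k a).card : ℝ) ≤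
            C * (H : ℝ) ^ (-δ) * ((Fintype.piFinset fun _ : Fin n => box K H).card : ℝ) := by
  obtain ⟨κ₁, hκ₁, hlt⟩ := exists_lt_of_csInf_lt hne hκ
  obtain ⟨h1, h2⟩ := admits_lt k hr hκ₁ hlt
  obtain ⟨E, C₁, hE, hC₁, hgood⟩ := good2 (k : X → Fin n → ZMod m) K
  set d := Module.finrank ℚ K with hd
  have hd0 : (0 : ℝ) < d := by exact_mod_cast (Module.finrank_pos : 0 < Module.finrank ℚ K)
  set A : ℝ := ∑ χ, al (k χ) with hA
  set D : ℝ := ∑ χ, (dm (k χ) : ℝ) with hD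
  have hD0 : 0 ≤ D := sum_nonneg fun χ _ => Nat.cast_nonneg _
  set g : Fin n × Fin n → ℝ := gain k κ with hg
  set Γ : ℝ := ∑ p ∈ prs n, g p with hΓ
  set G : ℝ := ∑ p ∈ prs n, |g p| with hG
  have hG0 : 0 ≤ G := sum_nonneg fun p _ => abs_nonneg _
  set q : ℝ := E * (G + D) + 1 with hq
  have hq0 : 0 < q := by positivity
  set ε : ℝ := min 1 (d * (-(A + Γ)) / q) with hε
  have hgap : 0 < d * (-(A + Γ)) := mul_pos hd0 (by linarith)
  have hε0 : 0 < ε := lt_min one_pos (div_pos hgap hq0)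
  have hε1 : ε ≤ 1 := min_le_left _ _
  have hεq : ε * q ≤ d * (-(A + Γ)) := by
    rw [← le_div_iff₀ hq0]
    exact min_le_right _ _
  set C₂ : ℝ := C₁ * (1 + G + D) with hC₂
  have hmain : ∀ H : ℕ, 1 ≤ H → (0 : ℝ) ≤ Real.log H → ∀ a : Fin n → 𝓞 K,
      (∀ i, a i ∈ box K H) → ¬ Exceptional ((H : ℝ) ^ ε) ((H : ℝ) ^ (1 - ε)) a →
        FreyAll κ C₂ k a := by
    intro H hH hL a ha hexc
    obtain ⟨hdif, g1, g2, g3, g4⟩ := hgood H ε hH hε0.le hε1 a ha hexc
    refine ⟨hdif.inj, fun e he => ?_⟩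
    refine (rel_le k hdif he h1).trans ?_
    set L := Real.log H with hLL
    have e1 : ∑ p ∈ prs n, g p * Lp m hdif p ≤ ∑ p ∈ prs n, (g p * (d * L) +
        |g p| * (E * ε * L + C₁)) := by
      refine sum_le_sum fun p hp => ?_
      obtain ⟨g5, g6⟩ := g3 p hp
      have e0 : |Lp m hdif p - d * L| ≤ E * ε * L + C₁ := by
        rw [abs_le]
        have : 0 ≤ E * ε * L := by positivity
        constructor <;> linarith
      have e2 : g p * (Lp m hdif p - d * L) ≤ |g p| * (E * ε * L + C₁) := by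
        refine (le_abs_self _).trans ?_
        rw [abs_mul]
        exact mul_le_mul_of_nonneg_left e0 (abs_nonneg _)
      linarith
    rw [sum_add_distrib, ← sum_mul, ← sum_mul] at e1
    have e2 := mul_le_mul_of_nonneg_left g4 hD0
    have e3 := mul_le_mul_of_nonneg_right hεq hL
    have e4 : 0 ≤ ε * L := by positivity
    have e5 : arc (k : X → Fin n → ZMod m) a ≤ d * A * L + C₁ := g1
    rw [hq] at e3
    rw [hC₂]
    have e6 : (ε * (E * (G + D) + 1)) * L = E * ε * L * G + E * ε * L * D + ε * L := by ring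
    rw [e6] at e3
    have e7 : D * (E * ε * L + C₁) = E * ε * L * D + C₁ * D := by ring
    have e8 : G * (E * ε * L + C₁) = E * ε * L * G + C₁ * G := by ring
    linarith
  obtain ⟨C₃, hC₃⟩ := density K n hε0 0 _ hε1 hmain
  refine ⟨max C₂ C₃, ε, hε0, fun H hH => ?_⟩
  refine le_trans ?_ ((hC₃ H hH).trans ?_)
  · refine Nat.cast_le.2 (card_le_card fun a ha => ?_)
    rw [mem_filter] at ha ⊢
    refine ⟨ha.1, fun hcon => ha.2 ⟨hcon.1, fun e he => ?_⟩⟩
    have := hcon.2 e he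
    have := le_max_left C₂ C₃
    linarith
  · refine mul_le_mul_of_nonneg_right (mul_le_mul_of_nonneg_right (le_max_right _ _) ?_) ?_
    · positivity
    · positivity

open Classical in
/-- the lower bound -/
theorem rel_lower (K : Type) [Field K] [NumberField K] (hr : ∃ χ, 2 ≤ rk (k χ))
    (κ B T : ℝ) (hκ0 : 0 ≤ κ) (hκ : κ < relSlope k) (hB : 0 ≤ B) :
    ∃ C δ : ℝ, 0 < δ ∧ ∀ H : ℕ, 1 ≤ H →
      (((Fintype.piFinset fun _ : Fin n => box K H).filter fun a =>
        ¬ FreyFails κ B T k a).card : ℝ) ≤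
            C * (H : ℝ) ^ (-δ) * ((Fintype.piFinset fun _ : Fin n => box K H).card : ℝ) := by
  have hnot : ¬ Admits k κ := fun h => absurd (csInf_le (bddBelow k hr) h) (not_le.2 hκ)
  obtain ⟨E, C₁, hE, hC₁, hgood⟩ := good2 (k : X → Fin n → ZMod m) K
  by_cases hcase : ∀ φ : X →+ ZMod m, ∑ χ, jg (k χ) (φ χ) ≤ κ * ∑ χ, (fg (k χ) (φ χ) : ℝ)
  · have hpos : 0 < ∑ χ, al (k χ) + ∑ p ∈ prs n, gain k κ p := by
      by_contra hcon
      exact hnot ⟨hcase, not_lt.1 hcon⟩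
    set d := Module.finrank ℚ K with hd
    have hd0 : (0 : ℝ) < d := by exact_mod_cast (Module.finrank_pos : 0 < Module.finrank ℚ K)
    set A : ℝ := ∑ χ, al (k χ) with hA
    set g : Fin n × Fin n → ℝ := gain k κ with hg
    set Γ : ℝ := ∑ p ∈ prs n, g p with hΓ
    set G : ℝ := ∑ p ∈ prs n, |g p| with hG
    have hG0 : 0 ≤ G := sum_nonneg fun p _ => abs_nonneg _
    set b : ℝ := κ * B + B with hb
    have hb0 : 0 ≤ b := by positivity
    set q : ℝ := E * (1 + G + b) + 1 with hq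
    have hq0 : 0 < q := by positivity
    have hgap : 0 < d * (A + Γ) := mul_pos hd0 hpos
    set ε : ℝ := min 1 (d * (A + Γ) / 2 / q) with hε
    have hε0 : 0 < ε := lt_min one_pos (div_pos (by linarith) hq0)
    have hε1 : ε ≤ 1 := min_le_left _ _
    have hεq : ε * q ≤ d * (A + Γ) / 2 := by
      rw [← le_div_iff₀ hq0]
      exact min_le_right _ _
    set H₀ : ℝ := (|T| + C₁ * (1 + G + b)) / (d * (A + Γ) / 2) with hH₀
    have hmain : ∀ H : ℕ, 1 ≤ H → H₀ ≤ Real.log H → ∀ a : Fin n → 𝓞 K,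
        (∀ i, a i ∈ box K H) → ¬ Exceptional ((H : ℝ) ^ ε) ((H : ℝ) ^ (1 - ε)) a →
          FreyFails κ B T k a := by
      intro H hH hL a ha hexc
      obtain ⟨hdif, g1, g2, g3, g4⟩ := hgood H ε hH hε0.le hε1 a ha hexc
      obtain ⟨e, he, hge⟩ := rel_ge k hdif κ
      refine ⟨hdif.inj, e, he, ?_⟩
      have hL0 : 0 ≤ Real.log H := Real.log_nonneg (by exact_mod_cast hH)
      set L := Real.log H with hLL
      rw [hH₀, div_le_iff₀ (by linarith)] at hL
      have e1 : ∑ p ∈ prs n, (g p * (d * L) - |g p| * (E * ε * L + C₁)) ≤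
          ∑ p ∈ prs n, g p * Lp m hdif p := by
        refine sum_le_sum fun p hp => ?_
        obtain ⟨g5, g6⟩ := g3 p hp
        have e0 : |Lp m hdif p - d * L| ≤ E * ε * L + C₁ := by
          rw [abs_le]
          have : 0 ≤ E * ε * L := by positivity
          constructor <;> linarith
        have e2 : -(|g p| * (E * ε * L + C₁)) ≤ g p * (Lp m hdif p - d * L) := by
          refine le_trans (neg_le_neg ?_) (neg_abs_le _)
          rw [abs_mul]
          exact mul_le_mul_of_nonneg_left e0 (abs_nonneg _)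
        linarith
      rw [sum_sub_distrib, ← sum_mul, ← sum_mul] at e1
      have e2 := mul_le_mul_of_nonneg_left g4 hb0
      have e3 := mul_le_mul_of_nonneg_right hεq hL0
      have e4 : 0 ≤ ε * L := by positivity
      have e5 : d * A * L - E * ε * L - C₁ ≤ arc (k : X → Fin n → ZMod m) a := g2
      have e6 : (ε * (E * (1 + G + b) + 1)) * L =
        E * ε * L + E * ε * L * G + E * ε * L * b + ε * L := by ring
      rw [hq, e6] at e3
      have e7 : b * (E * ε * L + C₁) = E * ε * L * b + C₁ * b := by ring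
      have e8 : G * (E * ε * L + C₁) = E * ε * L * G + C₁ * G := by ring
      have e9 := le_abs_self T
      have e10 : b * exc m a = κ * (B * exc m a) + B * exc m a := by
        rw [hb]
        ring
      have e11 : κ * (Real.log (cond k a e) + B * exc m a) =
        κ * Real.log (cond k a e) + κ * (B * exc m a) := by ring
      rw [e11]
      linarith
    obtain ⟨C₃, hC₃⟩ := density K n hε0 H₀ _ hε1 hmain
    exact ⟨C₃, ε, hε0, hC₃⟩
  · push Not at hcase
    obtain ⟨φ, hφ⟩ := hcase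
    have hmain : ∀ H : ℕ, 1 ≤ H → (0 : ℝ) ≤ Real.log H → ∀ a : Fin n → 𝓞 K,
        (∀ i, a i ∈ box K H) → ¬ Exceptional ((H : ℝ) ^ (1 : ℝ)) ((H : ℝ) ^ (1 - (1 : ℝ))) a →
          FreyFails κ B T k a := by
      intro H hH hL a ha hexc
      obtain ⟨hdif, -⟩ := hgood H 1 hH zero_le_one le_rfl a ha hexc
      obtain ⟨e, he, hge⟩ := rel_ord k hκ0 φ hφ hdif (T + (κ * B + B) * exc m a)
      refine ⟨hdif.inj, e, he, ?_⟩
      have e11 : κ * (Real.log (cond k a e) + B * exc m a) =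
        κ * Real.log (cond k a e) + κ * B * exc m a := by ring
      rw [e11]
      linarith
    obtain ⟨C₃, hC₃⟩ := density K n one_pos 0 _ le_rfl hmain
    exact ⟨C₃, 1, one_pos, hC₃⟩

end Pool.Agent.H433.AC
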