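import Pool.Agent.H433.AC.Rel4

/-!
The best slope for the relative height is at most `1 / 2`.
-/

set_option autoImplicit false
set_option linter.unusedSectionVars false

open Finset

namespace Pool.Agent.H433.AC

section types

variable {m n : ℕ} [NeZero m] (k : Fin n → ZMod m)

theorem m_pos : 0 < m := Nat.pos_of_ne_zero (NeZero.ne m)

theorem val_neg_add {x : ZMod m} (hx : x ≠ 0) : (-x).val + x.val = m := by
  rw [ZMod.neg_val, if_neg hx]
  have := ZMod.val_lt x
  omega

theorem val_pos {x : ZMod m} (hx : x ≠ 0) : 1 ≤ x.val := by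
  have : x.val ≠ 0 := fun h => hx ((ZMod.val_eq_zero x).1 h)
  omega

theorem nb_neg : nb (-k) = nb k := by
  unfold nb
  congr 1
  ext i
  simp

theorem wt_neg : wt (-k) + wt k = m * nb k := by
  unfold wt nb
  rw [← sum_add_distrib, card_filter, mul_sum]
  refine sum_congr rfl fun i _ => ?_
  split_ifs with h
  · rw [Pi.neg_apply, val_neg_add h, mul_one]
  · push Not at h
    rw [Pi.neg_apply, h]
    simp

theorem nb_le_wt : nb k ≤ wt k := by
  unfold wt nb
  rw [card_filter]
  refine sum_le_sum fun i _ => ?_
  split_ifs with h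
  · exact val_pos h
  · exact Nat.zero_le _

theorem dvd_wt_neg : m ∣ wt (-k) ↔ m ∣ wt k := by
  have h := wt_neg k
  constructor
  · intro h1
    have h2 : m ∣ wt (-k) + wt k := by
      rw [h]
      exact dvd_mul_right _ _
    exact (Nat.dvd_add_right h1).1 h2
  · intro h1
    have h2 : m ∣ wt (-k) + wt k := by
      rw [h]
      exact dvd_mul_right _ _
    exact (Nat.dvd_add_left h1).1 h2

theorem rk_neg : rk (-k) = rk k := by
  unfold rk
  rw [nb_neg]
  by_cases h : m ∣ wt k
  · rw [if_pos h, if_pos ((dvd_wt_neg k).2 h)]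
  · rw [if_neg h, if_neg fun h1 => h ((dvd_wt_neg k).1 h1)]

/-- the dimensions of the two parts of the differentials -/
theorem dm_add : dm k + dm (-k) = rk k := by
  have hm : 0 < m := m_pos
  have h1 := wt_neg k
  have h2 := nb_le_wt k
  have h3 := nb_le_wt (-k)
  rw [nb_neg] at h3
  unfold dm rk
  obtain ⟨N, hN⟩ : ∃ N, N = nb k := ⟨_, rfl⟩
  obtain ⟨w, hw⟩ : ∃ w, w = wt k := ⟨_, rfl⟩
  obtain ⟨w', hw'⟩ : ∃ w', w' = wt (-k) := ⟨_, rfl⟩
  rw [← hN] at h1 h2 h3 ⊢
  rw [← hw] at h1 h2 ⊢
  rw [← hw'] at h1 h3 ⊢
  clear hN hw hw'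
  rcases Nat.eq_zero_or_pos N with h0 | h0
  · rw [h0, mul_zero] at h1
    have e1 : w = 0 := by omega
    have e2 : w' = 0 := by omega
    rw [e1, e2, h0]
    simp
  · by_cases hd : m ∣ w
    · rw [if_pos hd]
      obtain ⟨s, hs⟩ := hd
      have hs1 : 1 ≤ s := by
        rcases Nat.eq_zero_or_pos s with h | h
        · rw [h, mul_zero] at hs
          omega
        · exact h
      have hle : s ≤ N := by
        have : m * s ≤ m * N := by omega
        exact Nat.le_of_mul_le_mul_left this hm
      obtain ⟨s', rfl⟩ : ∃ s', N = s + s' := ⟨N - s, by omega⟩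
      have hs' : w' = m * s' := by
        rw [hs, mul_add] at h1
        omega
      have hs'1 : 1 ≤ s' := by
        rcases Nat.eq_zero_or_pos s' with h | h
        · rw [h, mul_zero] at hs'
          omega
        · exact h
      obtain ⟨t, rfl⟩ : ∃ t, s = t + 1 := ⟨s - 1, by omega⟩
      obtain ⟨t', rfl⟩ : ∃ t', s' = t' + 1 := ⟨s' - 1, by omega⟩
      have e1 : (w - 1) / m = t := by
        rw [hs, mul_add, mul_one]
        have : m * t + m - 1 = (m - 1) + m * t := by omega
        rw [this, Nat.add_mul_div_left _ _ hm, Nat.div_eq_of_lt (by omega), zero_add]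
      have e2 : (w' - 1) / m = t' := by
        rw [hs', mul_add, mul_one]
        have : m * t' + m - 1 = (m - 1) + m * t' := by omega
        rw [this, Nat.add_mul_div_left _ _ hm, Nat.div_eq_of_lt (by omega), zero_add]
      rw [e1, e2]
      omega
    · rw [if_neg hd]
      have hmod := Nat.mod_add_div w m
      have hmod1 : w % m ≠ 0 := fun h => hd (Nat.dvd_of_mod_eq_zero h)
      have hmod2 := Nat.mod_lt w hm
      obtain ⟨d, hdd⟩ : ∃ d, d = w / m := ⟨_, rfl⟩
      obtain ⟨ρ, hρ⟩ : ∃ ρ, ρ = w % m := ⟨_, rfl⟩
      rw [← hρ] at hmod hmod1 hmod2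
      rw [← hdd] at hmod
      have hle : d < N := by
        have : m * d < m * N := by omega
        exact Nat.lt_of_mul_lt_mul_left this
      obtain ⟨s', rfl⟩ : ∃ s', N = d + s' + 1 := ⟨N - d - 1, by omega⟩
      have hs' : w' = m * s' + (m - ρ) := by
        rw [mul_add, mul_add, mul_one] at h1
        omega
      have e1 : (w - 1) / m = d := by
        have : w - 1 = (ρ - 1) + m * d := by omega
        rw [this, Nat.add_mul_div_left _ _ hm, Nat.div_eq_of_lt (by omega), zero_add]
      have e2 : (w' - 1) / m = s' := by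
        have : w' - 1 = (m - ρ - 1) + m * s' := by omega
        rw [this, Nat.add_mul_div_left _ _ hm, Nat.div_eq_of_lt (by omega), zero_add]
      rw [e1, e2]
      omega

theorem wt_le_of_dm (h : dm k = 0) : wt k ≤ m := by
  have hm : 0 < m := m_pos
  unfold dm at h
  rw [Nat.div_eq_zero_iff] at h
  omega

theorem val_add_val_le {p : Fin n × Fin n} (hp : p ∈ prs n) : (k p.1).val + (k p.2).val ≤ wt k := by
  have h1 := prs_lt hp
  unfold wt
  have h2 := sum_le_sum_of_subset (f := fun i => (k i).val)
    (subset_univ ({p.1, p.2} : Finset (Fin n)))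
  rwa [sum_pair h1.ne] at h2

open Classical in
/-- the comparison function -/
noncomputable def Wf (p : Fin n × Fin n) : ℝ :=
  if k p.1 = 0 ∨ k p.2 = 0 then 0
  else if dm k = 0 then 1 - (muf k p.1 + muf k p.2)
  else if dm (-k) = 0 then muf k p.1 + muf k p.2 - 1
  else 1

theorem jg_add (k : Fin n → ZMod m) {r : ZMod m} (hr : r ≠ 0) :
    jg k r + jg (-k) (-r) = rk k - dm k * (1 - (r.val : ℝ) / m) - dm (-k) * ((r.val : ℝ) / m) := by
  unfold jg
  have hm : (0 : ℝ) < m := by exact_mod_cast (m_pos : 0 < m)
  have h1 : (((-r).val : ℕ) : ℝ) = m - r.val := by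
    have := val_neg_add hr
    have h2 : (((-r).val + r.val : ℕ) : ℝ) = m := by exact_mod_cast this
    push_cast at h2
    linarith
  have h2 : (rk k : ℝ) = dm k + dm (-k) := by
    rw [← dm_add k]
    push_cast
    rfl
  rw [h1, h2]
  field_simp
  ring

/-- the contribution of a simple place to two conjugate characters -/
theorem pair_le {p : Fin n × Fin n} (hp : p ∈ prs n) (r : ZMod m) :
    js k r p + js (-k) (-r) p - 1 / 2 * (fs k r p + fs (-k) (-r) p) ≤ -Wf k p := by
  have hm : 0 < m := m_pos
  have hmR : (0 : ℝ) < m := by exact_mod_cast hm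
  by_cases h0 : k p.1 = 0 ∨ k p.2 = 0
  · have h0' : (-k) p.1 = 0 ∨ (-k) p.2 = 0 := by
      rw [Pi.neg_apply, Pi.neg_apply, neg_eq_zero, neg_eq_zero]
      exact h0
    unfold Wf
    rw [if_pos h0, neg_zero]
    by_cases hr : r = 0
    · rw [hr, neg_zero, js_zero, js_zero]
      have : (0 : ℝ) ≤ (fs k 0 p : ℝ) + fs (-k) 0 p := by positivity
      linarith
    · have hr' : -r ≠ 0 := neg_ne_zero.2 hr
      have e1 : fs k r p = rk k := by
        unfold fs
        rw [if_pos h0, if_neg hr]
      have e2 : fs (-k) (-r) p = rk k := by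
        unfold fs
        rw [if_pos h0', if_neg hr', rk_neg]
      have e3 := jg_add k hr
      have e4 : (0 : ℝ) ≤ (r.val : ℝ) / m := by positivity
      have e5 : (r.val : ℝ) / m ≤ 1 := by
        rw [div_le_one hmR]
        exact_mod_cast (ZMod.val_lt r).le
      have e6 : (0 : ℝ) ≤ dm k * (1 - (r.val : ℝ) / m) := mul_nonneg (Nat.cast_nonneg _) (by linarith)
      have e7 : (0 : ℝ) ≤ dm (-k) * ((r.val : ℝ) / m) := mul_nonneg (Nat.cast_nonneg _) e4
      have e8 : (0 : ℝ) ≤ (bd k r p : ℝ) := Nat.cast_nonneg _
      have e9 : (0 : ℝ) ≤ (bd (-k) (-r) p : ℝ) := Nat.cast_nonneg _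
      unfold js
      rw [e1, e2]
      linarith
  · push Not at h0
    obtain ⟨hx, hy⟩ := h0
    have hnn : ¬ (k p.1 = 0 ∨ k p.2 = 0) := by
      rintro (h | h)
      · exact hx h
      · exact hy h
    have hnn' : ¬ ((-k) p.1 = 0 ∨ (-k) p.2 = 0) := by
      rw [Pi.neg_apply, Pi.neg_apply, neg_eq_zero, neg_eq_zero]
      exact hnn
    have hx1 := val_pos hx
    have hy1 := val_pos hy
    have hxn := val_neg_add hx
    have hyn := val_neg_add hy
    have hxm := ZMod.val_lt (k p.1)
    have hym := ZMod.val_lt (k p.2)
    have hD := dm_add k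
    -- the values of the comparison function
    have hW1 : Wf k p ≤ 1 := by
      unfold Wf
      rw [if_neg hnn]
      have e1 := muf_nonneg k p.1
      have e2 := muf_nonneg k p.2
      have e3 := muf_lt k p.1
      have e4 := muf_lt k p.2
      split_ifs <;> linarith
    have hd0 : dm k = 0 → (k p.1).val + (k p.2).val ≤ m := fun h =>
      (val_add_val_le k hp).trans (wt_le_of_dm k h)
    have hd0' : dm (-k) = 0 → m ≤ (k p.1).val + (k p.2).val := fun h => by
      have h1 := (val_add_val_le (-k) hp).trans (wt_le_of_dm (-k) h)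
      rw [Pi.neg_apply, Pi.neg_apply] at h1
      omega
    set x := (k p.1).val with hxd
    set y := (k p.2).val with hyd
    have hmu : muf k p.1 + muf k p.2 = ((x + y : ℕ) : ℝ) / m := by
      unfold muf
      push_cast
      rw [add_div]
    have hrk0 : rk k = 0 → Wf k p = 0 := by
      intro h
      have h1 : dm k = 0 := by omega
      have h2 : dm (-k) = 0 := by omega
      have h3 : x + y = m := le_antisymm (hd0 h1) (hd0' h2)
      unfold Wf
      rw [if_neg hnn, if_pos h1, hmu, h3, div_self hmR.ne', sub_self]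
    by_cases hr : r = 0
    · rw [hr, neg_zero, js_zero, js_zero]
      have e1 : fs k 0 p = min 1 (rk k) := by
        unfold fs
        rw [if_neg hnn, if_pos rfl]
      have e2 : fs (-k) 0 p = min 1 (rk k) := by
        unfold fs
        rw [if_neg hnn', if_pos rfl, rk_neg]
      rw [e1, e2]
      rcases Nat.eq_zero_or_pos (rk k) with h | h
      · rw [h, hrk0 h]
        simp
      · rw [min_eq_left h]
        push_cast
        linarith
    · have hr' : -r ≠ 0 := neg_ne_zero.2 hr
      have hr1 := val_pos hr
      have hrn := val_neg_add hr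
      have hrm := ZMod.val_lt r
      set ρ := r.val with hρ
      have e3 := jg_add k hr
      rw [← hρ] at e3
      -- the condition for the character of the vanishing part
      have hzero : r + k p.1 + k p.2 = 0 ↔ m ∣ ρ + x + y := by
        have h1 : ((ρ + x + y : ℕ) : ZMod m) = r + k p.1 + k p.2 := by
          rw [hρ, hxd, hyd]
          push_cast
          rw [ZMod.natCast_zmod_val, ZMod.natCast_zmod_val, ZMod.natCast_zmod_val]
        rw [← h1, ZMod.natCast_eq_zero_iff]
      have hzero' : -r + (-k) p.1 + (-k) p.2 = 0 ↔ m ∣ ρ + x + y := by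
        rw [← hzero, Pi.neg_apply, Pi.neg_apply, ← neg_add, ← neg_add, neg_eq_zero]
      have hfs : fs k r p = if m ∣ ρ + x + y then rk k - 1 else rk k := by
        unfold fs
        rw [if_neg hnn, if_neg hr]
        by_cases h : m ∣ ρ + x + y
        · rw [if_pos h, if_pos (hzero.2 h)]
        · rw [if_neg h, if_neg fun h1 => h (hzero.1 h1)]
      have hfs' : fs (-k) (-r) p = if m ∣ ρ + x + y then rk k - 1 else rk k := by
        unfold fs
        rw [if_neg hnn', if_neg hr', rk_neg]
        by_cases h : m ∣ ρ + x + y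
        · rw [if_pos h, if_pos (hzero'.2 h)]
        · rw [if_neg h, if_neg fun h1 => h (hzero'.1 h1)]
      have hbd : bd k r p = if 2 * m ≤ ρ + x + y then 1 else 0 := rfl
      have hbd' : bd (-k) (-r) p = if ρ + x + y ≤ m then 1 else 0 := by
        unfold bd
        have h1 : 2 * m ≤ (-r).val + ((-k) p.1).val + ((-k) p.2).val ↔ ρ + x + y ≤ m := by
          rw [Pi.neg_apply, Pi.neg_apply]
          omega
        by_cases h : ρ + x + y ≤ m
        · rw [if_pos h, if_pos (h1.2 h)]
        · rw [if_neg h, if_neg fun h2 => h (h1.1 h2)]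
      unfold js
      set t : ℝ := (ρ : ℝ) / m with ht
      have ht0 : 0 < t := by
        rw [ht]
        have : (0 : ℝ) < ρ := by exact_mod_cast hr1
        positivity
      have ht1 : t < 1 := by
        rw [ht, div_lt_one hmR]
        exact_mod_cast hrm
      have hDR : (rk k : ℝ) = dm k + dm (-k) := by
        rw [← hD]
        push_cast
        rfl
      rcases Nat.eq_zero_or_pos (rk k) with hR | hR
      · have h1 : dm k = 0 := by omega
        have h2 : dm (-k) = 0 := by omega
        rw [hrk0 hR, hfs, hfs', hR]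
        rw [hR, h1, h2] at e3
        push_cast at e3
        have e8 : (0 : ℝ) ≤ (bd k r p : ℝ) := Nat.cast_nonneg _
        have e9 : (0 : ℝ) ≤ (bd (-k) (-r) p : ℝ) := Nat.cast_nonneg _
        simp only [zero_tsub, ite_self]
        push_cast
        linarith
      · -- the main inequality
        have key : js k r p + js (-k) (-r) p - 1 / 2 * (fs k r p + fs (-k) (-r) p) ≤
            -(dm k * (1 - t) + dm (-k) * t) ∧ ((ρ + x + y < m ∨ 2 * m < ρ + x + y) →
            js k r p + js (-k) (-r) p - 1 / 2 * (fs k r p + fs (-k) (-r) p) ≤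
            -(dm k * (1 - t) + dm (-k) * t) - 1) := by
          unfold js
          rw [hfs, hfs', hbd, hbd']
          by_cases hdv : m ∣ ρ + x + y
          · rw [if_pos hdv]
            obtain ⟨c, hc⟩ := hdv
            have hc1 : 1 ≤ c := by
              rcases Nat.eq_zero_or_pos c with h | h
              · rw [h, mul_zero] at hc
                omega
              · exact h
            have hc2 : c ≤ 2 := by
              by_contra hcon
              have : m * 3 ≤ m * c := Nat.mul_le_mul_left _ (by omega)
              omega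
            have hcc : ((rk k - 1 : ℕ) : ℝ) = rk k - 1 := by
              rw [Nat.cast_sub hR]
              simp
            rw [hcc]
            have hc12 : c = 1 ∨ c = 2 := by omega
            rcases hc12 with h | h
            · rw [h, mul_one] at hc
              rw [if_neg (by omega), if_pos (by omega)]
              push_cast
              constructor
              · linarith
              · rintro (h1 | h1) <;> omega
            · rw [h] at hc
              rw [if_pos (by omega), if_neg (by omega)]
              push_cast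
              constructor
              · linarith
              · rintro (h1 | h1) <;> omega
          · rw [if_neg hdv]
            have e8 : (0 : ℝ) ≤ ((if 2 * m ≤ ρ + x + y then 1 else 0 : ℕ) : ℝ) := Nat.cast_nonneg _
            have e9 : (0 : ℝ) ≤ ((if ρ + x + y ≤ m then 1 else 0 : ℕ) : ℝ) := Nat.cast_nonneg _
            constructor
            · linarith
            · rintro (h1 | h1)
              · have e10 : ((if ρ + x + y ≤ m then 1 else 0 : ℕ) : ℝ) = 1 := by
                  rw [if_pos (by omega)]
                  simp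
                linarith
              · have e10 : ((if 2 * m ≤ ρ + x + y then 1 else 0 : ℕ) : ℝ) = 1 := by
                  rw [if_pos (by omega)]
                  simp
                linarith
        unfold js at key
        obtain ⟨key1, key2⟩ := key
        have hk1 : (0 : ℝ) ≤ dm k * (1 - t) := mul_nonneg (Nat.cast_nonneg _) (by linarith)
        have hk2 : (0 : ℝ) ≤ dm (-k) * t := mul_nonneg (Nat.cast_nonneg _) ht0.le
        by_cases hfar : ρ + x + y < m ∨ 2 * m < ρ + x + y
        · have := key2 hfar
          linarith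
        · push Not at hfar
          refine key1.trans (neg_le_neg ?_)
          have g1 : (m : ℝ) ≤ ρ + (x + y : ℕ) := by
            have : m ≤ ρ + (x + y) := by omega
            exact_mod_cast this
          have g2 : (ρ : ℝ) + (x + y : ℕ) ≤ 2 * m := by
            have : ρ + (x + y) ≤ 2 * m := by omega
            exact_mod_cast this
          have g3 : 1 - ((x + y : ℕ) : ℝ) / m ≤ t := by
            rw [ht, sub_le_iff_le_add, ← add_div, le_div_iff₀ hmR]
            linarith
          have g4 : ((x + y : ℕ) : ℝ) / m - 1 ≤ 1 - t := by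
            have : t + ((x + y : ℕ) : ℝ) / m ≤ 2 := by
              rw [ht, ← add_div, div_le_iff₀ hmR]
              linarith
            linarith
          unfold Wf
          rw [if_neg hnn, hmu]
          split_ifs with h1 h2
          · have h3 : (1 : ℝ) ≤ dm (-k) := by
              have : 1 ≤ dm (-k) := by omega
              exact_mod_cast this
            nlinarith
          · have h3 : (1 : ℝ) ≤ dm k := by
              have : 1 ≤ dm k := by omega
              exact_mod_cast this
            nlinarith
          · have h3 : (1 : ℝ) ≤ dm k := by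
              have : 1 ≤ dm k := by omega
              exact_mod_cast this
            have h4 : (1 : ℝ) ≤ dm (-k) := by
              have : 1 ≤ dm (-k) := by omega
              exact_mod_cast this
            nlinarith

theorem Wf_out {p : Fin n × Fin n} (h : ¬ (p.1 ∈ spt k ∧ p.2 ∈ spt k)) : Wf k p = 0 := by
  unfold Wf
  rw [if_pos]
  unfold spt at h
  simp only [mem_filter, mem_univ, true_and] at h
  tauto

theorem sum_Wf : ∑ p ∈ prs n, Wf k p = ∑ p ∈ prS (spt k), Wf k p := by
  symm
  refine sum_subset (filter_subset _ _) fun p hp hp2 => ?_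
  apply Wf_out
  intro h
  apply hp2
  unfold prS
  rw [mem_filter]
  exact ⟨hp, h⟩

theorem mem_spt {i : Fin n} : i ∈ spt k ↔ k i ≠ 0 := by
  unfold spt
  simp

theorem al_neg_of_dm (h : dm k = 0) : al k + al (-k) ≤ ∑ p ∈ prs n, Wf k p := by
  classical
  have hm : 0 < m := m_pos
  have hmR : (0 : ℝ) < m := by exact_mod_cast hm
  have h1 : ∀ p ∈ prS (spt k), Wf k p = 1 - (muf k p.1 + muf k p.2) := by
    intro p hp
    unfold prS at hp
    rw [mem_filter] at hp
    obtain ⟨hp1, hp2⟩ := hp.2
    rw [mem_spt] at hp1 hp2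
    unfold Wf
    rw [if_neg (by tauto), if_pos h]
  rw [sum_Wf, sum_congr rfl h1, sum_sub_distrib, sum_const, nsmul_eq_mul, mul_one, card_prS,
    sum_prS, sum_spt, card_spt]
  have h2 := wt_neg k
  have h3 : (wt (-k) : ℝ) / m = nb k - wt k / m := by
    have h4 : ((wt (-k) + wt k : ℕ) : ℝ) = m * nb k := by exact_mod_cast h2
    push_cast at h4
    field_simp
    linarith
  have h4 := dm_add k
  rw [h, zero_add] at h4
  unfold al
  rw [h, h3, h4]
  set s : ℝ := (wt k : ℝ) / m with hs
  have hw := wt_le_of_dm k h
  have hnw := nb_le_wt k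
  rcases Nat.eq_zero_or_pos (nb k) with h0 | h0
  · have hrk : rk k = 0 := by
      unfold rk
      rw [h0]
      split_ifs <;> rfl
    have h5 := wt_neg k
    rw [h0, mul_zero] at h5
    have h6 : wt k = 0 := by omega
    rw [hrk, h0, hs, h6]
    simp
  · by_cases hd : m ∣ wt k
    · have h5 : wt k = m := Nat.le_antisymm hw (Nat.le_of_dvd (by omega) hd)
      have h6 : s = 1 := by
        rw [hs, h5, div_self hmR.ne']
      have h7 : 2 ≤ nb k := by
        by_contra hcon
        have h8 : nb k = 1 := by omega
        have h9 := wt_neg k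
        have h10 := nb_le_wt (-k)
        rw [nb_neg] at h10
        rw [h8, mul_one] at h9
        omega
      have hrk : rk k = nb k - 2 := by
        unfold rk
        rw [if_pos hd]
        omega
      rw [hrk, h6, Nat.cast_sub h7]
      push_cast
      nlinarith
    · have hrk : rk k = nb k - 1 := by
        unfold rk
        rw [if_neg hd]
        omega
      rw [hrk, Nat.cast_sub h0]
      push_cast
      nlinarith

/-- the archimedean exponents of two conjugate characters -/
theorem al_pair : al k + al (-k) ≤ ∑ p ∈ prs n, Wf k p := by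
  classical
  have hm : 0 < m := m_pos
  have hmR : (0 : ℝ) < m := by exact_mod_cast hm
  by_cases h : dm k = 0
  · exact al_neg_of_dm k h
  by_cases h' : dm (-k) = 0
  · have h1 := al_neg_of_dm (-k) h'
    rw [neg_neg] at h1
    have h2 : ∑ p ∈ prs n, Wf (-k) p = ∑ p ∈ prs n, Wf k p := by
      refine sum_congr rfl fun p _ => ?_
      by_cases h0 : k p.1 = 0 ∨ k p.2 = 0
      · unfold Wf
        rw [if_pos h0, if_pos]
        rw [Pi.neg_apply, Pi.neg_apply, neg_eq_zero, neg_eq_zero]
        exact h0
      · unfold Wf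
        rw [if_neg h0, if_neg, if_pos h', if_neg h, if_pos h']
        · push Not at h0
          have e1 := val_neg_add h0.1
          have e2 := val_neg_add h0.2
          unfold muf
          rw [Pi.neg_apply, Pi.neg_apply]
          have e3 : (((-k p.1).val : ℕ) : ℝ) = m - (k p.1).val := by
            have : (((-k p.1).val + (k p.1).val : ℕ) : ℝ) = m := by exact_mod_cast e1
            push_cast at this
            linarith
          have e4 : (((-k p.2).val : ℕ) : ℝ) = m - (k p.2).val := by
            have : (((-k p.2).val + (k p.2).val : ℕ) : ℝ) = m := by exact_mod_cast e2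
            push_cast at this
            linarith
          rw [e3, e4]
          field_simp
          ring
        · rw [Pi.neg_apply, Pi.neg_apply, neg_eq_zero, neg_eq_zero]
          exact h0
    rw [h2] at h1
    linarith
  have h1 : ∀ p ∈ prS (spt k), Wf k p = 1 := by
    intro p hp
    unfold prS at hp
    rw [mem_filter] at hp
    obtain ⟨hp1, hp2⟩ := hp.2
    rw [mem_spt] at hp1 hp2
    unfold Wf
    rw [if_neg (by tauto), if_neg h, if_neg h']
  rw [sum_Wf, sum_congr rfl h1, sum_const, nsmul_eq_mul, mul_one, card_prS, card_spt]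
  have hle : ∀ l : Fin n → ZMod m, (wt l : ℝ) / m ≤ dm l + 1 := by
    intro l
    rw [div_le_iff₀ hmR]
    have h2 : wt l ≤ (dm l + 1) * m := by
      unfold dm
      have h3 := Nat.div_add_mod (wt l - 1) m
      have h4 := Nat.mod_lt (wt l - 1) hm
      rw [add_mul, one_mul, mul_comm ((wt l - 1) / m) m]
      omega
    exact_mod_cast h2
  have h2 := hle k
  have h3 := hle (-k)
  have h4 : (dm k : ℝ) + dm (-k) + 1 ≤ nb k := by
    have h5 := dm_add k
    have h6 : rk k + 1 ≤ nb k := by
      have h7 : 1 ≤ rk k := by omega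
      unfold rk at h7 ⊢
      split_ifs at h7 ⊢ <;> omega
    have h7 : dm k + dm (-k) + 1 ≤ nb k := by omega
    exact_mod_cast h7
  have h5 : (0 : ℝ) ≤ dm k := Nat.cast_nonneg _
  have h6 : (0 : ℝ) ≤ dm (-k) := Nat.cast_nonneg _
  unfold al
  have h7 := mul_le_mul_of_nonneg_left h2 h5
  have h8 := mul_le_mul_of_nonneg_left h3 h6
  have h9 : ((dm k : ℝ) + dm (-k) + 1) * (dm k + dm (-k)) ≤ nb k * (nb k - 1) := by
    apply mul_le_mul h4 (by linarith) (by linarith)
    exact Nat.cast_nonneg _
  have h10 : (0 : ℝ) ≤ dm k * dm (-k) := mul_nonneg h5 h6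
  nlinarith

end types

section covers

variable {m n : ℕ} [NeZero m] {X : Type} [AddCommGroup X] [Fintype X]
  (k : X →+ (Fin n → ZMod m))

theorem sum_conj (f : X → ℝ) : ∑ χ, f χ = 1 / 2 * ∑ χ, (f χ + f (-χ)) := by
  rw [sum_add_distrib]
  have : ∑ χ, f (-χ) = ∑ χ, f χ := Equiv.sum_comp (Equiv.neg X) f
  rw [this]
  ring

theorem admits_half : Admits k (1 / 2) := by
  constructor
  · intro φ
    rw [sum_conj fun χ => jg (k χ) (φ χ)]
    refine mul_le_mul_of_nonneg_left (sum_le_sum fun χ _ => ?_) (by norm_num)
    rw [map_neg, map_neg]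
    by_cases hr : φ χ = 0
    · rw [hr, neg_zero, jg_zero, jg_zero, fg_zero]
      simp
    · have e3 := jg_add (k χ) hr
      have hmR : (0 : ℝ) < m := by exact_mod_cast (m_pos : 0 < m)
      have e4 : (0 : ℝ) ≤ ((φ χ).val : ℝ) / m := by positivity
      have e5 : ((φ χ).val : ℝ) / m ≤ 1 := by
        rw [div_le_one hmR]
        exact_mod_cast (ZMod.val_lt (φ χ)).le
      have e6 : (0 : ℝ) ≤ dm (k χ) * (1 - ((φ χ).val : ℝ) / m) :=
        mul_nonneg (Nat.cast_nonneg _) (by linarith)
      have e7 : (0 : ℝ) ≤ dm (-(k χ)) * (((φ χ).val : ℝ) / m) := mul_nonneg (Nat.cast_nonneg _) e4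
      have e8 : fg (k χ) (φ χ) = rk (k χ) := if_neg hr
      rw [e3, e8]
      linarith
  · have h1 : ∑ χ, al (k χ) ≤ 1 / 2 * ∑ p ∈ prs n, ∑ χ, Wf (k χ) p := by
      rw [sum_conj fun χ => al (k χ), sum_comm (s := prs n)]
      refine mul_le_mul_of_nonneg_left (sum_le_sum fun χ _ => ?_) (by norm_num)
      rw [map_neg]
      exact al_pair (k χ)
    have h2 : ∀ p ∈ prs n, gain k (1 / 2) p ≤ -(1 / 2 * ∑ χ, Wf (k χ) p) := by
      intro p hp
      obtain ⟨φ, hφ⟩ := exists_gain k (1 / 2) p
      rw [← hφ, sum_conj fun χ => js (k χ) (φ χ) p - 1 / 2 * (fs (k χ) (φ χ) p : ℝ), ← mul_neg,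
        ← sum_neg_distrib]
      refine mul_le_mul_of_nonneg_left (sum_le_sum fun χ _ => ?_) (by norm_num)
      rw [map_neg, map_neg]
      have := pair_le (k χ) hp (φ χ)
      linarith
    have h3 := sum_le_sum h2
    rw [sum_neg_distrib, ← mul_sum] at h3
    linarith

theorem relSlope_le (hr : ∃ χ, 2 ≤ rk (k χ)) : relSlope k ≤ 1 / 2 :=
  csInf_le (bddBelow k hr) (admits_half k)

theorem relSlope_nonneg (hr : ∃ χ, 2 ≤ rk (k χ)) : 0 ≤ relSlope k :=
  le_csInf ⟨_, admits_half k⟩ fun _ h => admits_nonneg k hr h

end covers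

end Pool.Agent.H433.AC
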