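import Pool.Agent.H433.AC.Rel5

/-!
The best slope for the relative height of hyperelliptic curves.
-/

set_option autoImplicit false
set_option linter.unusedSectionVars false

open Finset

namespace Pool.Agent.H433.AC

/-- The double covers which are branched at the points with the numbers `1, ..., n`, and at the
point at infinity if `n` is odd. -/
def hyp (n : ℕ) : ZMod 2 →+ (Fin n → ZMod 2) where
  toFun χ := fun _ => χ
  map_zero' := rfl
  map_add' _ _ := rfl

theorem sum_two {M : Type} [AddCommMonoid M] (f : ZMod 2 → M) : ∑ χ, f χ = f 0 + f 1 :=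
  Fin.sum_univ_two f

variable {g n : ℕ}

theorem hyp_apply (χ : ZMod 2) (i : Fin n) : hyp n χ i = χ := rfl

theorem wt_one : wt (hyp n 1) = n := by
  unfold wt
  simp only [hyp_apply]
  rw [ZMod.val_one, sum_const, card_univ, Fintype.card_fin, smul_eq_mul, mul_one]

theorem dm_one (hn : n = 2 * g + 1 ∨ n = 2 * g + 2) : dm (hyp n 1) = g := by
  unfold dm
  rw [wt_one]
  omega

theorem nb_one : nb (hyp n 1) = n := by
  unfold nb
  simp only [hyp_apply]
  rw [filter_true_of_mem fun _ _ => one_ne_zero, card_univ, Fintype.card_fin]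

theorem rk_one (hn : n = 2 * g + 1 ∨ n = 2 * g + 2) : rk (hyp n 1) = 2 * g := by
  unfold rk
  rw [nb_one, wt_one]
  rcases hn with rfl | rfl
  · rw [if_neg (by omega)]
    omega
  · rw [if_pos (by omega)]
    omega

theorem wt_zero : wt (hyp n 0) = 0 := by
  unfold wt
  simp only [hyp_apply]
  rw [ZMod.val_zero, sum_const_zero]

theorem dm_zero : dm (hyp n 0) = 0 := by
  unfold dm
  rw [wt_zero]

theorem rk_zero : rk (hyp n 0) = 0 := by
  have h1 := dm_add (hyp n 0)
  rw [← map_neg, neg_zero, dm_zero] at h1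
  omega

theorem hom_cases (φ : ZMod 2 →+ ZMod 2) : φ 1 = 0 ∨ φ 1 = 1 := by
  generalize φ 1 = x
  revert x
  decide

theorem js_one (hn : n = 2 * g + 1 ∨ n = 2 * g + 2) (p : Fin n × Fin n) :
    js (hyp n 1) 1 p = g / 2 := by
  unfold js jg bd
  simp only [hyp_apply, ZMod.val_one]
  rw [dm_one hn, if_neg (by norm_num)]
  push_cast
  ring

theorem fs_one (hn : n = 2 * g + 1 ∨ n = 2 * g + 2) (p : Fin n × Fin n) :
    fs (hyp n 1) 1 p = 2 * g := by
  unfold fs
  simp only [hyp_apply]
  rw [rk_one hn, if_neg (by decide), if_neg (by decide), if_neg (by decide)]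

theorem fs_one_zero (hg : 1 ≤ g) (hn : n = 2 * g + 1 ∨ n = 2 * g + 2) (p : Fin n × Fin n) :
    fs (hyp n 1) 0 p = 1 := by
  rw [fs_zero, if_pos]
  refine ⟨⟨one_ne_zero, one_ne_zero⟩, ?_⟩
  rw [rk_one hn]
  omega

theorem fs_zero_zero (p : Fin n × Fin n) : fs (hyp n 0) 0 p = 0 := by
  rw [fs_zero, if_neg]
  rintro ⟨⟨h, _⟩, _⟩
  exact h rfl

theorem gain_hyp (hg : 1 ≤ g) (hn : n = 2 * g + 1 ∨ n = 2 * g + 2) (κ : ℝ) (p : Fin n × Fin n) :
    gain (hyp n) κ p = max (-κ) (g / 2 - 2 * g * κ) := by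
  have hval : ∀ φ : ZMod 2 →+ ZMod 2,
      ∑ χ, (js (hyp n χ) (φ χ) p - κ * fs (hyp n χ) (φ χ) p) =
        js (hyp n 1) (φ 1) p - κ * fs (hyp n 1) (φ 1) p := by
    intro φ
    rw [sum_two, map_zero φ, js_zero, fs_zero_zero]
    simp
  apply le_antisymm
  · unfold gain
    refine ciSup_le fun φ => ?_
    rw [hval]
    rcases hom_cases φ with h | h
    · rw [h, js_zero, fs_one_zero hg hn]
      refine le_trans (le_of_eq ?_) (le_max_left _ _)
      push_cast
      ring
    · rw [h, js_one hn, fs_one hn]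
      refine le_trans (le_of_eq ?_) (le_max_right _ _)
      push_cast
      ring
  · refine max_le ?_ ?_
    · have := le_gain (hyp n) κ p 0
      rw [hval, AddMonoidHom.zero_apply, js_zero, fs_one_zero hg hn] at this
      push_cast at this
      linarith
    · have := le_gain (hyp n) κ p (AddMonoidHom.id _)
      rw [hval, AddMonoidHom.id_apply, js_one hn, fs_one hn] at this
      push_cast at this
      linarith

theorem card_prs (n : ℕ) : ((prs n).card : ℝ) = n * (n - 1) / 2 := by
  have h1 : prS (univ : Finset (Fin n)) = prs n := by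
    unfold prS
    simp
  have h2 := card_prS (univ : Finset (Fin n))
  rw [h1, card_univ, Fintype.card_fin] at h2
  exact h2

theorem admits_hyp (hg : 1 ≤ g) (hn : n = 2 * g + 1 ∨ n = 2 * g + 2) (κ : ℝ) :
    Admits (hyp n) κ ↔ ((g : ℝ) + 1) / (4 * g + 2) ≤ κ := by
  have hgR : (1 : ℝ) ≤ g := by exact_mod_cast hg
  have hA : ∑ χ, al (hyp n χ) = g * (n / 2) - g * (g + 1) / 2 := by
    rw [sum_two]
    unfold al
    rw [dm_zero, dm_one hn, wt_one]
    push_cast
    ring
  have hΓ : ∑ p ∈ prs n, gain (hyp n) κ p = (n * (n - 1) / 2) * max (-κ) (g / 2 - 2 * g * κ) := by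
    rw [sum_congr rfl fun p _ => gain_hyp hg hn κ p, sum_const, nsmul_eq_mul, card_prs]
  have hord : (∀ φ : ZMod 2 →+ ZMod 2, ∑ χ, jg (hyp n χ) (φ χ) ≤
      κ * ∑ χ, (fg (hyp n χ) (φ χ) : ℝ)) ↔ 1 / 4 ≤ κ := by
    have e1 : ∀ φ : ZMod 2 →+ ZMod 2, ∑ χ, jg (hyp n χ) (φ χ) = jg (hyp n 1) (φ 1) := by
      intro φ
      rw [sum_two, map_zero φ, jg_zero, zero_add]
    have e2 : ∀ φ : ZMod 2 →+ ZMod 2, ∑ χ, (fg (hyp n χ) (φ χ) : ℝ) = fg (hyp n 1) (φ 1) := by
      intro φ
      rw [sum_two, map_zero φ, fg_zero, Nat.cast_zero, zero_add]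
    have e3 : jg (hyp n 1) (1 : ZMod 2) = g / 2 := by
      unfold jg
      rw [dm_one hn, ZMod.val_one]
      push_cast
      ring
    have e4 : fg (hyp n 1) (1 : ZMod 2) = 2 * g := by
      unfold fg
      rw [if_neg one_ne_zero, rk_one hn]
    simp only [e1, e2]
    constructor
    · intro h
      have h1 := h (AddMonoidHom.id _)
      rw [AddMonoidHom.id_apply, e3, e4] at h1
      push_cast at h1
      nlinarith
    · intro h φ
      rcases hom_cases φ with h1 | h1
      · rw [h1, jg_zero, fg_zero]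
        simp
      · rw [h1, e3, e4]
        push_cast
        nlinarith
  unfold Admits
  rw [hord, hA, hΓ]
  have h42 : (0 : ℝ) < 4 * g + 2 := by linarith
  rw [div_le_iff₀ h42]
  have hmain : ((g : ℝ) * (n / 2) - g * (g + 1) / 2) =
      (n * (n - 1) / 2) * (g / (4 * g + 2)) ∧ (0 : ℝ) < n * (n - 1) / 2 := by
    rcases hn with rfl | rfl
    · push_cast
      constructor
      · field_simp
        ring
      · nlinarith
    · push_cast
      constructor
      · field_simp
        ring
      · nlinarith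
  rw [hmain.1, ← mul_add]
  have hq : (g : ℝ) / (4 * g + 2) * (4 * g + 2) = g := div_mul_cancel₀ _ h42.ne'
  set q : ℝ := (g : ℝ) / (4 * g + 2) with hqd
  constructor
  · rintro ⟨h1, h2⟩
    have h3 : q + max (-κ) (g / 2 - 2 * g * κ) ≤ 0 := by
      by_contra hcon
      rw [not_le] at hcon
      have := mul_pos hmain.2 hcon
      linarith
    have h4 : q + (g / 2 - 2 * g * κ) ≤ 0 := by
      have := le_max_right (-κ) ((g : ℝ) / 2 - 2 * g * κ)
      linarith
    have h5 : (q + (g / 2 - 2 * g * κ)) * (4 * g + 2) ≤ 0 :=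
      mul_nonpos_of_nonpos_of_nonneg h4 h42.le
    have h6 : (g : ℝ) * (1 + (2 * g + 1) - 2 * κ * (4 * g + 2)) ≤ 0 := by
      have : (q + (g / 2 - 2 * g * κ)) * (4 * g + 2) =
          q * (4 * g + 2) + g * (2 * g + 1) - 2 * g * κ * (4 * g + 2) := by ring
      rw [this, hq] at h5
      linarith
    have h7 : 1 + (2 * (g : ℝ) + 1) - 2 * κ * (4 * g + 2) ≤ 0 := by
      by_contra hcon
      rw [not_le] at hcon
      have := mul_pos (by linarith : (0 : ℝ) < g) hcon
      linarith
    linarith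
  · intro h
    have hκ4 : 1 / 4 ≤ κ := by
      have h1 : (1 / 4) * (4 * g + 2) ≤ κ * (4 * g + 2) := by
        refine le_trans ?_ h
        linarith
      exact le_of_mul_le_mul_right h1 h42
    refine ⟨hκ4, ?_⟩
    refine mul_nonpos_of_nonneg_of_nonpos hmain.2.le ?_
    have h1 : q ≤ κ := by
      have : q * (4 * g + 2) ≤ κ * (4 * g + 2) := by
        rw [hq]
        linarith
      exact le_of_mul_le_mul_right this h42
    have h2 : q + (g / 2 - 2 * g * κ) ≤ 0 := by
      by_contra hcon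
      rw [not_le] at hcon
      have h3 := mul_pos hcon h42
      have h4 : (q + (g / 2 - 2 * g * κ)) * (4 * g + 2) =
          q * (4 * g + 2) + g * (2 * g + 1) - 2 * g * (κ * (4 * g + 2)) := by ring
      rw [h4, hq] at h3
      have h5 : 2 * (g : ℝ) * (g + 1) ≤ 2 * g * (κ * (4 * g + 2)) :=
        mul_le_mul_of_nonneg_left h (by linarith)
      linarith
    have h3 : max (-κ) ((g : ℝ) / 2 - 2 * g * κ) ≤ -q := max_le (by linarith) (by linarith)
    linarith

/-- the best slope for the quadratic twists of hyperelliptic curves of genus `g` -/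
theorem relSlope_hyp (hg : 1 ≤ g) (hn : n = 2 * g + 1 ∨ n = 2 * g + 2) :
    relSlope (hyp n) = ((g : ℝ) + 1) / (4 * g + 2) := by
  unfold relSlope
  have h1 : {κ | Admits (hyp n) κ} = Set.Ici (((g : ℝ) + 1) / (4 * g + 2)) := by
    ext κ
    exact admits_hyp hg hn κ
  rw [h1, csInf_Ici]

end Pool.Agent.H433.AC
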