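import Pool.Agent.H433.AC.Main

/-!
Definitions: the relative height over the given number field, and its exponents.
-/

set_option autoImplicit false
set_option linter.unusedSectionVars false

open NumberField IsDedekindDomain MeasureTheory Finset

namespace Pool.Agent.H433.AC

section types

variable {m n : ℕ}

/-- `1` if `r / m + μ_i + μ_j ≥ 2` (where `0 ≤ r < m`), and `0` if not -/
def bd (k : Fin n → ZMod m) (r : ZMod m) (p : Fin n × Fin n) : ℕ :=
  if 2 * m ≤ r.val + (k p.1).val + (k p.2).val then 1 else 0

/-- The exponent of the relative height at a place which does not divide `m` and where no two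
branch points coincide; `r` is the residue class modulo `m` of the order of `e`. -/
noncomputable def jg (k : Fin n → ZMod m) (r : ZMod m) : ℝ := dm k * (r.val / m : ℝ)

/-- The exponent of the relative height at a simple place where the branch points with the numbers
`p` coincide. -/
noncomputable def js (k : Fin n → ZMod m) (r : ZMod m) (p : Fin n × Fin n) : ℝ :=
  jg k r - bd k r p

end types

variable {K : Type} [Field K] [NumberField K] {m n : ℕ} {X : Type} [AddCommGroup X] [Fintype X]

/-- The twists of an abelian cover with the group of characters `X`: the numbers `e_χ` different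
from zero with `e_(χ + χ') = e_χ e_χ'` up to `m`-th powers. -/
def Twist (m : ℕ) (e : X → K) : Prop :=
  (∀ χ, e χ ≠ 0) ∧ ∀ χ ψ, ∃ t : K, e (χ + ψ) = e χ * e ψ * t ^ m

open Classical in
/-- `[K : ℚ]` times the relative height of the twist, up to the contribution of the places which
divide `m` or where more than two branch points coincide or where two coincide not simply -/
noncomputable def relHeight (k : X →+ (Fin n → ZMod m)) (a : Fin n → 𝓞 K) (e : X → K) : ℝ :=
  (∑ σ : K →+* ℂ, ∑ χ, -(1 / 2) * Real.log (vol (k χ) fun i => σ (a i))) +
    ∑ᶠ v : HeightOneSpectrum (𝓞 K),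
      ((if (m : 𝓞 K) ∈ v.asIdeal then 0 else ∑ χ, jg (k χ) (od v (e χ) : ZMod m)) -
        ∑ p ∈ prs n, if Simple m a p v then ∑ χ, (bd (k χ) (od v (e χ) : ZMod m) p : ℝ) else 0) *
          Real.log (nv v)

/-- The largest contribution of a simple place at which the branch points with the numbers `p`
coincide to the difference of the height and `κ` times the logarithm of the conductor, for all
twists. -/
noncomputable def gain (k : X →+ (Fin n → ZMod m)) (κ : ℝ) (p : Fin n × Fin n) : ℝ :=
  ⨆ φ : X →+ ZMod m, ∑ χ, (js (k χ) (φ χ) p - κ * fs (k χ) (φ χ) p)

/-- The contributions of the ordinary places of all twists to the difference of the height and `κ`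
times the logarithm of the conductor are not positive, and for the leading term of the
contributions of the simple and the archimedean places the same holds. -/
def Admits (k : X →+ (Fin n → ZMod m)) (κ : ℝ) : Prop :=
  (∀ φ : X →+ ZMod m, ∑ χ, jg (k χ) (φ χ) ≤ κ * ∑ χ, (fg (k χ) (φ χ) : ℝ)) ∧
    ∑ χ, al (k χ) + ∑ p ∈ prs n, gain k κ p ≤ 0

/-- the best slope for the relative height and all twists -/
noncomputable def relSlope (k : X →+ (Fin n → ZMod m)) : ℝ := sInf {κ | Admits k κ}

/-- The branch points are different, and the inequality of Frey with the slope `κ` and the constant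
`C` holds for all twists. -/
def FreyAll (κ C : ℝ) (k : X →+ (Fin n → ZMod m)) (a : Fin n → 𝓞 K) : Prop :=
  Function.Injective a ∧ ∀ e : X → K, Twist m e →
    relHeight k a e ≤ κ * Real.log (cond k a e) + C

/-- The branch points are different, and there is a twist for which the height exceeds `κ` times
the logarithm of the conductor by more than `T`. -/
def FreyFails (κ B T : ℝ) (k : X →+ (Fin n → ZMod m)) (a : Fin n → 𝓞 K) : Prop :=
  Function.Injective a ∧ ∃ e : X → K, Twist m e ∧
    κ * (Real.log (cond k a e) + B * exc m a) + T ≤ relHeight k a e - B * exc m a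

end Pool.Agent.H433.AC
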