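import Pool.Agent.H433.AC.Arch

/-!
Upper and lower bounds for the `L²` norm of the differentials (continued).
-/

set_option autoImplicit false
set_option linter.unusedSectionVars false

open MeasureTheory Finset
open scoped ENNReal

namespace Pool.Agent.H433.AC

variable {m n : ℕ} [NeZero m] (k : Fin n → ZMod m)

/-- the exponents -/
noncomputable def muf (i : Fin n) : ℝ := (k i).val / m

/-- the integral -/
noncomputable def lvol (z : Fin n → ℂ) : ℝ≥0∞ :=
  ∫⁻ x : Fin (dm k) → ℂ, ‖(Matrix.vandermonde x).det‖ₑ ^ 2 *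
    ∏ s, ∏ i, ‖x s - z i‖ₑ ^ (-(2 * ((k i).val / m) : ℝ))

theorem vol_eq (z : Fin n → ℂ) : vol k z = (lvol k z).toReal := rfl

theorem lvol_eq (z : Fin n → ℂ) : lvol k z =
    ∫⁻ x : Fin (dm k) → ℂ, ‖(Matrix.vandermonde x).det‖ₑ ^ 2 * ∏ s, wgt (muf k) z (x s) := rfl

theorem sum_muf : ∑ i, muf k i = wt k / m := sum_mu k

/-- the lower bound -/
theorem lvol_lower : ∃ c : ℝ, 0 < c ∧ ∀ (z : Fin n → ℂ) (R : ℝ), 0 < R → (∀ i, ‖z i‖ ≤ R) →
    ENNReal.ofReal (c * R ^ ((dm k : ℝ) * (dm k + 1) - 2 * dm k * (wt k / m))) ≤ lvol k z := by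
  set d := dm k with hd
  set s : ℝ := wt k / m with hs
  have hd1 : (0 : ℝ) < d + 1 := by positivity
  refine ⟨(1 / (2 * (d + 1) : ℝ)) ^ (d * (d - 1)) * ((2 : ℝ) ^ (-(2 * s))) ^ d *
    ((1 / (4 * (d + 1) : ℝ)) ^ 2 * Real.pi) ^ d, by positivity, fun z R hR hz => ?_⟩
  set r : ℝ := R / (4 * (d + 1)) with hr
  have hr0 : 0 < r := by positivity
  set c : Fin d → ℂ := fun i => (((i : ℕ) / (d + 1) * R : ℝ) : ℂ) with hc
  set T : Set (Fin d → ℂ) := Set.univ.pi fun i => Metric.ball (c i) r with hT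
  have hTm : MeasurableSet T := MeasurableSet.univ_pi fun i => Metric.isOpen_ball.measurableSet
  have hvol : volume T = ENNReal.ofReal ((r ^ 2 * Real.pi) ^ d) := by
    rw [hT, volume_pi_pi]
    simp only [Complex.volume_ball]
    rw [prod_const, card_univ, Fintype.card_fin, ENNReal.ofReal_pow (by positivity),
      ENNReal.ofReal_mul (by positivity), ENNReal.ofReal_pow hr0.le]
    congr 2
    rw [← NNReal.coe_real_pi, ENNReal.ofReal_coe_nnreal]
  have hsep : ∀ x ∈ T, ∀ i j : Fin d, i ≠ j → R / (2 * (d + 1)) ≤ ‖x i - x j‖ := by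
    intro x hx i j hij
    have e1 : ‖x i - c i‖ < r := by
      have := hx i (Set.mem_univ _)
      rwa [Metric.mem_ball, dist_eq_norm] at this
    have e2 : ‖x j - c j‖ < r := by
      have := hx j (Set.mem_univ _)
      rwa [Metric.mem_ball, dist_eq_norm] at this
    have e3 : R / (d + 1) ≤ ‖c i - c j‖ := by
      rw [hc]
      simp only
      rw [← Complex.ofReal_sub, Complex.norm_real, Real.norm_eq_abs, ← sub_mul, ← sub_div, abs_mul,
        abs_div, abs_of_pos hR, abs_of_pos hd1]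
      have e4 : (1 : ℝ) ≤ |((i : ℕ) : ℝ) - ((j : ℕ) : ℝ)| := by
        have e5 : ((i : ℕ) : ℤ) - ((j : ℕ) : ℤ) ≠ 0 := by
          intro h
          apply hij
          apply Fin.ext
          omega
        have e6 := Int.one_le_abs e5
        exact_mod_cast e6
      rw [div_mul_eq_mul_div]
      refine div_le_div_of_nonneg_right ?_ hd1.le
      nlinarith
    have e4 : ‖c i - c j‖ ≤ ‖x i - x j‖ + ‖x i - c i‖ + ‖x j - c j‖ := by
      have : c i - c j = (x i - x j) - (x i - c i) + (x j - c j) := by ring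
      rw [this]
      refine (norm_add_le _ _).trans ?_
      have := norm_sub_le (x i - x j) (x i - c i)
      linarith
    have e5 : R / (d + 1) = R / (2 * (d + 1)) + 2 * r := by
      rw [hr]
      field_simp
      ring
    linarith
  have hin : ∀ x ∈ T, ∀ i : Fin d, ‖x i‖ ≤ R := by
    intro x hx i
    have e1 : ‖x i - c i‖ < r := by
      have := hx i (Set.mem_univ _)
      rwa [Metric.mem_ball, dist_eq_norm] at this
    have e2 : ‖c i‖ ≤ (d - 1) / (d + 1) * R := by
      rw [hc]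
      simp only
      rw [Complex.norm_real, Real.norm_of_nonneg (by positivity)]
      refine mul_le_mul_of_nonneg_right (div_le_div_of_nonneg_right ?_ hd1.le) hR.le
      have : (i : ℕ) + 1 ≤ d := i.2
      have : ((i : ℕ) : ℝ) + 1 ≤ d := by exact_mod_cast this
      linarith
    have e3 : ‖x i‖ ≤ ‖x i - c i‖ + ‖c i‖ := by
      have := norm_add_le (x i - c i) (c i)
      rwa [sub_add_cancel] at this
    have e4 : (d - 1 : ℝ) / (d + 1) * R + r ≤ R := by
      have : (d - 1 : ℝ) / (d + 1) * R + r = (4 * (d - 1) + 1) / (4 * (d + 1)) * R := by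
        rw [hr]
        field_simp
      rw [this]
      refine mul_le_of_le_one_left hR.le ?_
      rw [div_le_one (by positivity)]
      linarith
    linarith
  have h1 : ∀ x ∈ T, ENNReal.ofReal ((R / (2 * (d + 1))) ^ (d * (d - 1)) *
      ((2 * R) ^ (-(2 * s))) ^ d) ≤
      ‖(Matrix.vandermonde x).det‖ₑ ^ 2 * ∏ t, wgt (muf k) z (x t) := by
    intro x hx
    rw [ENNReal.ofReal_mul (by positivity)]
    refine mul_le_mul' ?_ ?_
    · rw [← ofReal_norm, ← ENNReal.ofReal_pow (norm_nonneg _)]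
      exact ENNReal.ofReal_le_ofReal (le_vdm x (by positivity) (hsep x hx))
    · rw [ENNReal.ofReal_pow (by positivity)]
      have e1 : ∀ t : Fin d, ENNReal.ofReal ((2 * R) ^ (-(2 * s))) ≤ wgt (muf k) z (x t) := by
        intro t
        have := le_wgt (muf k) (fun i => mu_nonneg k i) hR hz (hin x hx t)
        rwa [sum_muf] at this
      calc ENNReal.ofReal ((2 * R) ^ (-(2 * s))) ^ d
          = ∏ _t : Fin d, ENNReal.ofReal ((2 * R) ^ (-(2 * s))) := by
            rw [prod_const, card_univ, Fintype.card_fin]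
        _ ≤ ∏ t, wgt (muf k) z (x t) := prod_le_prod' fun t _ => e1 t
  have h2 : ENNReal.ofReal ((R / (2 * (d + 1))) ^ (d * (d - 1)) *
      ((2 * R) ^ (-(2 * s))) ^ d) * volume T ≤ lvol k z := by
    rw [lvol_eq, ← setLIntegral_const]
    exact (setLIntegral_mono' hTm h1).trans (setLIntegral_le_lintegral _ _)
  refine le_trans (le_of_eq ?_) h2
  rw [hvol, ← ENNReal.ofReal_mul (by positivity)]
  congr 1
  have e1 : (2 * R) ^ (-(2 * s)) = 2 ^ (-(2 * s)) * R ^ (-(2 * s)) :=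
    Real.mul_rpow (by norm_num) hR.le
  have e2 : R ^ ((d : ℝ) * (d + 1) - 2 * d * s) =
      R ^ (d * (d - 1)) * (R ^ (-(2 * s))) ^ d * (R ^ 2) ^ d := by
    rw [← Real.rpow_natCast R (d * (d - 1)), ← Real.rpow_natCast (R ^ (-(2 * s))) d,
      ← Real.rpow_mul hR.le, ← pow_mul, ← Real.rpow_natCast R (2 * d), ← Real.rpow_add hR,
      ← Real.rpow_add hR]
    congr 1
    rcases Nat.eq_zero_or_pos d with h | h
    · rw [h]
      push_cast
      ring
    · push_cast [Nat.cast_sub h]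
      ring
  have e3 : R / (2 * (d + 1)) = 1 / (2 * (d + 1)) * R := by ring
  have e4 : r ^ 2 * Real.pi = ((1 / (4 * (d + 1) : ℝ)) ^ 2 * Real.pi) * R ^ 2 := by
    rw [hr]
    ring
  rw [e1, e2, e3, e4, mul_pow, mul_pow, mul_pow ((1 / (4 * (d + 1) : ℝ)) ^ 2 * Real.pi)]
  ring

/-- the upper bound -/
theorem lvol_upper : ∃ C : ℝ, 1 ≤ C ∧ ∀ (z : Fin n → ℂ) (R ρ : ℝ), 0 < ρ → ρ ≤ R →
    (∀ i, ‖z i‖ ≤ R) → (∀ i j, i ≠ j → ρ ≤ ‖z i - z j‖) →
    lvol k z ≤ ENNReal.ofReal (C * R ^ ((dm k : ℝ) * (dm k + 1) - 2 * dm k * (wt k / m)) *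
      (R / ρ) ^ (2 * dm k * (wt k / m) : ℝ)) := by
  set d := dm k with hd
  set s : ℝ := wt k / m with hs
  rcases Nat.eq_zero_or_pos d with h0 | hpos
  · refine ⟨1, le_rfl, fun z R ρ hρ hρR hz hzρ => ?_⟩
    have e1 : ∀ x : Fin d → ℂ, ‖(Matrix.vandermonde x).det‖ₑ ^ 2 *
        ∏ t, wgt (muf k) z (x t) = 1 := by
      intro x
      have : IsEmpty (Fin d) := by
        rw [h0]
        infer_instance
      rw [Matrix.det_isEmpty, Finset.univ_eq_empty, prod_empty]
      simp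
    rw [lvol_eq]
    have e2 : ∫⁻ x : Fin d → ℂ, ‖(Matrix.vandermonde x).det‖ₑ ^ 2 *
        ∏ t, wgt (muf k) z (x t) = 1 := by
      simp only [e1]
      have := lint_prod (fun _ => 1) measurable_const d
      simp only [prod_const_one] at this
      rw [this, h0, pow_zero]
    rw [e2, h0]
    simp
  have hds : (d : ℝ) < ∑ i, muf k i := by
    rw [sum_muf]
    exact dm_lt k (by omega)
  obtain ⟨C, hC, h⟩ := int_one (muf k) (fun i => mu_nonneg k i) (fun i => mu_lt k i) d hpos hds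
  refine ⟨(d.factorial : ℝ) ^ 2 * C ^ d, ?_, fun z R ρ hρ hρR hz hzρ => ?_⟩
  · have e1 : (1 : ℝ) ≤ d.factorial := by exact_mod_cast Nat.succ_le_of_lt d.factorial_pos
    exact one_le_mul_of_one_le_of_one_le (one_le_pow₀ e1) (one_le_pow₀ hC)
  have hR : 0 < R := by linarith
  rw [sum_muf] at h hds
  rw [lvol_eq]
  have h1 : ∀ x : Fin d → ℂ, ‖(Matrix.vandermonde x).det‖ₑ ^ 2 * ∏ t, wgt (muf k) z (x t) ≤
      ENNReal.ofReal ((d.factorial : ℝ) ^ 2 * R ^ (d * (d - 1))) *
        ∏ t, (ENNReal.ofReal ((max 1 (‖x t‖ / R)) ^ (2 * (d - 1))) * wgt (muf k) z (x t)) := by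
    intro x
    rw [prod_mul_distrib, ← mul_assoc]
    refine mul_le_mul' ?_ le_rfl
    rw [← ENNReal.ofReal_prod_of_nonneg fun t _ => by positivity, ← ENNReal.ofReal_mul
      (by positivity), ← ofReal_norm, ← ENNReal.ofReal_pow (norm_nonneg _)]
    exact ENNReal.ofReal_le_ofReal (vdm_le x hR)
  refine (lintegral_mono h1).trans ?_
  set f : ℂ → ℝ≥0∞ := fun x => ENNReal.ofReal ((max 1 (‖x‖ / R)) ^ (2 * (d - 1))) *
    wgt (muf k) z x with hf
  have hfm : Measurable f := by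
    refine Measurable.mul ?_ (wgt_measurable _ z)
    fun_prop
  have hfp : Measurable fun x : Fin d → ℂ => ∏ t, f (x t) :=
    Finset.measurable_fun_prod _ fun t _ => hfm.comp (measurable_pi_apply t)
  rw [lintegral_const_mul _ hfp, lint_prod f hfm, lint_scale f hfm hR]
  have h2 : ∫⁻ y, f (R • y) ≤
      ENNReal.ofReal (R ^ (-(2 * s)) * (C * (ρ / R) ^ (-(2 * s)))) := by
    have e1 : ∀ y : ℂ, f (R • y) = ENNReal.ofReal (R ^ (-(2 * s))) *
        (ENNReal.ofReal ((max 1 ‖y‖) ^ (2 * (d - 1))) * wgt (muf k) (fun i => z i / R) y) := by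
      intro y
      rw [hf]
      simp only
      rw [wgt_scale (muf k) hR, sum_muf]
      have e2 : ‖R • y‖ / R = ‖y‖ := by
        rw [norm_smul, Real.norm_of_nonneg hR.le, mul_comm, mul_div_assoc, div_self hR.ne', mul_one]
      rw [e2]
      ring
    simp only [e1]
    have hm : Measurable fun y : ℂ => ENNReal.ofReal ((max 1 ‖y‖) ^ (2 * (d - 1))) *
        wgt (muf k) (fun i => z i / R) y := by
      refine Measurable.mul ?_ (wgt_measurable _ _)
      fun_prop
    rw [lintegral_const_mul _ hm, ENNReal.ofReal_mul (by positivity)]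
    refine mul_le_mul' le_rfl (h (fun i => z i / R) (ρ / R) (by positivity) ?_ ?_ ?_)
    · rw [div_le_one hR]
      exact hρR
    · intro i
      rw [norm_div, Complex.norm_real, Real.norm_of_nonneg hR.le, div_le_one hR]
      exact hz i
    · intro i j hij
      rw [← sub_div, norm_div, Complex.norm_real, Real.norm_of_nonneg hR.le]
      exact div_le_div_of_nonneg_right (hzρ i j hij) hR.le
  have h3 : ENNReal.ofReal (R ^ 2) * ∫⁻ y, f (R • y) ≤
      ENNReal.ofReal (R ^ 2 * (R ^ (-(2 * s)) * (C * (ρ / R) ^ (-(2 * s))))) := by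
    rw [ENNReal.ofReal_mul (by positivity) (p := R ^ 2)]
    exact mul_le_mul' le_rfl h2
  refine (mul_le_mul' le_rfl (pow_le_pow_left' h3 d)).trans (le_of_eq ?_)
  rw [← ENNReal.ofReal_pow (by positivity), ← ENNReal.ofReal_mul (by positivity)]
  congr 1
  have e1 : (ρ / R) ^ (-(2 * s)) = (R / ρ) ^ (2 * s) := by
    rw [Real.rpow_neg (by positivity), ← Real.inv_rpow (by positivity), inv_div]
  have e2 : (R / ρ) ^ (2 * (d : ℝ) * s) = ((R / ρ) ^ (2 * s)) ^ d := by
    rw [← Real.rpow_natCast, ← Real.rpow_mul (by positivity)]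
    congr 1
    ring
  have e3 : R ^ ((d : ℝ) * (d + 1) - 2 * d * s) =
      R ^ (d * (d - 1)) * (R ^ (-(2 * s))) ^ d * (R ^ 2) ^ d := by
    rw [← Real.rpow_natCast R (d * (d - 1)), ← Real.rpow_natCast (R ^ (-(2 * s))) d,
      ← Real.rpow_mul hR.le, ← pow_mul, ← Real.rpow_natCast R (2 * d), ← Real.rpow_add hR,
      ← Real.rpow_add hR]
    congr 1
    push_cast [Nat.cast_sub hpos]
    ring
  rw [e1, e2, e3, mul_pow, mul_pow, mul_pow]
  ring

/-- both bounds for the logarithm -/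
theorem arch : ∃ C : ℝ, 0 ≤ C ∧ ∀ (z : Fin n → ℂ) (R ρ : ℝ), 0 < ρ → ρ ≤ R →
    (∀ i, ‖z i‖ ≤ R) → (∀ i j, i ≠ j → ρ ≤ ‖z i - z j‖) →
    -(1 / 2) * Real.log (vol k z) ≤
      (dm k * (wt k / m : ℝ) - dm k * (dm k + 1) / 2) * Real.log R + C ∧
    (dm k * (wt k / m : ℝ) - dm k * (dm k + 1) / 2) * Real.log R - C -
      dm k * (wt k / m : ℝ) * Real.log (R / ρ) ≤ -(1 / 2) * Real.log (vol k z) := by
  obtain ⟨c, hc, h1⟩ := lvol_lower k
  obtain ⟨C, hC, h2⟩ := lvol_upper k
  have hlC : 0 ≤ Real.log C := Real.log_nonneg hC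
  refine ⟨|Real.log c| + Real.log C, by positivity, fun z R ρ hρ hρR hz hzρ => ?_⟩
  have hR : 0 < R := by linarith
  have h3 := h1 z R hR hz
  have h4 := h2 z R ρ hρ hρR hz hzρ
  have hfin : lvol k z ≠ ∞ := ne_top_of_le_ne_top ENNReal.ofReal_ne_top h4
  have h5 : c * R ^ ((dm k : ℝ) * (dm k + 1) - 2 * dm k * (wt k / m)) ≤ vol k z := by
    rw [vol_eq]
    exact (ENNReal.ofReal_le_iff_le_toReal hfin).1 h3
  have h6 : vol k z ≤ C * R ^ ((dm k : ℝ) * (dm k + 1) - 2 * dm k * (wt k / m)) *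
      (R / ρ) ^ (2 * dm k * (wt k / m) : ℝ) := by
    rw [vol_eq]
    exact ENNReal.toReal_le_of_le_ofReal (by positivity) h4
  have hpos : 0 < c * R ^ ((dm k : ℝ) * (dm k + 1) - 2 * dm k * (wt k / m)) := by positivity
  have h7 := Real.log_le_log hpos h5
  have h8 := Real.log_le_log (lt_of_lt_of_le hpos h5) h6
  have hRρ : 0 < R / ρ := by positivity
  rw [Real.log_mul hc.ne' (by positivity), Real.log_rpow hR] at h7
  rw [Real.log_mul (by positivity) (by positivity), Real.log_mul (by positivity) (by positivity),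
    Real.log_rpow hR, Real.log_rpow hRρ] at h8
  have h9 := neg_abs_le (Real.log c)
  have h10 := abs_nonneg (Real.log c)
  constructor
  · nlinarith
  · nlinarith

end Pool.Agent.H433.AC
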